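import Pool.Agent.Helper29.Bisect.Good

set_option linter.unusedSectionVars false

/-!
# Judicious bisections: greedy orientation with expected absolute value, pairing lemma

`Q A x = ∑ A a b x a x b` (twice the signed edge count), `S d x = ∑ d a x a`.
-/

namespace Pool.Agent.Helper60.Bis

open Finset Pool.Agent.Helper29.Bisect

variable {V : Type*} [Fintype V] [DecidableEq V]

/-- basic assumptions on the adjacency matrix -/
structure Gr (A : V → V → ℤ) (j : ℤ) : Prop where
  symm : ∀ a b, A a b = A b a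
  diag : ∀ a, A a a = 0
  zo : ∀ a b, A a b = 0 ∨ A a b = 1
  deg : ∀ a, j - 1 ≤ dg A a

theorem Gr.nonneg {A : V → V → ℤ} {j : ℤ} (h : Gr A j) (a b : V) : 0 ≤ A a b := by
  rcases h.zo a b with h | h <;> simp [h]

theorem Gr.le_one {A : V → V → ℤ} {j : ℤ} (h : Gr A j) (a b : V) : A a b ≤ 1 := by
  rcases h.zo a b with h | h <;> simp [h]

/-- no balanced sign assignment is good (`t = m / j`) -/
def Bad (A : V → V → ℤ) (t : ℚ) : Prop :=
  ∀ x : V → ℤ, St Finset.univ x → |∑ v, x v| ≤ 1 →
    2 * t < (Q A x : ℚ) + 2 * |(S (dg A) x : ℚ)|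

/-- expected absolute value of `s ± a₁ ± a₂ …` -/
def Ev : List ℚ → ℚ → ℚ
  | [], s => |s|
  | a :: l, s => (Ev l (s + a) + Ev l (s - a)) / 2

theorem Ev_neg (l : List ℚ) : ∀ s, Ev l (-s) = Ev l s := by
  induction l with
  | nil => intro s; simp [Ev]
  | cons a l ih =>
    intro s
    simp only [Ev]
    have h1 : -s + a = -(s - a) := by ring
    have h2 : -s - a = -(s + a) := by ring
    rw [h1, h2, ih, ih]; ring

theorem Ev_le_abs (l : List ℚ) (hl : ∀ a ∈ l, 0 ≤ a) : ∀ s, l.sum ≤ s → Ev l s ≤ s := by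
  induction l with
  | nil => intro s hs; simp only [List.sum_nil] at hs; simp only [Ev]; rw [abs_of_nonneg hs]
  | cons a l ih =>
    intro s hs
    simp only [List.sum_cons] at hs
    have ha := hl a (by simp)
    have h1 := ih (fun b hb => hl b (by simp [hb])) (s + a) (by linarith)
    have h2 := ih (fun b hb => hl b (by simp [hb])) (s - a) (by linarith)
    simp only [Ev]; linarith

/-- Lemma C. -/
theorem Ev_le (l : List ℚ) : ∀ (s C : ℚ), (∀ a ∈ l, 0 ≤ a) → |s| ≤ C → (∀ a ∈ l, a ≤ C) →
    |s| + l.sum ≤ 2 * C → Ev l s ≤ C := by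
  induction l with
  | nil => intro s C _ h _ _; simpa [Ev] using h
  | cons a l ih =>
    have key : ∀ (s C : ℚ), 0 ≤ s → (∀ b ∈ a :: l, 0 ≤ b) → s ≤ C → (∀ b ∈ a :: l, b ≤ C) →
        s + (a :: l).sum ≤ 2 * C → Ev (a :: l) s ≤ C := by
      intro s C hs0 hl hs hb hsum
      have ha := hl a (by simp)
      have haC := hb a (by simp)
      have hl' : ∀ b ∈ l, 0 ≤ b := fun b hb => hl b (by simp [hb])
      have hb' : ∀ b ∈ l, b ≤ C := fun b hc => hb b (by simp [hc])
      have hsn : 0 ≤ l.sum := List.sum_nonneg hl'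
      simp only [List.sum_cons] at hsum
      simp only [Ev]
      by_cases hc : s + a ≤ C
      · have h1 := ih (s + a) C hl' (by rw [abs_of_nonneg (by linarith)]; exact hc) hb'
          (by rw [abs_of_nonneg (by linarith)]; linarith)
        have h2 := ih (s - a) C hl' (by rw [abs_le]; constructor <;> linarith) hb' (by
          rcases abs_cases (s - a) with h | h <;> rw [h.1] <;> linarith)
        linarith
      · push Not at hc
        have h1 := Ev_le_abs l hl' (s + a) (by linarith)
        have h2 := ih (s - a) (2 * C - (s + a)) hl'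
          (by rw [abs_le]; constructor <;> linarith)
          (fun b hbl => by
            have := List.single_le_sum hl' b hbl
            linarith)
          (by rcases abs_cases (s - a) with h | h <;> rw [h.1] <;> linarith)
        linarith
    intro s C hl hs hb hsum
    rcases le_total 0 s with h | h
    · rw [abs_of_nonneg h] at hs hsum
      exact key s C h hl hs hb hsum
    · rw [abs_of_nonpos h] at hs hsum
      rw [← Ev_neg]
      exact key (-s) C (by linarith) hl hs hb hsum

/-- gaps of a list of pairs -/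
def gaps (d : V → ℤ) (l : List (V × V)) : List ℚ := l.map fun e => |(d e.1 : ℚ) - d e.2|

theorem gaps_nonneg (d : V → ℤ) (l : List (V × V)) : ∀ a ∈ gaps d l, 0 ≤ a := by
  intro a ha
  simp only [gaps, List.mem_map] at ha
  obtain ⟨e, -, rfl⟩ := ha
  exact abs_nonneg _

theorem Ev_symm_step (l : List ℚ) (s g : ℚ) :
    Ev l (s + g) + Ev l (s - g) = Ev l (s + |g|) + Ev l (s - |g|) := by
  rcases abs_cases g with h | h
  · rw [h.1]
  · rw [h.1]
    have h1 : s + -g = s - g := by ring
    have h2 : s - -g = s + g := by ring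
    rw [h1, h2]; ring

/-- Greedy orientation of a list of pairs. -/
theorem greedy_Ev (A : V → V → ℤ) (hW : ∀ a b, A a b = A b a) (h0 : ∀ a, A a a = 0)
    (hpos : ∀ a b, 0 ≤ A a b) (d : V → ℤ) (l : List (V × V)) :
    ∀ (U : Finset V) (x : V → ℤ), St U x → (flat l).Nodup → (∀ v ∈ flat l, v ∉ U) →
    ∃ x' : V → ℤ, St (U ∪ (flat l).toFinset) x' ∧ ∑ v, x' v = ∑ v, x v ∧
      (Q A x' : ℚ) + 2 * |(S d x' : ℚ)| ≤ Q A x + 2 * Ev (gaps d l) (S d x) := by
  induction l with
  | nil => intro U x h _ _; exact ⟨x, by simpa using h, rfl, by simp [Ev, gaps]⟩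
  | cons e l ih =>
    intro U x h hnd hdis
    obtain ⟨a, b⟩ := e
    simp only [flat_cons, List.nodup_cons, List.mem_cons, not_or] at hnd hdis
    have hab : a ≠ b := hnd.1.1
    have haU : a ∉ U := hdis a (Or.inl rfl)
    have hbU : b ∉ U := hdis b (Or.inr (Or.inl rfl))
    have hU : U ∪ (flat ((a, b) :: l)).toFinset = insert a (insert b U) ∪ (flat l).toFinset := by
      ext x; simp
    have hdis' : ∀ v ∈ flat l, v ∉ insert a (insert b U) := by
      intro v hv
      simp only [Finset.mem_insert, not_or]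
      refine ⟨?_, ?_, hdis v (Or.inr (Or.inr hv))⟩
      · rintro rfl; exact hnd.1.2 hv
      · rintro rfl; exact hnd.2.1 hv
    obtain ⟨x1, h11, h12, h13⟩ := ih (insert a (insert b U)) (x + pr a b 1)
      (h.add_pr hab haU hbU (Or.inl rfl)) hnd.2.2 hdis'
    obtain ⟨x2, h21, h22, h23⟩ := ih (insert a (insert b U)) (x + pr a b (-1))
      (h.add_pr hab haU hbU (Or.inr rfl)) hnd.2.2 hdis'
    rw [Q_add_pr A hW h0 x a b 1 (Or.inl rfl), S_add, S_pr] at h13
    rw [Q_add_pr A hW h0 x a b (-1) (Or.inr rfl), S_add, S_pr] at h23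
    have hp : (0 : ℚ) ≤ A a b := by exact_mod_cast hpos a b
    have hE := Ev_symm_step (gaps d l) (S d x : ℚ) ((d a : ℚ) - d b)
    have hg : gaps d ((a, b) :: l) = |(d a : ℚ) - d b| :: gaps d l := rfl
    have h1 : ((S d x + 1 * (d a - d b) : ℤ) : ℚ) = (S d x : ℚ) + ((d a : ℚ) - d b) := by
      push_cast; ring
    have h2 : ((S d x + -1 * (d a - d b) : ℤ) : ℚ) = (S d x : ℚ) - ((d a : ℚ) - d b) := by
      push_cast; ring
    rw [h1] at h13
    rw [h2] at h23
    push_cast at h13 h23
    have hs : ∀ σ : ℤ, ∑ v, (x + pr a b σ) v = ∑ v, x v := by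
      intro σ
      simp only [Pi.add_apply, Finset.sum_add_distrib, sum_pr, add_zero]
    rw [hg, hU]
    simp only [Ev]
    by_cases hc : (Q A x1 : ℚ) + 2 * |(S d x1 : ℚ)| ≤ (Q A x2 : ℚ) + 2 * |(S d x2 : ℚ)|
    · exact ⟨x1, h11, by rw [h12, hs], by linarith⟩
    · push Not at hc
      exact ⟨x2, h21, by rw [h22, hs], by linarith⟩

/-- The sign pattern `+1` on `P`, `-1` on `N`. -/
def pat (P N : Finset V) (v : V) : ℤ := if v ∈ P then 1 else if v ∈ N then -1 else 0

theorem St_pat {P N : Finset V} (h : Disjoint P N) : St (P ∪ N) (pat P N) := by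
  constructor
  · intro a ha
    unfold pat
    by_cases h1 : a ∈ P
    · simp [h1]
    · have h2 : a ∈ N := by
        rcases Finset.mem_union.1 ha with h | h
        · exact absurd h h1
        · exact h
      simp [h1, h2]
  · intro a ha
    simp only [Finset.mem_union, not_or] at ha
    simp [pat, ha.1, ha.2]

theorem pat_eq {P N : Finset V} (h : Disjoint P N) (v : V) :
    pat P N v = (if v ∈ P then 1 else 0) - (if v ∈ N then 1 else 0) := by
  unfold pat
  by_cases h1 : v ∈ P
  · have h2 : v ∉ N := fun h2 => Finset.disjoint_left.1 h h1 h2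
    simp [h1, h2]
  · by_cases h2 : v ∈ N <;> simp [h1, h2]

theorem sum_pat_mul {P N : Finset V} (h : Disjoint P N) (f : V → ℤ) :
    ∑ v, f v * pat P N v = ∑ v ∈ P, f v - ∑ v ∈ N, f v := by
  simp only [pat_eq h, mul_sub, Finset.sum_sub_distrib, mul_ite, mul_one, mul_zero]
  simp [Finset.sum_ite_mem]

theorem S_pat {P N : Finset V} (h : Disjoint P N) (d : V → ℤ) :
    S d (pat P N) = ∑ v ∈ P, d v - ∑ v ∈ N, d v := sum_pat_mul h d

theorem sum_pat {P N : Finset V} (h : Disjoint P N) :
    ∑ v, pat P N v = (P.card : ℤ) - N.card := by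
  have := sum_pat_mul h (fun _ => (1 : ℤ))
  simpa using this

theorem L_pat {P N : Finset V} (h : Disjoint P N) (A : V → V → ℤ) (v : V) :
    L A (pat P N) v = ∑ w ∈ P, A v w - ∑ w ∈ N, A v w := sum_pat_mul h (A v)

theorem Q_pat {P N : Finset V} (h : Disjoint P N) (A : V → V → ℤ) :
    Q A (pat P N) = (∑ a ∈ P, ∑ b ∈ P, A a b) - (∑ a ∈ P, ∑ b ∈ N, A a b) -
      (∑ a ∈ N, ∑ b ∈ P, A a b) + ∑ a ∈ N, ∑ b ∈ N, A a b := by
  rw [Q_eq]
  have h1 : ∑ a, pat P N a * L A (pat P N) a = ∑ a, L A (pat P N) a * pat P N a :=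
    Finset.sum_congr rfl fun a _ => mul_comm _ _
  rw [h1, sum_pat_mul h]
  simp only [L_pat h, Finset.sum_sub_distrib]
  ring

/-- edges inside a set, twice -/
theorem inside_le {A : V → V → ℤ} {j : ℤ} (hG : Gr A j) (P : Finset V) :
    ∑ a ∈ P, ∑ b ∈ P, A a b ≤ (P.card : ℤ) * (P.card - 1) := by
  have h1 : ∀ a ∈ P, ∑ b ∈ P, A a b ≤ (P.card : ℤ) - 1 := by
    intro a ha
    rw [← Finset.sum_erase_add _ _ ha, hG.diag, add_zero]
    calc ∑ b ∈ P.erase a, A a b ≤ ∑ _b ∈ P.erase a, (1 : ℤ) :=
          Finset.sum_le_sum fun b _ => hG.le_one a b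
      _ = (P.card : ℤ) - 1 := by
          rw [Finset.sum_const, Finset.card_erase_of_mem ha]
          have : 1 ≤ P.card := Finset.card_pos.2 ⟨a, ha⟩
          simp only [nsmul_eq_mul, mul_one]
          push_cast [this]; ring
  calc ∑ a ∈ P, ∑ b ∈ P, A a b ≤ ∑ _a ∈ P, ((P.card : ℤ) - 1) := Finset.sum_le_sum h1
    _ = (P.card : ℤ) * (P.card - 1) := by
        rw [Finset.sum_const]; simp only [nsmul_eq_mul]

theorem cross_nonneg {A : V → V → ℤ} {j : ℤ} (hG : Gr A j) (P N : Finset V) :
    0 ≤ ∑ a ∈ P, ∑ b ∈ N, A a b :=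
  Finset.sum_nonneg fun a _ => Finset.sum_nonneg fun b _ => hG.nonneg a b

theorem Q_pat_le {A : V → V → ℤ} {j : ℤ} (hG : Gr A j) {P N : Finset V} (h : Disjoint P N) :
    Q A (pat P N) ≤ (P.card : ℤ) * (P.card - 1) + (N.card : ℤ) * (N.card - 1) := by
  rw [Q_pat h]
  have h1 := inside_le hG P
  have h2 := inside_le hG N
  have h3 := cross_nonneg hG P N
  have h4 := cross_nonneg hG N P
  linarith

/-- The alternative lemma: fixed pattern plus sorted pairs. -/
theorem alt {A : V → V → ℤ} {j : ℤ} (hG : Gr A j) {t : ℚ} (hbad : Bad A t) {P N : Finset V}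
    (hPN : Disjoint P N) (hcard : |(P.card : ℤ) - N.card| ≤ 1) (l : List (V × V))
    (hnd : (flat l).Nodup) (hdis : ∀ v ∈ flat l, v ∉ P ∪ N)
    (hcov : (P ∪ N) ∪ (flat l).toFinset = Finset.univ) (C : ℚ)
    (h1 : |((∑ v ∈ P, dg A v - ∑ v ∈ N, dg A v : ℤ) : ℚ)| ≤ C)
    (h2 : ∀ e ∈ l, |(dg A e.1 : ℚ) - dg A e.2| ≤ C)
    (h3 : |((∑ v ∈ P, dg A v - ∑ v ∈ N, dg A v : ℤ) : ℚ)| + (gaps (dg A) l).sum ≤ 2 * C) :
    2 * t < (P.card : ℚ) * (P.card - 1) + (N.card : ℚ) * (N.card - 1) + 2 * C := by
  obtain ⟨x, hx1, hx2, hx3⟩ := greedy_Ev A hG.symm hG.diag hG.nonneg (dg A) l (P ∪ N) (pat P N)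
    (St_pat hPN) hnd hdis
  rw [hcov] at hx1
  have h4 := hbad x hx1 (by rw [hx2, sum_pat hPN]; exact hcard)
  rw [S_pat hPN] at hx3
  have h5 := Ev_le (gaps (dg A) l) ((∑ v ∈ P, dg A v - ∑ v ∈ N, dg A v : ℤ) : ℚ) C
    (gaps_nonneg _ _) h1 (by
      intro a ha
      simp only [gaps, List.mem_map] at ha
      obtain ⟨e, he, rfl⟩ := ha
      exact h2 e he) h3
  have h6 : (Q A (pat P N) : ℚ) ≤ (P.card : ℚ) * (P.card - 1) + (N.card : ℚ) * (N.card - 1) := by
    exact_mod_cast Q_pat_le hG hPN
  linarith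

/-- The pairing lemma: a sorted perfect pairing with small gaps, or an odd separated set. -/
theorem pairing (d : V → ℤ) (g : ℚ) : ∀ (n : ℕ) (R : Finset V), R.card = 2 * n →
    (∃ l : List (V × V), (flat l).Nodup ∧ (flat l).toFinset = R ∧
      (∀ e ∈ l, |(d e.1 : ℚ) - d e.2| ≤ g) ∧
      (∀ lo hi : ℚ, lo ≤ hi → (∀ v ∈ R, lo ≤ d v ∧ (d v : ℚ) ≤ hi) →
        (gaps d l).sum ≤ hi - lo)) ∨
    (∃ H ⊆ R, Odd H.card ∧ ∀ a ∈ H, ∀ b ∈ R \ H, g < (d a : ℚ) - d b) := by
  intro n
  induction n with
  | zero =>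
    intro R hR
    have hR' : R = ∅ := Finset.card_eq_zero.1 (by simpa using hR)
    subst hR'
    left
    exact ⟨[], by simp, by simp, by simp, by intro lo hi h _; simp [gaps]; exact h⟩
  | succ n ih =>
    intro R hR
    have hne : R.Nonempty := Finset.card_pos.1 (by omega)
    obtain ⟨u, huR, hu⟩ := Finset.exists_max_image R d hne
    have hne' : (R.erase u).Nonempty := Finset.card_pos.1 (by
      rw [Finset.card_erase_of_mem huR]; omega)
    obtain ⟨v, hvR, hv⟩ := Finset.exists_max_image (R.erase u) d hne'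
    have hvR' : v ∈ R := Finset.mem_of_mem_erase hvR
    have hvu : v ≠ u := Finset.ne_of_mem_erase hvR
    have huv := hu v hvR'
    have huvq : (d v : ℚ) ≤ d u := by exact_mod_cast huv
    by_cases hg : g < (d u : ℚ) - d v
    · right
      refine ⟨{u}, by simpa using huR, by simp, ?_⟩
      intro a ha b hb
      rw [Finset.mem_singleton] at ha
      subst ha
      have hb' : b ∈ R.erase a := by
        simp only [Finset.mem_sdiff, Finset.mem_singleton] at hb
        simp [hb.1, hb.2]
      have h1 : (d b : ℚ) ≤ d v := by exact_mod_cast hv b hb'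
      linarith
    · push Not at hg
      set R' := (R.erase u).erase v with hR'
      have hcR' : R'.card = 2 * n := by
        rw [hR', Finset.card_erase_of_mem hvR, Finset.card_erase_of_mem huR]; omega
      rcases ih R' hcR' with ⟨l, h1, h2, h3, h4⟩ | ⟨H, h1, h2, h3⟩
      · left
        have hl : ∀ w ∈ flat l, w ∈ R' := by
          intro w hw; rw [← h2]; simpa using hw
        refine ⟨(u, v) :: l, ?_, ?_, ?_, ?_⟩
        · simp only [flat_cons, List.nodup_cons, List.mem_cons, not_or]
          refine ⟨⟨hvu.symm, fun h => ?_⟩, fun h => ?_, h1⟩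
          · have := hl u h; simp [hR'] at this
          · have := hl v h; simp [hR'] at this
        · simp only [flat_cons, List.toFinset_cons, h2, hR']
          rw [Finset.insert_erase hvR, Finset.insert_erase huR]
        · intro e he
          simp only [List.mem_cons] at he
          rcases he with rfl | he
          · simp only
            rw [abs_of_nonneg (by linarith)]; exact hg
          · exact h3 e he
        · intro lo hi hlohi hb
          have h5 : gaps d ((u, v) :: l) = |(d u : ℚ) - d v| :: gaps d l := rfl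
          rw [h5, List.sum_cons, abs_of_nonneg (by linarith)]
          have h6 := hb u huR
          have h7 := hb v hvR'
          have h8 := h4 lo (d v) h7.1 (fun w hw => by
            have hw' : w ∈ R.erase u := Finset.mem_of_mem_erase hw
            refine ⟨(hb w (Finset.mem_of_mem_erase hw')).1, ?_⟩
            exact_mod_cast hv w hw')
          linarith [h6.2]
      · right
        have huH : u ∉ H := fun h => by have := h1 h; simp [hR'] at this
        have hvH : v ∉ H := fun h => by have := h1 h; simp [hR'] at this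
        have hHne : H.Nonempty := by
          rw [← Finset.card_pos]; exact h2.pos
        obtain ⟨w, hw⟩ := hHne
        refine ⟨insert u (insert v H), ?_, ?_, ?_⟩
        · intro z hz
          simp only [Finset.mem_insert] at hz
          rcases hz with rfl | rfl | hz
          · exact huR
          · exact hvR'
          · exact Finset.mem_of_mem_erase (Finset.mem_of_mem_erase (h1 hz))
        · rw [Finset.card_insert_of_notMem, Finset.card_insert_of_notMem hvH]
          · obtain ⟨k, hk⟩ := h2; exact ⟨k + 1, by omega⟩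
          · simp [hvu.symm, huH]
        · intro a ha b hb
          simp only [Finset.mem_sdiff, Finset.mem_insert, not_or] at hb
          have hbR' : b ∈ R' \ H := by
            simp only [hR', Finset.mem_sdiff, Finset.mem_erase]
            exact ⟨⟨hb.2.2.1, hb.2.1, hb.1⟩, hb.2.2.2⟩
          have hwR' := h1 hw
          have hwu : w ∈ R.erase u := Finset.mem_of_mem_erase hwR'
          have h5 := h3 w hw b hbR'
          have h6 : (d w : ℚ) ≤ d v := by exact_mod_cast hv w hwu
          simp only [Finset.mem_insert] at ha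
          rcases ha with rfl | rfl | ha
          · linarith
          · linarith
          · exact h3 a ha b hbR'

/-- Sorted perfect pairing without gap condition. -/
theorem pairing' (d : V → ℤ) (n : ℕ) (R : Finset V) (hR : R.card = 2 * n) :
    ∃ l : List (V × V), (flat l).Nodup ∧ (flat l).toFinset = R ∧
      (∀ lo hi : ℚ, lo ≤ hi → (∀ v ∈ R, lo ≤ d v ∧ (d v : ℚ) ≤ hi) →
        (gaps d l).sum ≤ hi - lo) := by
  rcases R.eq_empty_or_nonempty with rfl | hne
  · exact ⟨[], by simp, by simp, by intro lo hi h _; simp [gaps]; exact h⟩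
  · obtain ⟨u, hu, hu'⟩ := Finset.exists_max_image R d hne
    obtain ⟨w, hw, hw'⟩ := Finset.exists_min_image R d hne
    rcases pairing d ((d u : ℚ) - d w) n R hR with ⟨l, h1, h2, -, h4⟩ | ⟨H, h1, h2, h3⟩
    · exact ⟨l, h1, h2, h4⟩
    · exfalso
      obtain ⟨a, ha⟩ : H.Nonempty := by rw [← Finset.card_pos]; exact h2.pos
      have : (R \ H).Nonempty := by
        rw [← Finset.card_pos, Finset.card_sdiff_of_subset h1]
        have := Finset.card_le_card h1
        obtain ⟨k, hk⟩ := h2
        omega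
      obtain ⟨b, hb⟩ := this
      have h5 := h3 a ha b hb
      have h6 : (d a : ℚ) ≤ d u := by exact_mod_cast hu' a (h1 ha)
      have h7 : (d w : ℚ) ≤ d b := by exact_mod_cast hw' b (Finset.mem_sdiff.1 hb).1
      linarith

end Pool.Agent.Helper60.Bis
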