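import Pool.Agent.Helper60.Bis.Conf

set_option linter.unusedSectionVars false

/-!
# Case 1: add the two inequalities for `pattern + z ± P`
-/

namespace Pool.Agent.Helper60.Bis

open Finset Pool.Agent.Helper29.Bisect

variable {V : Type*} [Fintype V] [DecidableEq V]

theorem conf_sum' {h : V} {H N B : Finset V} (C : Conf h H N B) (f : V → ℤ) :
    ∑ v, f v = f h + ∑ v ∈ H, f v + ∑ v ∈ N, f v + ∑ v ∈ B, f v := by
  have hu : (Finset.univ : Finset V) = insert h (H ∪ (N ∪ B)) := by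
    ext v
    simp only [Finset.mem_univ, Finset.mem_insert, Finset.mem_union, true_iff]
    exact C.cov v
  have h1 : h ∉ H ∪ (N ∪ B) := by
    simp only [Finset.mem_union, not_or]
    exact ⟨C.hH, C.hN, C.hB⟩
  rw [hu, Finset.sum_insert h1, Finset.sum_union (by
    rw [Finset.disjoint_union_right]; exact ⟨C.HN, C.HB⟩), Finset.sum_union C.NB]
  ring

theorem sum_St {B : Finset V} {z : V → ℤ} (hz : St B z) (f : V → ℤ) :
    ∑ v, z v * f v = ∑ v ∈ B, z v * f v := by
  symm
  apply Finset.sum_subset (Finset.subset_univ _)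
  intro v _ hv
  rw [hz.off v hv, zero_mul]

theorem sum_St' {B : Finset V} {z : V → ℤ} (hz : St B z) : ∑ v, z v = ∑ v ∈ B, z v := by
  have := sum_St hz (fun _ => 1)
  simpa using this

/-- `∑_B (1 + z) f ≤ |B| c` etc. -/
theorem sum_one_add {B : Finset V} {z : V → ℤ} (hz : St B z) (hz0 : ∑ v, z v = 0) :
    ∑ v ∈ B, (1 + z v) = B.card := by
  rw [Finset.sum_add_distrib, ← sum_St' hz, hz0]
  simp

theorem one_add_nonneg {B : Finset V} {z : V → ℤ} (hz : St B z) (v : V) (hv : v ∈ B) :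
    0 ≤ 1 + z v := by
  rcases hz.on v hv with h | h <;> simp [h]

theorem abs_add_abs_sub_le {a b μ : ℚ} (ha : |a| ≤ μ) (hb : |b| ≤ μ) :
    |a + b| + |a - b| ≤ 2 * μ := by
  have h1 := abs_le.1 ha
  have h2 := abs_le.1 hb
  rcases abs_cases (a + b) with h | h <;> rcases abs_cases (a - b) with h' | h' <;>
    rw [h.1, h'.1] <;> linarith

theorem case1 {A : V → V → ℤ} {j : ℤ} (hG : Gr A j) {t : ℚ} (hbad : Bad A t) {h : V}
    {H N B : Finset V} (C : Conf h H N B) (hN : N.card ≤ 2) (P z : V → ℤ)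
    (hP : St H P) (hP0 : ∑ v, P v = 0) (hz : St B z) (hz0 : ∑ v, z v = 0) (hQ : Q A z ≤ 0)
    (μ : ℚ) (h1 : |(SA A h N : ℚ) + S (dg A) z| ≤ μ) (h2 : |(S (dg A) P : ℚ)| ≤ μ) :
    t < (B.card : ℚ) - SA A h N + H.card + (Q A P : ℚ) / 2 + μ ∧
    2 * (dg A h : ℚ) + (∑ v ∈ H, dg A v : ℤ) + B.card * (j - 1) ≤ M2 A + μ := by
  have hdis : Disjoint ({h} : Finset V) N := by
    rw [Finset.disjoint_singleton_left]; exact C.hN
  set w : V → ℤ := pat {h} N + z with hw
  -- values of `w`
  have hSw : S (dg A) w = SA A h N + S (dg A) z := by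
    rw [hw, S_add, S_pat hdis, Finset.sum_singleton, SA]
  have hsumw : ∑ v, w v = 1 - (N.card : ℤ) := by
    rw [hw]
    simp only [Pi.add_apply, Finset.sum_add_distrib, hz0, add_zero]
    rw [sum_pat hdis]; simp
  have hNP : ∀ s : ℤ, s = 1 ∨ s = -1 → St Finset.univ (w + s • P) := by
    intro s hs
    constructor
    · intro a _
      have hpat := St_pat hdis
      rcases C.cov a with ha | ha | ha | ha
      · subst ha
        have e1 := hz.off _ C.hB
        have e2 := hP.off _ C.hH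
        have e3 := hpat.on a (by simp)
        simpa [hw, e1, e2] using e3
      · have e1 := hz.off a (fun hb => Finset.disjoint_left.1 C.HB ha hb)
        have e2 := hP.on a ha
        have e3 := hpat.off a (by
          simp only [Finset.mem_union, Finset.mem_singleton, not_or]
          exact ⟨fun e => C.hH (e ▸ ha), fun hb => Finset.disjoint_left.1 C.HN ha hb⟩)
        rcases hs with rfl | rfl <;> rcases e2 with e2 | e2 <;> simp [hw, e1, e2, e3]
      · have e1 := hz.off a (fun hb => Finset.disjoint_left.1 C.NB ha hb)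
        have e2 := hP.off a (fun hb => Finset.disjoint_left.1 C.HN hb ha)
        have e3 := hpat.on a (by simp [ha])
        simpa [hw, e1, e2] using e3
      · have e1 := hz.on a ha
        have e2 := hP.off a (fun hb => Finset.disjoint_left.1 C.HB hb ha)
        have e3 := hpat.off a (by
          simp only [Finset.mem_union, Finset.mem_singleton, not_or]
          exact ⟨fun e => C.hB (e ▸ ha), fun hb => Finset.disjoint_left.1 C.NB hb ha⟩)
        simpa [hw, e2, e3] using e1
    · intro a ha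
      exact absurd (Finset.mem_univ a) ha
  have hsumP : ∀ s : ℤ, ∑ v, (w + s • P) v = 1 - (N.card : ℤ) := by
    intro s
    simp only [Pi.add_apply, Pi.smul_apply, smul_eq_mul, Finset.sum_add_distrib,
      ← Finset.mul_sum, hP0, hsumw]
    ring
  have hbal : |(1 : ℤ) - N.card| ≤ 1 := by
    rw [abs_le]; constructor <;> omega
  have b1 := hbad (w + (1 : ℤ) • P) (hNP 1 (Or.inl rfl)) (by rw [hsumP]; exact hbal)
  have b2 := hbad (w + (-1 : ℤ) • P) (hNP (-1) (Or.inr rfl)) (by rw [hsumP]; exact hbal)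
  have hQs : ∀ s : ℤ, s = 1 ∨ s = -1 → Q A (w + s • P) =
      Q A w + 2 * s * ∑ a, P a * L A w a + Q A P := by
    intro s hs
    rw [Q_add A hG.symm]
    have e1 : ∑ a, (s • P) a * L A w a = s * ∑ a, P a * L A w a := by
      rw [Finset.mul_sum]
      exact Finset.sum_congr rfl fun a _ => by simp only [Pi.smul_apply, smul_eq_mul]; ring
    have e2 : Q A (s • P) = Q A P := by
      unfold Q
      refine Finset.sum_congr rfl fun a _ => Finset.sum_congr rfl fun b _ => ?_
      simp only [Pi.smul_apply, smul_eq_mul]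
      rcases hs with rfl | rfl <;> ring
    rw [e1, e2]; ring
  have hSs : ∀ s : ℤ, S (dg A) (w + s • P) = S (dg A) w + s * S (dg A) P := by
    intro s
    rw [S_add]
    congr 1
    unfold S
    rw [Finset.mul_sum]
    exact Finset.sum_congr rfl fun a _ => by simp only [Pi.smul_apply, smul_eq_mul]; ring
  rw [hQs 1 (Or.inl rfl), hSs, hSw] at b1
  rw [hQs (-1) (Or.inr rfl), hSs, hSw] at b2
  push_cast at b1 b2
  have habs := abs_add_abs_sub_le h1 h2
  have r1 : (SA A h N : ℚ) + S (dg A) z + 1 * S (dg A) P =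
      (SA A h N : ℚ) + S (dg A) z + S (dg A) P := by ring
  have r2 : (SA A h N : ℚ) + S (dg A) z + -1 * S (dg A) P =
      (SA A h N : ℚ) + S (dg A) z - S (dg A) P := by ring
  rw [r1] at b1
  rw [r2] at b2
  have key1 : 2 * t < (Q A w : ℚ) + Q A P + 2 * μ := by linarith
  -- bound on `Q w`
  have hcross : ∑ a, z a * L A (pat {h} N) a ≤
      (B.card : ℤ) - ∑ v ∈ B, A v h + ∑ v ∈ B, ∑ u ∈ N, A v u := by
    rw [sum_St hz]
    have e1 : ∀ a ∈ B, z a * L A (pat {h} N) a ≤ (1 + z a) - A a h + ∑ u ∈ N, A a u := by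
      intro a ha
      rw [L_pat hdis, Finset.sum_singleton]
      have e2 := hG.nonneg a h
      have e3 := hG.le_one a h
      have e4 : 0 ≤ ∑ u ∈ N, A a u := Finset.sum_nonneg fun u _ => hG.nonneg a u
      rcases hz.on a ha with e5 | e5 <;> rw [e5] <;> linarith
    refine (Finset.sum_le_sum e1).trans ?_
    rw [Finset.sum_add_distrib, Finset.sum_sub_distrib, sum_one_add hz hz0]
  have hQpat : Q A (pat {h} N) = -2 * ∑ u ∈ N, A h u + ∑ a ∈ N, ∑ b ∈ N, A a b := by
    rw [Q_pat hdis]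
    simp only [Finset.sum_singleton, hG.diag]
    have : ∑ a ∈ N, A a h = ∑ u ∈ N, A h u := Finset.sum_congr rfl fun a _ => hG.symm a h
    rw [this]; ring
  have hQw : Q A w = Q A (pat {h} N) + 2 * ∑ a, z a * L A (pat {h} N) a + Q A z := by
    rw [hw, Q_add A hG.symm]
  -- degrees
  have hdh : dg A h = ∑ v ∈ H, A h v + ∑ v ∈ N, A h v + ∑ v ∈ B, A h v := by
    unfold dg
    rw [conf_sum' C, hG.diag, zero_add]
  have hdN : ∑ u ∈ N, dg A u = ∑ u ∈ N, A h u + ∑ u ∈ N, ∑ v ∈ H, A u v +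
      ∑ u ∈ N, ∑ v ∈ N, A u v + ∑ u ∈ N, ∑ v ∈ B, A u v := by
    have e1 : ∀ u ∈ N, dg A u = A u h + ∑ v ∈ H, A u v + ∑ v ∈ N, A u v + ∑ v ∈ B, A u v := by
      intro u _
      unfold dg
      exact conf_sum' C _
    rw [Finset.sum_congr rfl e1]
    simp only [Finset.sum_add_distrib]
    have : ∑ a ∈ N, A a h = ∑ u ∈ N, A h u := Finset.sum_congr rfl fun a _ => hG.symm a h
    rw [this]
  have hBN : ∑ v ∈ B, ∑ u ∈ N, A v u = ∑ u ∈ N, ∑ v ∈ B, A u v := by
    rw [Finset.sum_comm]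
    exact Finset.sum_congr rfl fun u _ => Finset.sum_congr rfl fun v _ => hG.symm v u
  have hBh : ∑ v ∈ B, A v h = ∑ v ∈ B, A h v := Finset.sum_congr rfl fun v _ => hG.symm v h
  have hHle : ∑ v ∈ H, A h v ≤ H.card := by
    calc ∑ v ∈ H, A h v ≤ ∑ _v ∈ H, (1 : ℤ) := Finset.sum_le_sum fun v _ => hG.le_one h v
      _ = H.card := by simp
  have n1 : 0 ≤ ∑ u ∈ N, ∑ v ∈ H, A u v := cross_nonneg hG N H
  have n2 : 0 ≤ ∑ u ∈ N, ∑ v ∈ N, A u v := cross_nonneg hG N N
  have n3 : 0 ≤ ∑ u ∈ N, A h u := Finset.sum_nonneg fun u _ => hG.nonneg h u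
  have hQwle : Q A w ≤ 2 * ((B.card : ℤ) - SA A h N + H.card) := by
    rw [hQw, hQpat, SA, hdh, hdN]
    rw [hBN, hBh] at hcross
    linarith
  constructor
  · have : (Q A w : ℚ) ≤ 2 * ((B.card : ℚ) - SA A h N + H.card) := by exact_mod_cast hQwle
    linarith
  · have hM : M2 A = dg A h + ∑ v ∈ H, dg A v + ∑ v ∈ N, dg A v + ∑ v ∈ B, dg A v := by
      unfold M2
      exact conf_sum' C _
    have hSz : S (dg A) z = ∑ v ∈ B, z v * dg A v := by
      unfold S
      rw [← sum_St hz]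
      exact Finset.sum_congr rfl fun v _ => mul_comm _ _
    have hge : (B.card : ℤ) * (j - 1) ≤ ∑ v ∈ B, dg A v + ∑ v ∈ B, z v * dg A v := by
      calc (B.card : ℤ) * (j - 1) = ∑ v ∈ B, (1 + z v) * (j - 1) := by
            rw [← Finset.sum_mul, sum_one_add hz hz0]
        _ ≤ ∑ v ∈ B, (1 + z v) * dg A v :=
            Finset.sum_le_sum fun v hv =>
              mul_le_mul_of_nonneg_left (hG.deg v) (one_add_nonneg hz v hv)
        _ = ∑ v ∈ B, dg A v + ∑ v ∈ B, z v * dg A v := by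
            rw [← Finset.sum_add_distrib]
            exact Finset.sum_congr rfl fun v _ => by ring
    have hZ : 2 * dg A h + ∑ v ∈ H, dg A v + B.card * (j - 1) ≤
        M2 A + (SA A h N + S (dg A) z) := by
      rw [hM, SA, hSz]
      linarith
    have hZq : 2 * (dg A h : ℚ) + (∑ v ∈ H, dg A v : ℤ) + B.card * (j - 1) ≤
        M2 A + ((SA A h N : ℚ) + S (dg A) z) := by exact_mod_cast hZ
    have := (abs_le.1 h1).2
    linarith

end Pool.Agent.Helper60.Bis
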