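import Mathlib

/-!
# Final arithmetic of the two discharging cases
-/

namespace Pool.Agent.Helper60.Bis

private theorem f1 (i j : ℚ) (hi : 1 ≤ i) (hi2 : i ≤ j - 2) :
    -3 * i * j + 2 * j - 2 * i + i ^ 2 ≤ 0 := by nlinarith

private theorem f2 (i j : ℚ) (hi : 1 ≤ i) (hi2 : i ≤ j - 2) :
    0 ≤ i * ((j - i) ^ 2 + 2 * (j - i)) := by
  apply mul_nonneg (by linarith)
  nlinarith

private theorem f3 (i j : ℚ) (hi : 1 ≤ i) (hi2 : i ≤ j - 2) :
    0 ≤ i * ((j + i) * (j - 1) - 2 * (i - 1)) := by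
  apply mul_nonneg (by linarith)
  nlinarith

private theorem f4 (i t G U : ℚ) (hi : 1 ≤ i) (h1 : 2 * t < G + 2 * U) (h2 : 2 * t < G - 2 * U) :
    (i + 1) * (2 * t) < (i + 1) * G + 2 * U := by
  nlinarith

private theorem f5 (i j : ℚ) (hi : 1 ≤ i) (hi2 : i ≤ j - 2) :
    4 * j - 2 * (i + 1) * j - 2 * (i + 1) ≤ 0 := by nlinarith

private theorem f6 (i j : ℚ) (hj : 5 ≤ j) (hi : 1 ≤ i) :
    0 ≤ 2 * (i + 1) * (j - 1) ^ 2 - 2 * j * (i - 1) := by
  have : j ≤ (j - 1) ^ 2 := by nlinarith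
  nlinarith [mul_nonneg (show 0 ≤ i + 1 by linarith) (show 0 ≤ (j - 1) ^ 2 - j by linarith)]

theorem fin2a (j i n t QP hH HH hN HN NN bX bY cX cY eX eY rX rY aX aY : ℚ)
    (hj : 5 ≤ j) (hi : 1 ≤ i) (hi2 : i ≤ j - 2)
    (hM : 2 * j * t = (hH + hN + (bX + bY)) + (hH + HH + HN + (cX + cY)) +
      (hN + HN + NN + (eX + eY)) + (bX + bY + (cX + cY) + (eX + eY) + (rX + rY)))
    (hT : 2 * j * (bX + bY + (cX + cY)) - 2 * i * j * (eX + eY) -
      2 * i * (bX + bY + (cX + cY) + (eX + eY)) - i * (rX + rY) + i * j * (aX + aY) ≤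
      -(i * (j + i) * (eX + eY)))
    (h1 : 2 * t < -2 * hN + NN + QP + (aX + aY) +
      2 * ((hH + hN + (bX + bY)) - (hN + HN + NN + (eX + eY))))
    (hmin : i * (hH + hN + (bX + bY)) ≤ (hH + hN + (bX + bY)) + (hH + HH + HN + (cX + cY)))
    (b1 : hH ≤ i - 1) (b2 : HH ≤ (i - 1) * (i - 2))
    (b3 : 0 ≤ hN) (b4 : 0 ≤ HN) (b5 : HN ≤ (i - 1) * n) (b6 : 0 ≤ NN) (b7 : NN ≤ n * (n - 1))
    (b8 : QP ≤ i - 1) (b9 : n * (j - 1) ≤ hN + HN + NN + (eX + eY))
    (hn : (n = 0 ∧ i = 1) ∨ n = 1 ∨ n = 2) (hi1 : i = 1 ∨ 3 ≤ i) : False := by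
  have hj0 : 0 < j := by linarith
  have hij : 0 < i * j := by positivity
  have k1 : i * j * (2 * t) < i * j * (-2 * hN + NN + QP + (aX + aY) +
      2 * ((hH + hN + (bX + bY)) - (hN + HN + NN + (eX + eY)))) :=
    mul_lt_mul_of_pos_left h1 hij
  have k2 : 2 * j * (i * (hH + hN + (bX + bY))) ≤
      2 * j * ((hH + hN + (bX + bY)) + (hH + HH + HN + (cX + cY))) :=
    mul_le_mul_of_nonneg_left hmin (by linarith)
  have k3 : i * (2 * j * t) = i * ((hH + hN + (bX + bY)) + (hH + HH + HN + (cX + cY)) +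
      (hN + HN + NN + (eX + eY)) + (bX + bY + (cX + cY) + (eX + eY) + (rX + rY))) := by rw [hM]
  have k4 : i * (j + i) * (n * (j - 1)) ≤ i * (j + i) * (hN + HN + NN + (eX + eY)) :=
    mul_le_mul_of_nonneg_left b9 (by positivity)
  -- constants
  have k5 : 0 < i * j * QP + hH * (4 * j - 2 * i) + HH * (2 * j - i) +
      hN * (-3 * i * j + 2 * j - 2 * i + i ^ 2) + HN * ((i - 2) * (i - j)) + NN * (i * (i - 1)) -
      i * (j + i) * (n * (j - 1)) := by linarith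
  have c1 : i * j * QP ≤ i * j * (i - 1) := mul_le_mul_of_nonneg_left b8 hij.le
  have c2 : hH * (4 * j - 2 * i) ≤ (i - 1) * (4 * j - 2 * i) :=
    mul_le_mul_of_nonneg_right b1 (by linarith)
  have c3 : HH * (2 * j - i) ≤ (i - 1) * (i - 2) * (2 * j - i) :=
    mul_le_mul_of_nonneg_right b2 (by linarith)
  have c4 : hN * (-3 * i * j + 2 * j - 2 * i + i ^ 2) ≤ 0 := by
    exact mul_nonpos_of_nonneg_of_nonpos b3 (f1 i j hi hi2)
  have c5 : HN * ((i - 2) * (i - j)) ≤ 0 := by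
    rcases hi1 with h | h
    · subst h
      have : HN = 0 := by
        apply le_antisymm _ b4
        simpa using b5
      rw [this]; simp
    · apply mul_nonpos_of_nonneg_of_nonpos b4
      apply mul_nonpos_of_nonneg_of_nonpos <;> linarith
  have c6 : NN * (i * (i - 1)) ≤ n * (n - 1) * (i * (i - 1)) :=
    mul_le_mul_of_nonneg_right b7 (mul_nonneg (by linarith) (by linarith))
  rcases hn with ⟨h0, h0'⟩ | h0 | h0
  · subst h0 h0'
    linarith
  · subst h0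
    have := f2 i j hi hi2
    linarith
  · subst h0
    have h3 := f2 i j hi hi2
    have h4 := f3 i j hi hi2
    linarith

theorem fin2b (j i n t QP hH HH hN HN NN bX bY cX cY eX eY rX rY aX aY : ℚ)
    (hj : 5 ≤ j) (hi : 1 ≤ i) (hi2 : i ≤ j - 2)
    (hM : 2 * j * t = (hH + hN + (bX + bY)) + (hH + HH + HN + (cX + cY)) +
      (hN + HN + NN + (eX + eY)) + (bX + bY + (cX + cY) + (eX + eY) + (rX + rY)))
    (hr : rX - rY = aX - aY)
    (hT : 4 * j * (2 * bX + cX) - 2 * (i + 1) * (bX + bY + (cX + cY) + (eX + eY)) -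
      (i + 1) * (rX + rY) + j * (i + 3) * aX + j * (i - 1) * aY ≤ 0)
    (h1 : 2 * t < -2 * hN + NN + QP + (aX + aY) +
      2 * ((hH + hN + (bX + bY)) - (hN + HN + NN + (eX + eY))) +
      2 * ((bX - eX) - (bY - eY) + ((bX + cX + eX + rX) - (bY + cY + eY + rY))))
    (h2 : 2 * t < -2 * hN + NN + QP + (aX + aY) +
      2 * ((hH + hN + (bX + bY)) - (hN + HN + NN + (eX + eY))) -
      2 * ((bX - eX) - (bY - eY) + ((bX + cX + eX + rX) - (bY + cY + eY + rY))))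
    (hmin : i * (hH + hN + (bX + bY)) ≤ (hH + hN + (bX + bY)) + (hH + HH + HN + (cX + cY)))
    (b1 : hH ≤ i - 1) (b2 : HH ≤ (i - 1) * (i - 2))
    (b3 : 0 ≤ hN) (b4 : 0 ≤ HN) (b5 : HN ≤ (i - 1) * n) (b6 : 0 ≤ NN) (b7 : NN ≤ n * (n - 1))
    (b8 : QP ≤ i - 1) (b9 : n * (j - 1) ≤ hN + HN + NN + (eX + eY))
    (hn : (n = 0 ∧ i = 1) ∨ n = 1 ∨ n = 2) : False := by
  have hj0 : 0 < j := by linarith
  set G := -2 * hN + NN + QP + (aX + aY) +
      2 * ((hH + hN + (bX + bY)) - (hN + HN + NN + (eX + eY))) with hG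
  set U := (bX - eX) - (bY - eY) + ((bX + cX + eX + rX) - (bY + cY + eY + rY)) with hU
  have k1 : j * ((i + 1) * (2 * t)) < j * ((i + 1) * G + 2 * U) := by
    exact mul_lt_mul_of_pos_left (f4 i t G U hi h1 h2) hj0
  have hU' : U = 2 * bX + cX - (2 * bY + cY) + (aX - aY) := by rw [hU]; linarith
  have k2 : 2 * j * (i * (hH + hN + (bX + bY))) ≤
      2 * j * ((hH + hN + (bX + bY)) + (hH + HH + HN + (cX + cY))) :=
    mul_le_mul_of_nonneg_left hmin (by linarith)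
  have k3 : (i + 1) * (2 * j * t) = (i + 1) * ((hH + hN + (bX + bY)) +
      (hH + HH + HN + (cX + cY)) +
      (hN + HN + NN + (eX + eY)) + (bX + bY + (cX + cY) + (eX + eY) + (rX + rY))) := by rw [hM]
  have k4 : 2 * j * (i + 1) * (n * (j - 1)) ≤ 2 * j * (i + 1) * (hN + HN + NN + (eX + eY)) :=
    mul_le_mul_of_nonneg_left b9 (by positivity)
  rw [hU', hG] at k1
  have k5 : 0 < (i + 1) * j * QP + hH * (6 * j - 2 * (i + 1)) + HH * (2 * j - (i + 1)) +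
      hN * (4 * j - 2 * (i + 1) * j - 2 * (i + 1)) + HN * (2 * j - 2 * (i + 1)) +
      NN * ((i + 1) * (j - 1)) - 2 * j * (i + 1) * (n * (j - 1)) := by
    linarith
  have c1 : (i + 1) * j * QP ≤ (i + 1) * j * (i - 1) :=
    mul_le_mul_of_nonneg_left b8 (by positivity)
  have c2 : hH * (6 * j - 2 * (i + 1)) ≤ (i - 1) * (6 * j - 2 * (i + 1)) :=
    mul_le_mul_of_nonneg_right b1 (by linarith)
  have c3 : HH * (2 * j - (i + 1)) ≤ (i - 1) * (i - 2) * (2 * j - (i + 1)) :=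
    mul_le_mul_of_nonneg_right b2 (by linarith)
  have c4 : hN * (4 * j - 2 * (i + 1) * j - 2 * (i + 1)) ≤ 0 := by
    exact mul_nonpos_of_nonneg_of_nonpos b3 (f5 i j hi hi2)
  have c5 : HN * (2 * j - 2 * (i + 1)) ≤ (i - 1) * n * (2 * j - 2 * (i + 1)) :=
    mul_le_mul_of_nonneg_right b5 (by linarith)
  have c6 : NN * ((i + 1) * (j - 1)) ≤ n * (n - 1) * ((i + 1) * (j - 1)) :=
    mul_le_mul_of_nonneg_right b7 (mul_nonneg (by linarith) (by linarith))
  obtain ⟨k, hk⟩ : ∃ k, j = i + 2 + k := ⟨j - i - 2, by ring⟩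
  have hk0 : 0 ≤ k := by linarith
  have hmain : 0 ≤ 2 * (i + 2) * (i + 3) + k * (i ^ 2 + 8 * i + 11) + k ^ 2 * (2 * (i + 1)) := by
    positivity
  rcases hn with ⟨h0, h0'⟩ | h0 | h0
  · subst h0 h0'
    linarith
  · subst h0
    have h3 : 2 * j * (i + 1) * (j - 1) - (i - 1) * (j * (3 * i + 5) - (i + 1) * (i + 2)) =
        2 * (i + 2) * (i + 3) + k * (i ^ 2 + 8 * i + 11) + k ^ 2 * (2 * (i + 1)) := by
      rw [hk]; ring
    linarith
  · subst h0
    have h3 : 2 * j * (i + 1) * (j - 1) - (i - 1) * (j * (3 * i + 5) - (i + 1) * (i + 2)) =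
        2 * (i + 2) * (i + 3) + k * (i ^ 2 + 8 * i + 11) + k ^ 2 * (2 * (i + 1)) := by
      rw [hk]; ring
    have h4 := f6 i j hj hi
    have h5 : 0 ≤ (i - 1) * (i + 1) := mul_nonneg (by linarith) (by linarith)
    linarith

end Pool.Agent.Helper60.Bis
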