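import Mathlib

/-!
# Per-vertex discharging inequalities (pure arithmetic)
-/

namespace Pool.Agent.Helper60.Bis

/-- the data of a vertex of `B`: `b` (adjacent to the hub `h`), `c` (number of other hubs
adjacent), `e` (number of neighbours in `N`), `r` (number of neighbours in `B`), `a` (in minus
out inside `B`), `o` (out). -/
structure VD (i j b c e r a o : ℤ) : Prop where
  b0 : 0 ≤ b
  b1 : b ≤ 1
  c0 : 0 ≤ c
  c1 : c ≤ i - 1
  e0 : 0 ≤ e
  deg : j - 1 ≤ b + c + e + r
  out : r - a = 2 * o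
  o0 : 0 ≤ o
  lo : -r ≤ a

/-- potential of case 2a -/
def pa (i a : ℤ) : ℤ := if a = 0 then i else if a = -1 then 0 else -i

theorem gla_ineq (i j : ℤ) (hj : 5 ≤ j) (hjo : Odd j) (hi : 1 ≤ i) (hi2 : i ≤ j - 2)
    (hio : Odd i) (b c e r a o : ℤ) (h : VD i j b c e r a o) (ha : a ≤ 0) :
    2 * j * (b + c) - 2 * i * j * e - 2 * i * (b + c + e) - i * r + i * j * a ≤
      pa i a * (2 * o) - i * (j + i) * e := by
  obtain ⟨b0, b1, c0, c1, e0, hd, ho, o0, hlo⟩ := h
  have hbc : b + c ≤ i := by linarith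
  set β := b + c with hβ
  clear_value β
  have hoo : 2 * o = r - a := ho.symm
  rw [hoo]
  unfold pa
  split_ifs with h1 h2
  · subst h1
    -- 2 (j - i) β ≤ 2 i r + i e (j + 2 - i)
    by_cases h0 : β + e ≤ i - 1 ∨ 1 ≤ e
    · rcases h0 with h0 | h0
      · have h3 : 0 ≤ (i - 1 - β - e) * (2 * j) := mul_nonneg (by linarith) (by linarith)
        nlinarith [mul_nonneg (show 0 ≤ i by linarith) (show 0 ≤ r - (j - 1 - β - e) by linarith),
          mul_nonneg (mul_nonneg (show 0 ≤ i by linarith) e0) (show 0 ≤ j - i by linarith),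
          mul_nonneg e0 (show 0 ≤ j - i by linarith)]
      · nlinarith [mul_nonneg (show 0 ≤ i by linarith) (show 0 ≤ r - (j - 1 - β - e) by linarith),
          mul_nonneg (mul_nonneg (show 0 ≤ i by linarith) (show 0 ≤ e - 1 by linarith))
            (show 0 ≤ j - i by linarith), mul_nonneg (show 0 ≤ i - β by linarith)
            (show 0 ≤ j by linarith)]
    · push Not at h0
      have he : e = 0 := by omega
      have hb : β = i := by omega
      subst hb he
      -- r even, j - 1 - i odd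
      have h3 : j - β ≤ r := by
        obtain ⟨u, hu⟩ := hjo
        obtain ⟨v, hv⟩ := hio
        omega
      nlinarith [mul_nonneg (show 0 ≤ β by linarith) (show 0 ≤ r - (j - β) by linarith)]
  · subst h2
    nlinarith [mul_nonneg (show 0 ≤ i by linarith) (show 0 ≤ r - (j - 1 - β - e) by linarith),
      mul_nonneg (show 0 ≤ i - β by linarith) (show 0 ≤ 2 * j - i by linarith),
      mul_nonneg (mul_nonneg (show 0 ≤ i by linarith) e0) (show 0 ≤ j - i by linarith),
      mul_nonneg (show 0 ≤ i by linarith) (show 0 ≤ i - 1 by linarith)]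
  · have h3 : a ≤ -2 := by omega
    nlinarith [mul_nonneg (show 0 ≤ i - β by linarith) (show 0 ≤ j - i by linarith),
      mul_nonneg (mul_nonneg (show 0 ≤ i by linarith) e0) (show 0 ≤ j - i by linarith),
      mul_nonneg (mul_nonneg (show 0 ≤ i by linarith) (show 0 ≤ j - 1 by linarith))
        (show 0 ≤ -2 - a by linarith), mul_nonneg (show 0 ≤ i by linarith) e0,
      mul_nonneg (show 0 ≤ i by linarith) (show 0 ≤ i - 1 by linarith)]

/-- Case 2a. -/
theorem gla (i j : ℤ) (hj : 5 ≤ j) (hjo : Odd j) (hi : 1 ≤ i) (hi2 : i ≤ j - 2) (hio : Odd i) :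
    ∃ φ : ℤ → ℚ,
      (∀ a a' : ℤ, a ≤ 0 → a' ≤ 0 → a + a' ≤ -2 → φ a + φ a' ≤ 0) ∧
      (∀ b c e r a o : ℤ, VD i j b c e r a o → a ≤ 0 →
        ((2 * j * (b + c) - 2 * i * j * e - 2 * i * (b + c + e) - i * r + i * j * a : ℤ) : ℚ) ≤
          φ a * (2 * o) - i * (j + i) * e) := by
  refine ⟨fun a => (pa i a : ℚ), ?_, ?_⟩
  · intro a a' ha ha' haa
    have : pa i a + pa i a' ≤ 0 := by
      unfold pa
      split_ifs <;> omega
    dsimp only
    exact_mod_cast this
  · intro b c e r a o h ha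
    have := gla_ineq i j hj hjo hi hi2 hio b c e r a o h ha
    dsimp only
    exact_mod_cast this

/-! ### Case 2b, one hub -/

/-- potential of case 2b, `i = 1`, `β = 1`, multiplied by `j - 1` -/
def p1X (j a : ℤ) : ℤ := if a = -1 then -(2 * (j - 3)) else -(2 * (j - 1))

/-- potential of case 2b, `i = 1`, `β = 1`, multiplied by `j - 1` -/
def p1Y (j a : ℤ) : ℤ := if a = 1 then 2 * (j - 1) else if a = 0 then 2 * (j - 2) else 2 * (j - 3)

theorem glb1X (j : ℤ) (hj : 5 ≤ j) (b c e r a o : ℤ) (h : VD 1 j b c e r a o) (ha : a ≤ -1) :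
    (j - 1) * (4 * j * (2 * b + c) - 2 * (1 + 1) * (b + c + e) - (1 + 1) * r + j * (1 + 3) * a)
      ≤ (j - 1) * (4 * j - 6) + p1X j a * (2 * o) := by
  obtain ⟨b0, b1, c0, c1, e0, hd, ho, o0, hlo⟩ := h
  have hc : c = 0 := by omega
  subst hc
  have hoo : 2 * o = r - a := ho.symm
  rw [hoo]
  unfold p1X
  split_ifs with h1
  · subst h1
    rcases (show b = 0 ∨ b = 1 by omega) with h | h <;> subst h
    · nlinarith [mul_nonneg (show 0 ≤ j - 1 by linarith) e0, mul_nonneg (show 0 ≤ j - 1 by linarith) (show 0 ≤ j by linarith)]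
    · nlinarith [mul_nonneg (show 0 ≤ j - 1 by linarith) e0]
  · have h2 : a ≤ -2 := by omega
    nlinarith [mul_nonneg (show 0 ≤ j - 1 by linarith) e0,
      mul_nonneg (mul_nonneg (show 0 ≤ j - 1 by linarith) (show 0 ≤ 4 * j - 2 by linarith)) (show 0 ≤ -2 - a by linarith),
      mul_nonneg (mul_nonneg (show 0 ≤ j - 1 by linarith) (show 0 ≤ 8 * j - 4 by linarith)) (show 0 ≤ 1 - b by linarith)]

theorem glb1Y (j : ℤ) (hj : 5 ≤ j) (hjo : Odd j) (b c e r a o : ℤ) (h : VD 1 j b c e r a o)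
    (ha : a ≤ 1) :
    (j - 1) * (-2 * (1 + 1) * (b + c + e) - (1 + 1) * r + j * (1 - 1) * a)
      ≤ -((j - 1) * (4 * j - 6)) + p1Y j a * (2 * o) := by
  obtain ⟨b0, b1, c0, c1, e0, hd, ho, o0, hlo⟩ := h
  have hc : c = 0 := by omega
  subst hc
  have hoo : 2 * o = r - a := ho.symm
  rw [hoo]
  unfold p1Y
  split_ifs with h1 h2
  · subst h1
    nlinarith [mul_nonneg (show 0 ≤ j - 1 by linarith) (show 0 ≤ b + 0 + e + r - (j - 1) by linarith)]
  · subst h2
    nlinarith [mul_nonneg (show 0 ≤ 2 * j - 3 by linarith) (show 0 ≤ b + 0 + e + r - (j - 1) by linarith)]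
  · have h3 : a ≤ -1 := by omega
    rcases (show 1 ≤ b + e ∨ j ≤ r ∨ a ≤ -2 by
      by_contra hcon
      push Not at hcon
      obtain ⟨u, hu⟩ := hjo
      omega) with h4 | h4 | h4
    · nlinarith [mul_nonneg (show 0 ≤ j - 2 by linarith) (show 0 ≤ b + 0 + e + r - (j - 1) by linarith),
        mul_nonneg (show 0 ≤ j - 3 by linarith) (show 0 ≤ -1 - a by linarith)]
    · nlinarith [mul_nonneg (show 0 ≤ j - 2 by linarith) (show 0 ≤ r - j by linarith),
        mul_nonneg (show 0 ≤ j - 3 by linarith) (show 0 ≤ -1 - a by linarith),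
        mul_nonneg (show 0 ≤ j - 1 by linarith) (show 0 ≤ b + e by linarith)]
    · nlinarith [mul_nonneg (show 0 ≤ j - 2 by linarith) (show 0 ≤ b + 0 + e + r - (j - 1) by linarith),
        mul_nonneg (show 0 ≤ j - 3 by linarith) (show 0 ≤ -2 - a by linarith)]

/-! ### Case 2b, at least three hubs, `β = 1` -/

def p3X (i a : ℤ) : ℤ := if a = -1 then i - 1 else if a = -2 then -1 else -(i + 1)

def p3Y (i a : ℤ) : ℤ := if a = 1 then i + 1 else if a = 0 then 1 else -(i - 1)

theorem glb3X (i j : ℤ) (hj : 5 ≤ j) (hjo : Odd j) (hi : 3 ≤ i) (hi2 : i ≤ j - 2) (hio : Odd i)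
    (b c e r a o : ℤ) (h : VD i j b c e r a o) (ha : a ≤ -1) :
    4 * j * (2 * b + c) - 2 * (i + 1) * (b + c + e) - (i + 1) * r + j * (i + 3) * a
      ≤ ((j - 1) * (i + 1) + 2) + p3X i a * (2 * o) := by
  obtain ⟨b0, b1, c0, c1, e0, hd, ho, o0, hlo⟩ := h
  have hoo : 2 * o = r - a := ho.symm
  rw [hoo]
  have k1 : 0 ≤ 1 - b := by linarith
  have k2 : 0 ≤ i - 1 - c := by linarith
  have k3 : 0 ≤ b + c + e + r - (j - 1) := by linarith
  have k4 : 0 ≤ j - 2 - i := by linarith
  unfold p3X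
  split_ifs with h1 h2
  · subst h1
    nlinarith [mul_nonneg (show 0 ≤ 8 * j - 2 by linarith) k1,
      mul_nonneg (show 0 ≤ 4 * j - 2 by linarith) k2,
      mul_nonneg (show 0 ≤ 2 * i by linarith) k3]
  · subst h2
    nlinarith [mul_nonneg (show 0 ≤ 8 * j by linarith) k1, mul_nonneg (show 0 ≤ 4 * j by linarith) k2,
      mul_nonneg (show 0 ≤ i by linarith) k3, mul_nonneg (show 0 ≤ i by linarith) k4,
      mul_nonneg (show 0 ≤ i by linarith) k1, mul_nonneg (show 0 ≤ i by linarith) k2,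
      mul_nonneg (show 0 ≤ i by linarith) e0]
  · have h3 : a ≤ -3 := by omega
    nlinarith [mul_nonneg (show 0 ≤ 8 * j by linarith) k1, mul_nonneg (show 0 ≤ 4 * j by linarith) k2,
      mul_nonneg (show 0 ≤ i by linarith) k3, mul_nonneg (show 0 ≤ i by linarith) k4,
      mul_nonneg (show 0 ≤ i by linarith) k1, mul_nonneg (show 0 ≤ i by linarith) k2,
      mul_nonneg (show 0 ≤ i by linarith) e0,
      mul_nonneg (show 0 ≤ j * (i + 3) - (i + 1) by nlinarith) (show 0 ≤ -3 - a by linarith)]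

theorem glb3Y (i j : ℤ) (hj : 5 ≤ j) (hjo : Odd j) (hi : 3 ≤ i) (hi2 : i ≤ j - 2) (hio : Odd i)
    (b c e r a o : ℤ) (h : VD i j b c e r a o) (ha : a ≤ 1) :
    -2 * (i + 1) * (b + c + e) - (i + 1) * r + j * (i - 1) * a
      ≤ -((j - 1) * (i + 1) + 2) + p3Y i a * (2 * o) := by
  obtain ⟨b0, b1, c0, c1, e0, hd, ho, o0, hlo⟩ := h
  have hoo : 2 * o = r - a := ho.symm
  rw [hoo]
  have k3 : 0 ≤ b + c + e + r - (j - 1) := by linarith
  unfold p3Y
  split_ifs with h1 h2
  · subst h1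
    nlinarith [mul_nonneg (show 0 ≤ i + 1 by linarith) k3, mul_nonneg (show 0 ≤ j by linarith) (show 0 ≤ i by linarith)]
  · subst h2
    nlinarith [mul_nonneg (show 0 ≤ i + 1 by linarith) k3]
  · have h3 : a ≤ -1 := by omega
    have k5 : 0 ≤ (j - 1) * (i - 1) := mul_nonneg (by linarith) (by linarith)
    rcases (show 1 ≤ b + c + e ∨ j ≤ r ∨ a ≤ -2 by
      by_contra hcon
      push Not at hcon
      obtain ⟨u, hu⟩ := hjo
      omega) with h4 | h4 | h4
    · nlinarith [mul_nonneg k5 (show 0 ≤ -1 - a by linarith),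
        mul_nonneg (show 0 ≤ i by linarith) (show 0 ≤ b + c + e - 1 by linarith)]
    · nlinarith [mul_nonneg k5 (show 0 ≤ -1 - a by linarith),
        mul_nonneg (show 0 ≤ i by linarith) (show 0 ≤ b + c + e by linarith)]
    · nlinarith [mul_nonneg k5 (show 0 ≤ -2 - a by linarith),
        mul_nonneg (show 0 ≤ i by linarith) (show 0 ≤ b + c + e by linarith),
        mul_nonneg (show 0 ≤ j - 5 by linarith) (show 0 ≤ i - 3 by linarith)]

/-! ### Case 2b, at least three hubs, `2 ≤ β ≤ q` -/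

def pmX (i β a : ℤ) : ℤ := if a = -β then i + 1 else if a = -β - 1 then 0 else -(i + 1)

def pmY (i β a : ℤ) : ℤ := if a = β then i + 1 else if a = β - 1 then 0 else -(i + 1)

def sm (i j β : ℤ) : ℤ := 2 * (i + 1) * (j + 1) - (j * (i + 1) + 2 * j + (i + 1)) * β

theorem glbmX (i j β : ℤ) (hj : 5 ≤ j) (hjo : Odd j) (hi : 3 ≤ i) (hi2 : i ≤ j - 2) (hio : Odd i)
    (hβ : 2 ≤ β) (hβ2 : β ≤ i + 1)
    (b c e r a o : ℤ) (h : VD i j b c e r a o) (ha : a ≤ -β) :
    4 * j * (2 * b + c) - 2 * (i + 1) * (b + c + e) - (i + 1) * r + j * (i + 3) * a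
      ≤ sm i j β + pmX i β a * (2 * o) := by
  obtain ⟨b0, b1, c0, c1, e0, hd, ho, o0, hlo⟩ := h
  have hoo : 2 * o = r - a := ho.symm
  rw [hoo]
  have k1 : 0 ≤ 1 - b := by linarith
  have k2 : 0 ≤ i - 1 - c := by linarith
  have k3 : 0 ≤ b + c + e + r - (j - 1) := by linarith
  have k4 : 0 ≤ j - 2 - i := by linarith
  unfold pmX sm
  split_ifs with h1 h2
  · subst h1
    nlinarith [mul_nonneg (show 0 ≤ 8 * j by linarith) k1, mul_nonneg (show 0 ≤ 4 * j by linarith) k2,
      mul_nonneg (show 0 ≤ i by linarith) k3, mul_nonneg (show 0 ≤ i by linarith) k4,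
      mul_nonneg (show 0 ≤ i by linarith) k1, mul_nonneg (show 0 ≤ i by linarith) k2,
      mul_nonneg (show 0 ≤ i by linarith) e0]
  · subst h2
    nlinarith [mul_nonneg (show 0 ≤ 8 * j by linarith) k1, mul_nonneg (show 0 ≤ 4 * j by linarith) k2,
      mul_nonneg (show 0 ≤ i by linarith) k3, mul_nonneg (show 0 ≤ i by linarith) k4,
      mul_nonneg (show 0 ≤ i by linarith) k1, mul_nonneg (show 0 ≤ i by linarith) k2,
      mul_nonneg (show 0 ≤ i by linarith) e0]
  · have h3 : a ≤ -β - 2 := by omega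
    nlinarith [mul_nonneg (show 0 ≤ 8 * j by linarith) k1, mul_nonneg (show 0 ≤ 4 * j by linarith) k2,
      mul_nonneg (show 0 ≤ i by linarith) k3, mul_nonneg (show 0 ≤ i by linarith) k4,
      mul_nonneg (show 0 ≤ i by linarith) k1, mul_nonneg (show 0 ≤ i by linarith) k2,
      mul_nonneg (show 0 ≤ i by linarith) e0,
      mul_nonneg (show 0 ≤ j * (i + 3) - (i + 1) by nlinarith) (show 0 ≤ -β - 2 - a by linarith)]

theorem glbmY (i j β : ℤ) (hj : 5 ≤ j) (hjo : Odd j) (hi : 3 ≤ i) (hi2 : i ≤ j - 2) (hio : Odd i)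
    (hβ : 2 ≤ β) (hβ2 : β ≤ i + 1)
    (b c e r a o : ℤ) (h : VD i j b c e r a o) (ha : a ≤ β) :
    -2 * (i + 1) * (b + c + e) - (i + 1) * r + j * (i - 1) * a
      ≤ -(sm i j β) + pmY i β a * (2 * o) := by
  obtain ⟨b0, b1, c0, c1, e0, hd, ho, o0, hlo⟩ := h
  have hoo : 2 * o = r - a := ho.symm
  rw [hoo]
  have k3 : 0 ≤ b + c + e + r - (j - 1) := by linarith
  unfold pmY sm
  split_ifs with h1 h2
  · subst h1
    nlinarith [mul_nonneg (show 0 ≤ i + 1 by linarith) k3]
  · subst h2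
    nlinarith [mul_nonneg (show 0 ≤ i + 1 by linarith) k3,
      mul_nonneg (show 0 ≤ i + 1 by linarith) (show 0 ≤ b + c + e by linarith),
      mul_nonneg (show 0 ≤ i + 1 by linarith) (show 0 ≤ r - (β - 1) by linarith)]
  · have h3 : a ≤ β - 2 := by omega
    nlinarith [mul_nonneg (show 0 ≤ i + 1 by linarith) k3,
      mul_nonneg (show 0 ≤ i + 1 by linarith) (show 0 ≤ b + c + e by linarith),
      mul_nonneg (show 0 ≤ j * (i - 1) - (i + 1) by nlinarith) (show 0 ≤ β - 2 - a by linarith)]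

/-! ### Case 2b, at least three hubs, `q < β` -/

def sb (i j β : ℤ) : ℤ := 3 * j * (i + 1) - (i + 1) ^ 2 + 2 * (i + 1) - j * (i + 3) * β

theorem glbbX (i j β : ℤ) (hj : 5 ≤ j) (hjo : Odd j) (hi : 3 ≤ i) (hi2 : i ≤ j - 2) (hio : Odd i)
    (hβ : i + 2 ≤ β)
    (b c e r a o : ℤ) (h : VD i j b c e r a o) (ha : a ≤ -β) :
    4 * j * (2 * b + c) - 2 * (i + 1) * (b + c + e) - (i + 1) * r + j * (i + 3) * a
      ≤ sb i j β := by
  obtain ⟨b0, b1, c0, c1, e0, hd, ho, o0, hlo⟩ := h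
  have k1 : 0 ≤ 1 - b := by linarith
  have k2 : 0 ≤ i - 1 - c := by linarith
  have k3 : 0 ≤ b + c + e + r - (j - 1) := by linarith
  unfold sb
  nlinarith [mul_nonneg (show 0 ≤ j * (i + 3) by nlinarith) (show 0 ≤ -β - a by linarith),
    mul_nonneg (show 0 ≤ 8 * j - (i + 1) by linarith) k1,
    mul_nonneg (show 0 ≤ 4 * j - (i + 1) by linarith) k2,
    mul_nonneg (show 0 ≤ i + 1 by linarith) k3,
    mul_nonneg (show 0 ≤ i + 1 by linarith) e0]

theorem glbbY (i j β : ℤ) (hj : 5 ≤ j) (hjo : Odd j) (hi : 3 ≤ i) (hi2 : i ≤ j - 2) (hio : Odd i)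
    (hβ : i + 2 ≤ β)
    (b c e r a o : ℤ) (h : VD i j b c e r a o) (ha : a ≤ β) :
    -2 * (i + 1) * (b + c + e) - (i + 1) * r + j * (i - 1) * a
      ≤ -(sb i j β) := by
  obtain ⟨b0, b1, c0, c1, e0, hd, ho, o0, hlo⟩ := h
  have k3 : 0 ≤ b + c + e + r - (j - 1) := by linarith
  unfold sb
  nlinarith [mul_nonneg (show 0 ≤ j * (i - 1) by nlinarith) (show 0 ≤ β - a by linarith),
    mul_nonneg (show 0 ≤ i + 1 by linarith) k3,
    mul_nonneg (show 0 ≤ j by linarith) (show 0 ≤ β - (i + 2) by linarith),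
    mul_nonneg (show 0 ≤ i + 1 by linarith) (show 0 ≤ b + c + e by linarith)]

/-! ### Case 2b, combined -/

/-- Case 2b. -/
theorem glb (i j : ℤ) (hj : 5 ≤ j) (hjo : Odd j) (hi : 1 ≤ i) (hi2 : i ≤ j - 2) (hio : Odd i)
    (β : ℤ) (hβ : 1 ≤ β) :
    ∃ (s : ℚ) (φX φY : ℤ → ℚ),
      (∀ a a' : ℤ, a ≤ -β → a' ≤ β → a + a' ≤ -2 → φX a + φY a' ≤ 0) ∧
      (∀ b c e r a o : ℤ, VD i j b c e r a o → a ≤ -β →
        ((4 * j * (2 * b + c) - 2 * (i + 1) * (b + c + e) - (i + 1) * r + j * (i + 3) * a : ℤ) : ℚ)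
          ≤ s + φX a * (2 * o)) ∧
      (∀ b c e r a o : ℤ, VD i j b c e r a o → a ≤ β →
        ((-2 * (i + 1) * (b + c + e) - (i + 1) * r + j * (i - 1) * a : ℤ) : ℚ)
          ≤ -s + φY a * (2 * o)) := by
  have hjq : (0 : ℚ) < (j : ℚ) - 1 := by
    have : (5 : ℚ) ≤ j := by exact_mod_cast hj
    linarith
  rcases (show i = 1 ∨ 3 ≤ i by obtain ⟨k, hk⟩ := hio; omega) with h1 | h3
  · subst h1
    rcases (show β = 1 ∨ 2 ≤ β by omega) with h | h
    · subst h
      refine ⟨4 * j - 6, fun a => (p1X j a : ℚ) / (j - 1), fun a => (p1Y j a : ℚ) / (j - 1),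
        ?_, ?_, ?_⟩
      · intro a a' ha ha' haa
        dsimp only
        rw [← add_div]
        apply div_nonpos_of_nonpos_of_nonneg _ hjq.le
        have : p1X j a + p1Y j a' ≤ 0 := by
          unfold p1X p1Y
          split_ifs <;> omega
        exact_mod_cast this
      · intro b c e r a o hv ha
        dsimp only
        have h := glb1X j hj b c e r a o hv ha
        have h2 : ((j : ℚ) - 1) * ((4 * j * (2 * b + c) - 2 * (1 + 1) * (b + c + e) - (1 + 1) * r +
            j * (1 + 3) * a : ℤ) : ℚ) ≤ (j - 1) * (4 * j - 6) + p1X j a * (2 * o) := by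
          exact_mod_cast h
        have h4 : (4 * (j : ℚ) - 6) + (p1X j a : ℚ) / (j - 1) * (2 * o) =
            ((j - 1) * (4 * j - 6) + p1X j a * (2 * o)) / (j - 1) := by
          field_simp
        rw [h4, le_div_iff₀ hjq, mul_comm]
        exact h2
      · intro b c e r a o hv ha
        dsimp only
        have h := glb1Y j hj hjo b c e r a o hv ha
        have h2 : ((j : ℚ) - 1) * ((-2 * (1 + 1) * (b + c + e) - (1 + 1) * r +
            j * (1 - 1) * a : ℤ) : ℚ) ≤ -((j - 1) * (4 * j - 6)) + p1Y j a * (2 * o) := by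
          exact_mod_cast h
        have h4 : -(4 * (j : ℚ) - 6) + (p1Y j a : ℚ) / (j - 1) * (2 * o) =
            (-((j - 1) * (4 * j - 6)) + p1Y j a * (2 * o)) / (j - 1) := by
          field_simp
        rw [h4, le_div_iff₀ hjq, mul_comm]
        exact h2
    · refine ⟨0, fun _ => 0, fun _ => 0, fun _ _ _ _ _ => by norm_num, ?_, ?_⟩
      · intro b c e r a o hv ha
        obtain ⟨b0, b1, c0, c1, e0, hd, ho, o0, hlo⟩ := hv
        have hc : c = 0 := by omega
        subst hc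
        have : 4 * j * (2 * b + 0) - 2 * (1 + 1) * (b + 0 + e) - (1 + 1) * r + j * (1 + 3) * a
            ≤ 0 := by
          nlinarith [mul_nonneg (show 0 ≤ j by linarith) (show 0 ≤ 1 - b by linarith),
            mul_nonneg (show 0 ≤ j by linarith) (show 0 ≤ -2 - a by linarith)]
        have h2 : ((4 * j * (2 * b + 0) - 2 * (1 + 1) * (b + 0 + e) - (1 + 1) * r +
          j * (1 + 3) * a : ℤ) : ℚ) ≤ 0 := by exact_mod_cast this
        linarith
      · intro b c e r a o hv ha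
        obtain ⟨b0, b1, c0, c1, e0, hd, ho, o0, hlo⟩ := hv
        have : -2 * (1 + 1) * (b + c + e) - (1 + 1) * r + j * (1 - 1) * a ≤ 0 := by
          nlinarith
        have h2 : ((-2 * (1 + 1) * (b + c + e) - (1 + 1) * r + j * (1 - 1) * a : ℤ) : ℚ) ≤ 0 := by
          exact_mod_cast this
        linarith
  · rcases (show β = 1 ∨ (2 ≤ β ∧ β ≤ i + 1) ∨ i + 2 ≤ β by omega) with h | h | h
    · subst h
      refine ⟨(((j - 1) * (i + 1) + 2 : ℤ) : ℚ), fun a => (p3X i a : ℚ), fun a => (p3Y i a : ℚ),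
        ?_, ?_, ?_⟩
      · intro a a' ha ha' haa
        have : p3X i a + p3Y i a' ≤ 0 := by
          unfold p3X p3Y
          split_ifs <;> omega
        dsimp only
        exact_mod_cast this
      · intro b c e r a o hv ha
        have := glb3X i j hj hjo h3 hi2 hio b c e r a o hv ha
        dsimp only
        exact_mod_cast this
      · intro b c e r a o hv ha
        have := glb3Y i j hj hjo h3 hi2 hio b c e r a o hv ha
        dsimp only
        exact_mod_cast this
    · refine ⟨(sm i j β : ℚ), fun a => (pmX i β a : ℚ), fun a => (pmY i β a : ℚ), ?_, ?_, ?_⟩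
      · intro a a' ha ha' haa
        have : pmX i β a + pmY i β a' ≤ 0 := by
          unfold pmX pmY
          split_ifs <;> omega
        dsimp only
        exact_mod_cast this
      · intro b c e r a o hv ha
        have := glbmX i j β hj hjo h3 hi2 hio h.1 h.2 b c e r a o hv ha
        dsimp only
        exact_mod_cast this
      · intro b c e r a o hv ha
        have := glbmY i j β hj hjo h3 hi2 hio h.1 h.2 b c e r a o hv ha
        dsimp only
        exact_mod_cast this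
    · refine ⟨(sb i j β : ℚ), fun _ => 0, fun _ => 0, fun _ _ _ _ _ => by norm_num, ?_, ?_⟩
      · intro b c e r a o hv ha
        have := glbbX i j β hj hjo h3 hi2 hio h b c e r a o hv ha
        dsimp only
        have h2 : ((4 * j * (2 * b + c) - 2 * (i + 1) * (b + c + e) - (i + 1) * r +
          j * (i + 3) * a : ℤ) : ℚ) ≤ (sb i j β : ℚ) := by exact_mod_cast this
        linarith
      · intro b c e r a o hv ha
        have := glbbY i j β hj hjo h3 hi2 hio h b c e r a o hv ha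
        dsimp only
        have h2 : ((-2 * (i + 1) * (b + c + e) - (i + 1) * r +
          j * (i - 1) * a : ℤ) : ℚ) ≤ -(sb i j β : ℚ) := by exact_mod_cast this
        linarith

end Pool.Agent.Helper60.Bis
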