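import Pool.Agent.Helper60.Bis.Star
import Pool.Agent.Helper60.Bis.GLnum
import Pool.Agent.Helper60.Bis.Fin

set_option linter.unusedSectionVars false

/-!
# Case 2: no swap improves; discharging
-/

namespace Pool.Agent.Helper60.Bis

open Finset Pool.Agent.Helper29.Bisect

variable {V : Type*} [Fintype V] [DecidableEq V]

/-- `in` minus `out` -/
def ain (A : V → V → ℤ) (P R : Finset V) (v : V) : ℤ := ∑ w ∈ P, A v w - ∑ w ∈ R, A v w

/-- the discharging sum is nonpositive -/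
theorem dsum {A : V → V → ℤ} {j : ℤ} (hG : Gr A j) (X Y : Finset V) (φ ψ : V → ℚ)
    (hp : ∀ u ∈ X, ∀ v ∈ Y, A u v = 1 → φ u + ψ v ≤ 0) :
    ∑ u ∈ X, φ u * (2 * ((∑ w ∈ Y, A u w : ℤ) : ℚ)) +
      ∑ v ∈ Y, ψ v * (2 * ((∑ w ∈ X, A v w : ℤ) : ℚ)) ≤ 0 := by
  have h1 : ∑ v ∈ Y, ψ v * (2 * ((∑ w ∈ X, A v w : ℤ) : ℚ)) =
      ∑ u ∈ X, ∑ v ∈ Y, 2 * (ψ v * (A u v : ℚ)) := by
    rw [Finset.sum_comm]
    refine Finset.sum_congr rfl fun v _ => ?_
    push_cast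
    rw [Finset.mul_sum, Finset.mul_sum]
    refine Finset.sum_congr rfl fun w _ => ?_
    rw [hG.symm w v]; ring
  have h2 : ∑ u ∈ X, φ u * (2 * ((∑ w ∈ Y, A u w : ℤ) : ℚ)) =
      ∑ u ∈ X, ∑ v ∈ Y, 2 * (φ u * (A u v : ℚ)) := by
    refine Finset.sum_congr rfl fun u _ => ?_
    push_cast
    rw [Finset.mul_sum, Finset.mul_sum]
    refine Finset.sum_congr rfl fun w _ => ?_
    ring
  rw [h1, h2, ← Finset.sum_add_distrib]
  refine Finset.sum_nonpos fun u hu => ?_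
  rw [← Finset.sum_add_distrib]
  refine Finset.sum_nonpos fun v hv => ?_
  rcases hG.zo u v with h | h
  · rw [h]; simp
  · have := hp u hu v hv h
    rw [h]; push_cast; linarith

/-- the data of a vertex of `B = X ∪ Y` -/
theorem vd {A : V → V → ℤ} {j : ℤ} (hG : Gr A j) {h : V} {H N X Y : Finset V}
    (C : Conf h H N (X ∪ Y)) (hXY : Disjoint X Y) (P R : Finset V)
    (hPR : (P = X ∧ R = Y) ∨ (P = Y ∧ R = X)) (v : V) :
    VD ((H.card : ℤ) + 1) j (A v h) (∑ w ∈ H, A v w) (∑ w ∈ N, A v w)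
      (∑ w ∈ P, A v w + ∑ w ∈ R, A v w) (ain A P R v) (∑ w ∈ R, A v w) := by
  have hs : ∑ w ∈ X ∪ Y, A v w = ∑ w ∈ P, A v w + ∑ w ∈ R, A v w := by
    rw [Finset.sum_union hXY]
    rcases hPR with ⟨rfl, rfl⟩ | ⟨rfl, rfl⟩
    · rfl
    · ring
  have hR : 0 ≤ ∑ w ∈ R, A v w := Finset.sum_nonneg fun w _ => hG.nonneg v w
  have hP : 0 ≤ ∑ w ∈ P, A v w := Finset.sum_nonneg fun w _ => hG.nonneg v w
  refine ⟨hG.nonneg v h, hG.le_one v h, Finset.sum_nonneg fun w _ => hG.nonneg v w, ?_,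
    Finset.sum_nonneg fun w _ => hG.nonneg v w, ?_, ?_, hR, ?_⟩
  · have : ∑ w ∈ H, A v w ≤ ∑ _w ∈ H, (1 : ℤ) := Finset.sum_le_sum fun w _ => hG.le_one v w
    simp only [Finset.sum_const, nsmul_eq_mul, mul_one] at this
    linarith
  · have h1 := hG.deg v
    have h2 : dg A v = A v h + ∑ w ∈ H, A v w + ∑ w ∈ N, A v w + ∑ w ∈ X ∪ Y, A v w :=
      C.sum (A v)
    rw [hs] at h2
    linarith
  · unfold ain; ring
  · unfold ain; linarith

theorem sum_h {A : V → V → ℤ} {j : ℤ} (hG : Gr A j) (P : Finset V) (h : V) :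
    ∑ v ∈ P, A v h = eS A {h} P := by
  unfold eS
  rw [Finset.sum_singleton]
  exact Finset.sum_congr rfl fun v _ => hG.symm v h

/-- common facts for the final arithmetic -/
theorem case2_facts {A : V → V → ℤ} {j : ℤ} (hG : Gr A j) {t : ℚ}
    (ht : 2 * j * t = M2 A) {h : V} {H N X Y : Finset V} (C : Conf h H N (X ∪ Y))
    (hXY : Disjoint X Y) (hmin : ∀ a ∈ H, dg A h ≤ dg A a) :
    (2 * j * t = ((eS A {h} H : ℚ) + eS A {h} N + ((eS A {h} X : ℚ) + eS A {h} Y)) +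
      ((eS A {h} H : ℚ) + eS A H H + eS A H N + ((eS A X H : ℚ) + eS A Y H)) +
      ((eS A {h} N : ℚ) + eS A H N + eS A N N + ((eS A X N : ℚ) + eS A Y N)) +
      ((eS A {h} X : ℚ) + eS A {h} Y + ((eS A X H : ℚ) + eS A Y H) +
        ((eS A X N : ℚ) + eS A Y N) +
        (((eS A X X + eS A X Y : ℤ) : ℚ) + ((eS A Y Y + eS A Y X : ℤ) : ℚ)))) ∧
    ((dg A h : ℚ) = (eS A {h} H : ℚ) + eS A {h} N + ((eS A {h} X : ℚ) + eS A {h} Y)) ∧
    (((∑ v ∈ N, dg A v : ℤ) : ℚ) = (eS A {h} N : ℚ) + eS A H N + eS A N N +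
      ((eS A X N : ℚ) + eS A Y N)) ∧
    (((H.card : ℚ) + 1) * ((eS A {h} H : ℚ) + eS A {h} N + ((eS A {h} X : ℚ) + eS A {h} Y)) ≤
      ((eS A {h} H : ℚ) + eS A {h} N + ((eS A {h} X : ℚ) + eS A {h} Y)) +
      ((eS A {h} H : ℚ) + eS A H H + eS A H N + ((eS A X H : ℚ) + eS A Y H))) ∧
    (∀ P R : Finset V, ((P = X ∧ R = Y) ∨ (P = Y ∧ R = X)) →
      ∑ v ∈ P, dg A v = eS A {h} P + eS A P H + eS A P N + (eS A P P + eS A P R)) ∧
    ((N.card : ℚ) * (j - 1) ≤ (eS A {h} N : ℚ) + eS A H N + eS A N N +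
      ((eS A X N : ℚ) + eS A Y N)) := by
  have hU : ∀ P : Finset V, eS A P (X ∪ Y) = eS A P X + eS A P Y := fun P => eS_union P X Y hXY
  have e1 : dg A h = eS A {h} H + eS A {h} N + (eS A {h} X + eS A {h} Y) := by
    rw [C.dgh hG, hU]
  have e2 : ∑ v ∈ H, dg A v = eS A {h} H + eS A H H + eS A H N + (eS A X H + eS A Y H) := by
    rw [C.dgsum H, hU, eS_symm hG H {h}, eS_symm hG H X, eS_symm hG H Y]
  have e3 : ∑ v ∈ N, dg A v = eS A {h} N + eS A H N + eS A N N + (eS A X N + eS A Y N) := by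
    rw [C.dgsum N, hU, eS_symm hG N {h}, eS_symm hG N H, eS_symm hG N X, eS_symm hG N Y]
  have e4 : ∀ P R : Finset V, ((P = X ∧ R = Y) ∨ (P = Y ∧ R = X)) →
      ∑ v ∈ P, dg A v = eS A {h} P + eS A P H + eS A P N + (eS A P P + eS A P R) := by
    intro P R hPR
    rw [C.dgsum P, hU, eS_symm hG P {h}]
    rcases hPR with ⟨rfl, rfl⟩ | ⟨rfl, rfl⟩
    · ring
    · ring
  have e5 : M2 A = dg A h + ∑ v ∈ H, dg A v + ∑ v ∈ N, dg A v +
      (∑ v ∈ X, dg A v + ∑ v ∈ Y, dg A v) := by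
    rw [C.M2, Finset.sum_union hXY]
  have e6 : (H.card : ℤ) * dg A h ≤ ∑ v ∈ H, dg A v := by
    calc (H.card : ℤ) * dg A h = ∑ _v ∈ H, dg A h := by simp
      _ ≤ ∑ v ∈ H, dg A v := Finset.sum_le_sum hmin
  have e7 : (N.card : ℤ) * (j - 1) ≤ ∑ v ∈ N, dg A v := by
    calc (N.card : ℤ) * (j - 1) = ∑ _v ∈ N, (j - 1) := by simp [Finset.sum_const]; ring
      _ ≤ ∑ v ∈ N, dg A v := Finset.sum_le_sum fun v _ => hG.deg v
  refine ⟨?_, by exact_mod_cast e1, by exact_mod_cast e3, ?_, e4, ?_⟩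
  · rw [ht, e5, e4 X Y (Or.inl ⟨rfl, rfl⟩), e4 Y X (Or.inr ⟨rfl, rfl⟩), e1, e2, e3]
    push_cast; ring
  · rw [e2, e1] at e6
    have e6' : (H.card : ℚ) * ((eS A {h} H : ℚ) + eS A {h} N + ((eS A {h} X : ℚ) + eS A {h} Y)) ≤
      ((eS A {h} H : ℚ) + eS A H H + eS A H N + ((eS A X H : ℚ) + eS A Y H)) := by
      exact_mod_cast e6
    linarith
  · rw [e3] at e7
    exact_mod_cast e7

theorem card_facts {A : V → V → ℤ} {j : ℤ} (hG : Gr A j) {h : V} (H N : Finset V) :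
    ((eS A {h} H : ℚ) ≤ ((H.card : ℚ) + 1) - 1) ∧
    ((eS A H H : ℚ) ≤ (((H.card : ℚ) + 1) - 1) * (((H.card : ℚ) + 1) - 2)) ∧
    (0 : ℚ) ≤ eS A {h} N ∧ (0 : ℚ) ≤ eS A H N ∧
    ((eS A H N : ℚ) ≤ (((H.card : ℚ) + 1) - 1) * N.card) ∧
    (0 : ℚ) ≤ eS A N N ∧ ((eS A N N : ℚ) ≤ (N.card : ℚ) * ((N.card : ℚ) - 1)) := by
  refine ⟨?_, ?_, ?_, ?_, ?_, ?_, ?_⟩
  · have := eS_le hG {h} H
    rw [Finset.card_singleton] at this
    have h2 : (eS A {h} H : ℚ) ≤ H.card := by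
      have h3 : eS A {h} H ≤ H.card := by push_cast at this; linarith
      exact_mod_cast h3
    linarith
  · have := eS_self_le hG H
    have h2 : (eS A H H : ℚ) ≤ (H.card : ℚ) * ((H.card : ℚ) - 1) := by exact_mod_cast this
    linarith
  · exact_mod_cast eS_nonneg hG {h} N
  · exact_mod_cast eS_nonneg hG H N
  · have := eS_le hG H N
    have h2 : (eS A H N : ℚ) ≤ (H.card : ℚ) * N.card := by exact_mod_cast this
    linarith
  · exact_mod_cast eS_nonneg hG N N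
  · exact_mod_cast eS_self_le hG N

theorem case2b_core {A : V → V → ℤ} {j : ℤ} (hG : Gr A j) (hj : 5 ≤ j) (hjo : Odd j) {t : ℚ}
    (ht : 2 * j * t = M2 A) {h : V} {H N X Y : Finset V} (C : Conf h H N (X ∪ Y))
    (hXY : Disjoint X Y) (hcard : X.card = Y.card) (hH : Even H.card)
    (hH2 : (H.card : ℤ) + 3 ≤ j)
    (hN : (N.card = 0 ∧ H.card = 0) ∨ N.card = 1 ∨ N.card = 2)
    (hmin : ∀ a ∈ H, dg A h ≤ dg A a) (QP : ℤ) (hPQ : QP ≤ H.card)
    (hopt : ∀ u ∈ X, ∀ v ∈ Y, ain A X Y u + ain A Y X v + 2 * A u v ≤ 0)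
    (v0 : V) (hv0 : v0 ∈ Y) (h0 : 1 ≤ ain A Y X v0)
    (h1 : 2 * t < -2 * (eS A {h} N : ℚ) + eS A N N + QP +
      (((eS A X X - eS A X Y : ℤ) : ℚ) + ((eS A Y Y - eS A Y X : ℤ) : ℚ)) +
      2 * (((eS A {h} H : ℚ) + eS A {h} N + ((eS A {h} X : ℚ) + eS A {h} Y)) -
        ((eS A {h} N : ℚ) + eS A H N + eS A N N + ((eS A X N : ℚ) + eS A Y N))) +
      2 * (((eS A {h} X : ℚ) - eS A X N) - ((eS A {h} Y : ℚ) - eS A Y N) +
        (((eS A {h} X : ℚ) + eS A X H + eS A X N + ((eS A X X + eS A X Y : ℤ) : ℚ)) -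
          ((eS A {h} Y : ℚ) + eS A Y H + eS A Y N + ((eS A Y Y + eS A Y X : ℤ) : ℚ)))))
    (h2 : 2 * t < -2 * (eS A {h} N : ℚ) + eS A N N + QP +
      (((eS A X X - eS A X Y : ℤ) : ℚ) + ((eS A Y Y - eS A Y X : ℤ) : ℚ)) +
      2 * (((eS A {h} H : ℚ) + eS A {h} N + ((eS A {h} X : ℚ) + eS A {h} Y)) -
        ((eS A {h} N : ℚ) + eS A H N + eS A N N + ((eS A X N : ℚ) + eS A Y N))) -
      2 * (((eS A {h} X : ℚ) - eS A X N) - ((eS A {h} Y : ℚ) - eS A Y N) +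
        (((eS A {h} X : ℚ) + eS A X H + eS A X N + ((eS A X X + eS A X Y : ℤ) : ℚ)) -
          ((eS A {h} Y : ℚ) + eS A Y H + eS A Y N + ((eS A Y Y + eS A Y X : ℤ) : ℚ))))) :
    False := by
  obtain ⟨v1, hv1, hmax⟩ := Finset.exists_max_image Y (ain A Y X) ⟨v0, hv0⟩
  set β := ain A Y X v1 with hβ
  have hβ1 : 1 ≤ β := h0.trans (hmax v0 hv0)
  have hio : Odd ((H.card : ℤ) + 1) := by
    obtain ⟨k, hk⟩ := hH
    exact ⟨k, by rw [hk]; push_cast; ring⟩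
  have hi0 : (0 : ℤ) ≤ (H.card : ℤ) := by positivity
  obtain ⟨s, φX, φY, hp, hvX, hvY⟩ := glb ((H.card : ℤ) + 1) j hj hjo (by linarith) (by linarith)
    hio β hβ1
  have hXle : ∀ u ∈ X, ain A X Y u ≤ -β := by
    intro u hu
    have h3 := hopt u hu v1 hv1
    have h4 := hG.nonneg u v1
    linarith
  -- sum over X
  have sX : ∑ u ∈ X, ((4 * j * (2 * A u h + ∑ w ∈ H, A u w) - 2 * (((H.card : ℤ) + 1) + 1) *
      (A u h + ∑ w ∈ H, A u w + ∑ w ∈ N, A u w) - (((H.card : ℤ) + 1) + 1) *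
      (∑ w ∈ X, A u w + ∑ w ∈ Y, A u w) + j * (((H.card : ℤ) + 1) + 3) * ain A X Y u : ℤ) : ℚ) ≤
      ∑ u ∈ X, (s + φX (ain A X Y u) * (2 * ((∑ w ∈ Y, A u w : ℤ) : ℚ))) :=
    Finset.sum_le_sum fun u hu =>
      hvX _ _ _ _ _ _ (vd hG C hXY X Y (Or.inl ⟨rfl, rfl⟩) u) (hXle u hu)
  have sY : ∑ u ∈ Y, ((-2 * (((H.card : ℤ) + 1) + 1) *
      (A u h + ∑ w ∈ H, A u w + ∑ w ∈ N, A u w) - (((H.card : ℤ) + 1) + 1) *
      (∑ w ∈ Y, A u w + ∑ w ∈ X, A u w) + j * (((H.card : ℤ) + 1) - 1) * ain A Y X u : ℤ) : ℚ) ≤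
      ∑ u ∈ Y, (-s + φY (ain A Y X u) * (2 * ((∑ w ∈ X, A u w : ℤ) : ℚ))) :=
    Finset.sum_le_sum fun u hu =>
      hvY _ _ _ _ _ _ (vd hG C hXY Y X (Or.inr ⟨rfl, rfl⟩) u) (hmax u hu)
  have hd := dsum hG X Y (fun u => φX (ain A X Y u)) (fun v => φY (ain A Y X v)) (by
    intro u hu v hv huv
    refine hp _ _ (hXle u hu) (hmax v hv) ?_
    have := hopt u hu v hv
    rw [huv] at this
    linarith)
  rw [Finset.sum_add_distrib, Finset.sum_const, nsmul_eq_mul] at sX sY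
  have hcq : (X.card : ℚ) = Y.card := by rw [hcard]
  have eX : ∑ u ∈ X, ((4 * j * (2 * A u h + ∑ w ∈ H, A u w) - 2 * (((H.card : ℤ) + 1) + 1) *
      (A u h + ∑ w ∈ H, A u w + ∑ w ∈ N, A u w) - (((H.card : ℤ) + 1) + 1) *
      (∑ w ∈ X, A u w + ∑ w ∈ Y, A u w) + j * (((H.card : ℤ) + 1) + 3) * ain A X Y u : ℤ) : ℚ) =
      4 * j * (2 * (eS A {h} X : ℚ) + eS A X H) - 2 * (((H.card : ℚ) + 1) + 1) *
      ((eS A {h} X : ℚ) + eS A X H + eS A X N) - (((H.card : ℚ) + 1) + 1) *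
      ((eS A X X + eS A X Y : ℤ) : ℚ) + j * (((H.card : ℚ) + 1) + 3) *
      ((eS A X X - eS A X Y : ℤ) : ℚ) := by
    rw [← Int.cast_sum]
    have : ∑ u ∈ X, (4 * j * (2 * A u h + ∑ w ∈ H, A u w) - 2 * (((H.card : ℤ) + 1) + 1) *
      (A u h + ∑ w ∈ H, A u w + ∑ w ∈ N, A u w) - (((H.card : ℤ) + 1) + 1) *
      (∑ w ∈ X, A u w + ∑ w ∈ Y, A u w) + j * (((H.card : ℤ) + 1) + 3) * ain A X Y u) =
      4 * j * (2 * eS A {h} X + eS A X H) - 2 * (((H.card : ℤ) + 1) + 1) *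
      (eS A {h} X + eS A X H + eS A X N) - (((H.card : ℤ) + 1) + 1) *
      (eS A X X + eS A X Y) + j * (((H.card : ℤ) + 1) + 3) * (eS A X X - eS A X Y) := by
      rw [← sum_h hG X h]
      unfold eS ain
      simp only [Finset.sum_add_distrib, Finset.sum_sub_distrib, ← Finset.mul_sum]
    rw [this]
    push_cast; ring
  have eY : ∑ u ∈ Y, ((-2 * (((H.card : ℤ) + 1) + 1) *
      (A u h + ∑ w ∈ H, A u w + ∑ w ∈ N, A u w) - (((H.card : ℤ) + 1) + 1) *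
      (∑ w ∈ Y, A u w + ∑ w ∈ X, A u w) + j * (((H.card : ℤ) + 1) - 1) * ain A Y X u : ℤ) : ℚ) =
      - 2 * (((H.card : ℚ) + 1) + 1) *
      ((eS A {h} Y : ℚ) + eS A Y H + eS A Y N) - (((H.card : ℚ) + 1) + 1) *
      ((eS A Y Y + eS A Y X : ℤ) : ℚ) + j * (((H.card : ℚ) + 1) - 1) *
      ((eS A Y Y - eS A Y X : ℤ) : ℚ) := by
    rw [← Int.cast_sum]
    have : ∑ u ∈ Y, (-2 * (((H.card : ℤ) + 1) + 1) *
      (A u h + ∑ w ∈ H, A u w + ∑ w ∈ N, A u w) - (((H.card : ℤ) + 1) + 1) *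
      (∑ w ∈ Y, A u w + ∑ w ∈ X, A u w) + j * (((H.card : ℤ) + 1) - 1) * ain A Y X u) =
      - 2 * (((H.card : ℤ) + 1) + 1) *
      (eS A {h} Y + eS A Y H + eS A Y N) - (((H.card : ℤ) + 1) + 1) *
      (eS A Y Y + eS A Y X) + j * (((H.card : ℤ) + 1) - 1) * (eS A Y Y - eS A Y X) := by
      rw [← sum_h hG Y h]
      unfold eS ain
      simp only [Finset.sum_add_distrib, Finset.sum_sub_distrib, ← Finset.mul_sum]
    rw [this]
    push_cast; ring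
  rw [eX] at sX
  rw [eY] at sY
  obtain ⟨f1, f2, f3, f4, f5, f6⟩ := case2_facts hG ht C hXY hmin
  obtain ⟨b1, b2, b3, b4, b5, b6, b7⟩ := card_facts hG (h := h) H N
  have hsym := eS_symm hG X Y
  have hr : ((eS A X X + eS A X Y : ℤ) : ℚ) - ((eS A Y Y + eS A Y X : ℤ) : ℚ) =
      ((eS A X X - eS A X Y : ℤ) : ℚ) - ((eS A Y Y - eS A Y X : ℤ) : ℚ) := by
    rw [hsym]; push_cast; ring
  refine fin2b j ((H.card : ℚ) + 1) N.card t QP (eS A {h} H) (eS A H H) (eS A {h} N) (eS A H N)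
    (eS A N N) (eS A {h} X) (eS A {h} Y) (eS A X H) (eS A Y H) (eS A X N) (eS A Y N)
    ((eS A X X + eS A X Y : ℤ) : ℚ) ((eS A Y Y + eS A Y X : ℤ) : ℚ)
    ((eS A X X - eS A X Y : ℤ) : ℚ) ((eS A Y Y - eS A Y X : ℤ) : ℚ)
    (by exact_mod_cast hj) (by have : (0 : ℚ) ≤ H.card := by positivity
                               linarith)
    (by have : ((H.card : ℚ)) + 3 ≤ j := by exact_mod_cast hH2
        linarith) f1 hr ?_ h1 h2 f4 b1 b2 b3 b4 b5 b6 b7 ?_ f6 ?_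
  · rw [hcq] at sX
    linarith
  · have : (QP : ℚ) ≤ H.card := by exact_mod_cast hPQ
    linarith
  · rcases hN with ⟨hN, hN'⟩ | hN | hN
    · left; rw [hN, hN']; simp
    · right; left; rw [hN]; simp
    · right; right; rw [hN]; simp

theorem case2a_core {A : V → V → ℤ} {j : ℤ} (hG : Gr A j) (hj : 5 ≤ j) (hjo : Odd j) {t : ℚ}
    (ht : 2 * j * t = M2 A) {h : V} {H N X Y : Finset V} (C : Conf h H N (X ∪ Y))
    (hXY : Disjoint X Y) (hH : Even H.card)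
    (hH2 : (H.card : ℤ) + 3 ≤ j)
    (hN : (N.card = 0 ∧ H.card = 0) ∨ N.card = 1 ∨ N.card = 2)
    (hmin : ∀ a ∈ H, dg A h ≤ dg A a) (QP : ℤ) (hPQ : QP ≤ H.card)
    (hopt : ∀ u ∈ X, ∀ v ∈ Y, ain A X Y u + ain A Y X v + 2 * A u v ≤ 0)
    (haX : ∀ u ∈ X, ain A X Y u ≤ 0) (haY : ∀ v ∈ Y, ain A Y X v ≤ 0)
    (h1 : 2 * t < -2 * (eS A {h} N : ℚ) + eS A N N + QP +
      (((eS A X X - eS A X Y : ℤ) : ℚ) + ((eS A Y Y - eS A Y X : ℤ) : ℚ)) +
      2 * (((eS A {h} H : ℚ) + eS A {h} N + ((eS A {h} X : ℚ) + eS A {h} Y)) -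
        ((eS A {h} N : ℚ) + eS A H N + eS A N N + ((eS A X N : ℚ) + eS A Y N)))) :
    False := by
  have hio : Odd ((H.card : ℤ) + 1) := by
    obtain ⟨k, hk⟩ := hH
    exact ⟨k, by rw [hk]; push_cast; ring⟩
  have hi0 : (0 : ℤ) ≤ (H.card : ℤ) := by positivity
  obtain ⟨φ, hp, hv⟩ := gla ((H.card : ℤ) + 1) j hj hjo (by linarith) (by linarith) hio
  have key : ∀ P R : Finset V, ((P = X ∧ R = Y) ∨ (P = Y ∧ R = X)) →
      (∀ u ∈ P, ain A P R u ≤ 0) →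
      2 * j * ((eS A {h} P : ℚ) + eS A P H) - 2 * ((H.card : ℚ) + 1) * j * eS A P N -
        2 * ((H.card : ℚ) + 1) * ((eS A {h} P : ℚ) + eS A P H + eS A P N) -
        ((H.card : ℚ) + 1) * ((eS A P P + eS A P R : ℤ) : ℚ) +
        ((H.card : ℚ) + 1) * j * ((eS A P P - eS A P R : ℤ) : ℚ) ≤
      ∑ u ∈ P, φ (ain A P R u) * (2 * ((∑ w ∈ R, A u w : ℤ) : ℚ)) -
        ((H.card : ℚ) + 1) * (j + ((H.card : ℚ) + 1)) * eS A P N := by
    intro P R hPR ha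
    have sP : ∑ u ∈ P, ((2 * j * (A u h + ∑ w ∈ H, A u w) - 2 * ((H.card : ℤ) + 1) * j *
        (∑ w ∈ N, A u w) - 2 * ((H.card : ℤ) + 1) * (A u h + ∑ w ∈ H, A u w + ∑ w ∈ N, A u w) -
        ((H.card : ℤ) + 1) * (∑ w ∈ P, A u w + ∑ w ∈ R, A u w) +
        ((H.card : ℤ) + 1) * j * ain A P R u : ℤ) : ℚ) ≤
        ∑ u ∈ P, (φ (ain A P R u) * (2 * ((∑ w ∈ R, A u w : ℤ) : ℚ)) -
          (((H.card : ℤ) + 1 : ℤ) : ℚ) * (j + (((H.card : ℤ) + 1 : ℤ) : ℚ)) *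
          ((∑ w ∈ N, A u w : ℤ) : ℚ)) :=
      Finset.sum_le_sum fun u hu => by
        have := hv _ _ _ _ _ _ (vd hG C hXY P R hPR u) (ha u hu)
        exact this
    have eP : ∑ u ∈ P, ((2 * j * (A u h + ∑ w ∈ H, A u w) - 2 * ((H.card : ℤ) + 1) * j *
        (∑ w ∈ N, A u w) - 2 * ((H.card : ℤ) + 1) * (A u h + ∑ w ∈ H, A u w + ∑ w ∈ N, A u w) -
        ((H.card : ℤ) + 1) * (∑ w ∈ P, A u w + ∑ w ∈ R, A u w) +
        ((H.card : ℤ) + 1) * j * ain A P R u : ℤ) : ℚ) =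
        2 * j * ((eS A {h} P : ℚ) + eS A P H) - 2 * ((H.card : ℚ) + 1) * j * eS A P N -
        2 * ((H.card : ℚ) + 1) * ((eS A {h} P : ℚ) + eS A P H + eS A P N) -
        ((H.card : ℚ) + 1) * ((eS A P P + eS A P R : ℤ) : ℚ) +
        ((H.card : ℚ) + 1) * j * ((eS A P P - eS A P R : ℤ) : ℚ) := by
      rw [← Int.cast_sum]
      have : ∑ u ∈ P, (2 * j * (A u h + ∑ w ∈ H, A u w) - 2 * ((H.card : ℤ) + 1) * j *
        (∑ w ∈ N, A u w) - 2 * ((H.card : ℤ) + 1) * (A u h + ∑ w ∈ H, A u w + ∑ w ∈ N, A u w) -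
        ((H.card : ℤ) + 1) * (∑ w ∈ P, A u w + ∑ w ∈ R, A u w) +
        ((H.card : ℤ) + 1) * j * ain A P R u) =
        2 * j * (eS A {h} P + eS A P H) - 2 * ((H.card : ℤ) + 1) * j * eS A P N -
        2 * ((H.card : ℤ) + 1) * (eS A {h} P + eS A P H + eS A P N) -
        ((H.card : ℤ) + 1) * (eS A P P + eS A P R) +
        ((H.card : ℤ) + 1) * j * (eS A P P - eS A P R) := by
        rw [← sum_h hG P h]
        unfold eS ain
        simp only [Finset.sum_add_distrib, Finset.sum_sub_distrib, ← Finset.mul_sum]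
      rw [this]
      push_cast; ring
    have eR : ∑ u ∈ P, (((H.card : ℤ) + 1 : ℤ) : ℚ) * (j + (((H.card : ℤ) + 1 : ℤ) : ℚ)) *
          ((∑ w ∈ N, A u w : ℤ) : ℚ) =
        ((H.card : ℚ) + 1) * (j + ((H.card : ℚ) + 1)) * eS A P N := by
      rw [← Finset.mul_sum, ← Int.cast_sum]
      unfold eS
      push_cast; ring
    rw [Finset.sum_sub_distrib, eR, eP] at sP
    exact sP
  have kX := key X Y (Or.inl ⟨rfl, rfl⟩) haX
  have kY := key Y X (Or.inr ⟨rfl, rfl⟩) haY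
  have hd := dsum hG X Y (fun u => φ (ain A X Y u)) (fun v => φ (ain A Y X v)) (by
    intro u hu v hv huv
    refine hp _ _ (haX u hu) (haY v hv) ?_
    have := hopt u hu v hv
    rw [huv] at this
    linarith)
  obtain ⟨f1, f2, f3, f4, f5, f6⟩ := case2_facts hG ht C hXY hmin
  obtain ⟨b1, b2, b3, b4, b5, b6, b7⟩ := card_facts hG (h := h) H N
  refine fin2a j ((H.card : ℚ) + 1) N.card t QP (eS A {h} H) (eS A H H) (eS A {h} N) (eS A H N)
    (eS A N N) (eS A {h} X) (eS A {h} Y) (eS A X H) (eS A Y H) (eS A X N) (eS A Y N)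
    ((eS A X X + eS A X Y : ℤ) : ℚ) ((eS A Y Y + eS A Y X : ℤ) : ℚ)
    ((eS A X X - eS A X Y : ℤ) : ℚ) ((eS A Y Y - eS A Y X : ℤ) : ℚ)
    (by exact_mod_cast hj) (by have : (0 : ℚ) ≤ H.card := by positivity
                               linarith)
    (by have : ((H.card : ℚ)) + 3 ≤ j := by exact_mod_cast hH2
        linarith) f1 ?_ h1 f4 b1 b2 b3 b4 b5 b6 b7 ?_ f6 ?_ ?_
  · linarith
  · have : (QP : ℚ) ≤ H.card := by exact_mod_cast hPQ
    linarith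
  · rcases hN with ⟨hN, hN'⟩ | hN | hN
    · left; rw [hN, hN']; simp
    · right; left; rw [hN]; simp
    · right; right; rw [hN]; simp
  · rcases (show H.card = 0 ∨ 2 ≤ H.card by obtain ⟨k, hk⟩ := hH; omega) with h | h
    · left; rw [h]; simp
    · right
      have : (2 : ℚ) ≤ H.card := by exact_mod_cast h
      linarith

/-- a sign assignment is the pattern of its positive and negative parts -/
theorem St_eq_pat {B : Finset V} {x : V → ℤ} (hx : St B x) :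
    Disjoint (B.filter fun v => x v = 1) (B.filter fun v => x v = -1) ∧
    (B.filter fun v => x v = 1) ∪ (B.filter fun v => x v = -1) = B ∧
    x = pat (B.filter fun v => x v = 1) (B.filter fun v => x v = -1) := by
  refine ⟨?_, ?_, ?_⟩
  · rw [Finset.disjoint_filter]
    intro v _ h1 h2
    rw [h1] at h2; norm_num at h2
  · ext v
    simp only [Finset.mem_union, Finset.mem_filter]
    constructor
    · rintro (h | h) <;> exact h.1
    · intro h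
      rcases hx.on v h with h1 | h1
      · exact Or.inl ⟨h, h1⟩
      · exact Or.inr ⟨h, h1⟩
  · funext v
    unfold pat
    by_cases hv : v ∈ B
    · rcases hx.on v hv with h1 | h1
      · simp [hv, h1]
      · simp [hv, h1]
    · simp [hv, hx.off v hv]

theorem case2 {A : V → V → ℤ} {j : ℤ} (hG : Gr A j) (hj : 5 ≤ j) (hjo : Odd j) {t : ℚ}
    (ht : 2 * j * t = M2 A) (hbad : Bad A t) {h : V} {H N B : Finset V} (C : Conf h H N B)
    (hH : Even H.card) (hH2 : (H.card : ℤ) + 3 ≤ j)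
    (hN : (N.card = 0 ∧ H.card = 0) ∨ N.card = 1 ∨ N.card = 2)
    (hmin : ∀ a ∈ H, dg A h ≤ dg A a) (P x : V → ℤ)
    (hP : St H P) (hP0 : ∑ v, P v = 0) (hPQ : Q A P ≤ H.card)
    (hx : St B x) (hx0 : ∑ v, x v = 0)
    (hS : |(S (dg A) x : ℚ)| + |(S (dg A) P : ℚ)| ≤ SA A h N)
    (hopt : ∀ u ∈ B, ∀ v ∈ B, x u = 1 → x v = -1 →
        x u * L A x u + x v * L A x v + 2 * A u v ≤ 0) : False := by
  have hNc : N.card ≤ 2 := by rcases hN with h | h | h <;> omega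
  have s1 := star hG hbad C hNc P x hP hP0 hx hx0
  have s2 := star hG hbad C hNc P (-x) hP hP0 (St.neg' hx) (by simp [hx0])
  have hSx := abs_le.1 (show |(S (dg A) x : ℚ)| ≤ SA A h N - |(S (dg A) P : ℚ)| by linarith)
  have hPn := abs_nonneg (S (dg A) P : ℚ)
  have m1 : max |(SA A h N : ℚ) + S (dg A) x| |(S (dg A) P : ℚ)| =
      (SA A h N : ℚ) + S (dg A) x := by
    rw [abs_of_nonneg (by linarith), max_eq_left (by linarith)]
  have m2 : max |(SA A h N : ℚ) + S (dg A) (-x)| |(S (dg A) P : ℚ)| =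
      (SA A h N : ℚ) - S (dg A) x := by
    rw [S_neg]
    push_cast
    rw [abs_of_nonneg (by linarith), max_eq_left (by linarith)]
    ring
  rw [m1] at s1
  rw [m2, Q_neg] at s2
  obtain ⟨hXY, hB, hpat⟩ := St_eq_pat hx
  set X := B.filter fun v => x v = 1 with hX
  set Y := B.filter fun v => x v = -1 with hY
  have hcard : X.card = Y.card := by
    have : ∑ v, x v = (X.card : ℤ) - Y.card := by rw [hpat]; exact sum_pat hXY
    have h2 : (X.card : ℤ) = Y.card := by linarith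
    exact_mod_cast h2
  have C' : Conf h H N (X ∪ Y) := by rw [hB]; exact C
  have e1 : Q A x = (eS A X X - eS A X Y) + (eS A Y Y - eS A Y X) := by
    rw [hpat, Q_pat hXY]; unfold eS; ring
  have e2 : S (dg A) x = ∑ v ∈ X, dg A v - ∑ v ∈ Y, dg A v := by
    rw [hpat]; exact S_pat hXY _
  have e3 : ∑ v, x v * L A (pat {h} N) v =
      (eS A {h} X - eS A X N) - (eS A {h} Y - eS A Y N) := by
    have h1 : ∑ v, x v * L A (pat {h} N) v = ∑ v, (A v h - ∑ w ∈ N, A v w) * pat X Y v := by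
      rw [← hpat]
      exact Finset.sum_congr rfl fun v _ => by rw [L_patA C.hN]; ring
    rw [h1, sum_pat_mul hXY]
    simp only [Finset.sum_sub_distrib, sum_h hG]
    rfl
  have e4 : ∑ v, (-x) v * L A (pat {h} N) v =
      -((eS A {h} X - eS A X N) - (eS A {h} Y - eS A Y N)) := by
    rw [← e3, ← Finset.sum_neg_distrib]
    exact Finset.sum_congr rfl fun v _ => by simp
  rw [e3] at s1
  rw [e4] at s2
  rw [e1, Q_patA hG C.hN, e2] at s1 s2
  obtain ⟨f1, f2, f3, f4, f5, f6⟩ := case2_facts hG ht C' hXY hmin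
  have g1 := f5 X Y (Or.inl ⟨rfl, rfl⟩)
  have g2 := f5 Y X (Or.inr ⟨rfl, rfl⟩)
  rw [g1, g2] at s1 s2
  have g3 : (SA A h N : ℚ) = (dg A h : ℚ) - ((∑ v ∈ N, dg A v : ℤ) : ℚ) := by
    unfold SA; push_cast; ring
  rw [g3, f2, f3] at s1 s2
  -- local optimality
  have haX : ∀ u ∈ X, ain A X Y u = x u * L A x u := by
    intro u hu
    have h1 : x u = 1 := (Finset.mem_filter.1 hu).2
    rw [h1, one_mul]
    unfold ain
    rw [← L_pat hXY A u, ← hpat]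
  have haY : ∀ u ∈ Y, ain A Y X u = x u * L A x u := by
    intro u hu
    have h1 : x u = -1 := (Finset.mem_filter.1 hu).2
    rw [h1]
    unfold ain
    have h2 : L A x u = ∑ w ∈ X, A u w - ∑ w ∈ Y, A u w := by
      rw [← L_pat hXY A u, ← hpat]
    rw [h2]; ring
  have hopt' : ∀ u ∈ X, ∀ v ∈ Y, ain A X Y u + ain A Y X v + 2 * A u v ≤ 0 := by
    intro u hu v hv
    rw [haX u hu, haY v hv]
    exact hopt u (Finset.mem_filter.1 hu).1 v (Finset.mem_filter.1 hv).1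
      (Finset.mem_filter.1 hu).2 (Finset.mem_filter.1 hv).2
  by_cases hYp : ∃ v0 ∈ Y, 1 ≤ ain A Y X v0
  · obtain ⟨v0, hv0, h0⟩ := hYp
    refine case2b_core hG hj hjo ht C' hXY hcard hH hH2 hN hmin (Q A P) hPQ hopt' v0 hv0 h0 ?_ ?_
    · push_cast at s1 ⊢
      linarith
    · push_cast at s2 ⊢
      linarith
  by_cases hXp : ∃ v0 ∈ X, 1 ≤ ain A X Y v0
  · obtain ⟨v0, hv0, h0⟩ := hXp
    have C'' : Conf h H N (Y ∪ X) := by rw [Finset.union_comm]; exact C'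
    refine case2b_core hG hj hjo ht C'' hXY.symm hcard.symm hH hH2 hN hmin (Q A P) hPQ ?_ v0 hv0
      h0 ?_ ?_
    · intro u hu v hv
      have := hopt' v hv u hu
      rw [hG.symm u v]
      linarith
    · push_cast at s2 ⊢
      linarith
    · push_cast at s1 ⊢
      linarith
  push Not at hYp hXp
  refine case2a_core hG hj hjo ht C' hXY hH hH2 hN hmin (Q A P) hPQ hopt' (fun u hu => ?_)
    (fun v hv => ?_) ?_
  · have := hXp u hu; linarith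
  · have := hYp v hv; linarith
  · push_cast at s1 s2 ⊢
    linarith

end Pool.Agent.Helper60.Bis
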