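import Pool.Agent.Helper60.Bis.Base

set_option linter.unusedSectionVars false

/-!
# Configurations: hub `h`, other hubs `H`, opposite vertices `N`, rest `B`
-/

namespace Pool.Agent.Helper60.Bis

open Finset Pool.Agent.Helper29.Bisect

variable {V : Type*} [Fintype V] [DecidableEq V]

/-- a partition of the vertex set into `{h}`, `H`, `N`, `B` -/
structure Conf (h : V) (H N B : Finset V) : Prop where
  hH : h ∉ H
  hN : h ∉ N
  hB : h ∉ B
  HN : Disjoint H N
  HB : Disjoint H B
  NB : Disjoint N B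
  cov : ∀ v, v = h ∨ v ∈ H ∨ v ∈ N ∨ v ∈ B

/-- the surplus `S_A = d_h - d(N)` -/
def SA (A : V → V → ℤ) (h : V) (N : Finset V) : ℤ := dg A h - ∑ v ∈ N, dg A v

end Pool.Agent.Helper60.Bis
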