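import Pool.Agent.Helper60.Bis.Base

set_option linter.unusedSectionVars false

/-!
# The hub block
-/

namespace Pool.Agent.Helper60.Bis

open Finset Pool.Agent.Helper29.Bisect

variable {V : Type*} [Fintype V] [DecidableEq V]

private theorem L_add (W : V → V → ℤ) (ε δ : V → ℤ) (a : V) :
    L W (ε + δ) a = L W ε a + L W δ a := by
  unfold L
  rw [← Finset.sum_add_distrib]
  exact Finset.sum_congr rfl fun y _ => by simp only [Pi.add_apply]; ring

/-- the unsigned gap of a pair -/
private def gp (d : V → ℤ) (e : V × V) : ℤ := |d e.1 - d e.2|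

private theorem exists_sign (z : ℤ) : ∃ σ : ℤ, (σ = 1 ∨ σ = -1) ∧ σ * z = |z| := by
  rcases le_total 0 z with h | h
  · exact ⟨1, Or.inl rfl, by rw [abs_of_nonneg h]; ring⟩
  · exact ⟨-1, Or.inr rfl, by rw [abs_of_nonpos h]; ring⟩

/-- adding one couple of pairs -/
private theorem couple {A : V → V → ℤ} {j : ℤ} (hG : Gr A j) (U : Finset V) (x : V → ℤ)
    (hx : St U x) (e f : V × V) (hnd : (flat [e, f]).Nodup) (hdis : ∀ v ∈ flat [e, f], v ∉ U) :
    ∃ x' : V → ℤ, St (insert f.1 (insert f.2 (insert e.1 (insert e.2 U)))) x' ∧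
      ∑ v, x' v = ∑ v, x v ∧
      |S (dg A) x'| ≤ |S (dg A) x| + |gp (dg A) e - gp (dg A) f| ∧ Q A x' ≤ Q A x + 4 := by
  obtain ⟨a, b⟩ := e
  obtain ⟨c, d⟩ := f
  simp only [flat_cons, flat_nil, List.nodup_cons, List.mem_cons, List.not_mem_nil, or_false,
    not_or, not_false_eq_true, List.nodup_nil, and_true] at hnd hdis
  obtain ⟨⟨hab, hac, had⟩, ⟨hbc, hbd⟩, hcd⟩ := hnd
  have haU := hdis a (by simp)
  have hbU := hdis b (by simp)
  have hcU := hdis c (by simp)
  have hdU := hdis d (by simp)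
  obtain ⟨σ, hσ, hσ'⟩ := exists_sign (dg A a - dg A b)
  obtain ⟨ρ, hρ, hρ'⟩ := exists_sign (dg A c - dg A d)
  obtain ⟨τ, hτ, hτ'⟩ : ∃ τ : ℤ, (τ = 1 ∨ τ = -1) ∧
      τ * (σ * (L A x a - L A x b) - ρ * (L A x c - L A x d)) ≤ 0 := by
    rcases le_total 0 (σ * (L A x a - L A x b) - ρ * (L A x c - L A x d)) with h | h
    · exact ⟨-1, Or.inr rfl, by linarith⟩
    · exact ⟨1, Or.inl rfl, by linarith⟩
  have h1 : τ * σ = 1 ∨ τ * σ = -1 := by
    rcases hτ with rfl | rfl <;> rcases hσ with rfl | rfl <;> simp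
  have h2 : -(τ * ρ) = 1 ∨ -(τ * ρ) = -1 := by
    rcases hτ with rfl | rfl <;> rcases hρ with rfl | rfl <;> simp
  have s1 := hx.add_pr (a := a) (b := b) hab haU hbU h1
  have s2 := s1.add_pr (a := c) (b := d) hcd (by simp [hcU, Ne.symm hac, Ne.symm hbc])
    (by simp [hdU, Ne.symm had, Ne.symm hbd]) h2
  refine ⟨_, s2, ?_, ?_, ?_⟩
  · simp only [Pi.add_apply, Finset.sum_add_distrib, sum_pr, add_zero]
  · rw [S_add, S_add, S_pr, S_pr]
    have h3 : S (dg A) x + τ * σ * (dg A a - dg A b) + -(τ * ρ) * (dg A c - dg A d) =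
        S (dg A) x + τ * (gp (dg A) (a, b) - gp (dg A) (c, d)) := by
      simp only [gp]
      rw [← hσ', ← hρ']; ring
    rw [h3]
    refine (abs_add_le _ _).trans ?_
    rw [abs_mul]
    have : |τ| = 1 := by rcases hτ with rfl | rfl <;> simp
    rw [this, one_mul]
  · rw [Q_add_pr A hG.symm hG.diag _ c d _ h2, Q_add_pr A hG.symm hG.diag _ a b _ h1, L_add, L_add,
      L_pr, L_pr]
    have n1 := hG.nonneg a b
    have n2 := hG.nonneg c d
    have m1 := hG.nonneg c a
    have m2 := hG.nonneg c b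
    have m3 := hG.nonneg d a
    have m4 := hG.nonneg d b
    have l1 := hG.le_one c a
    have l2 := hG.le_one c b
    have l3 := hG.le_one d a
    have l4 := hG.le_one d b
    rcases hτ with rfl | rfl <;> rcases hσ with rfl | rfl <;> rcases hρ with rfl | rfl <;>
      simp only [one_mul, neg_mul, neg_neg] at hτ' ⊢ <;> linarith

private theorem hub_sorted {A : V → V → ℤ} {j : ℤ} (hG : Gr A j) : ∀ (n : ℕ) (l : List (V × V)),
    l.length ≤ n → l.Pairwise (fun e f => gp (dg A) f ≤ gp (dg A) e) → (flat l).Nodup →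
    ∃ P : V → ℤ, St (flat l).toFinset P ∧ ∑ v, P v = 0 ∧
      (∀ γ : ℤ, 0 ≤ γ → (∀ e ∈ l, gp (dg A) e ≤ γ) → |S (dg A) P| ≤ γ) ∧
      Q A P ≤ 4 * ((l.length / 2 : ℕ) : ℤ) := by
  intro n
  induction n using Nat.strong_induction_on with
  | _ n ih =>
  intro l hl hs hnd
  match l, hl, hs, hnd with
  | [], _, _, _ =>
    refine ⟨0, by simpa using St.zero, by simp, ?_, by simp [Q]⟩
    intro γ hγ _
    simpa [S] using hγ
  | [e], _, _, hnd =>
    have hnd' := hnd
    simp only [flat_cons, flat_nil, List.nodup_cons, List.mem_cons, List.not_mem_nil, or_false]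
      at hnd'
    have s := St.zero.add_pr (a := e.1) (b := e.2) hnd'.1 (by simp) (by simp)
      (Or.inl rfl : (1 : ℤ) = 1 ∨ (1 : ℤ) = -1)
    refine ⟨(0 : V → ℤ) + pr e.1 e.2 1, ?_, ?_, ?_, ?_⟩
    · have : (flat [e]).toFinset = insert e.1 (insert e.2 ∅) := by ext; simp
      rw [this]; exact s
    · simp only [Pi.add_apply, Finset.sum_add_distrib, sum_pr]; simp
    · intro γ _ h
      have := h e (by simp)
      rw [S_add, S_pr]
      simpa [S, gp] using this
    · rw [Q_add_pr A hG.symm hG.diag _ _ _ _ (Or.inl rfl)]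
      have n1 := hG.nonneg e.1 e.2
      have q0 : Q A (0 : V → ℤ) = 0 := by simp [Q]
      have l0 : ∀ v, L A (0 : V → ℤ) v = 0 := fun v => by simp [L]
      rw [q0, l0, l0]
      simp
      exact n1
  | e :: f :: l, hl, hs, hnd =>
    simp only [List.length_cons] at hl
    have hs' := (List.pairwise_cons.1 (List.pairwise_cons.1 hs).2).2
    have hef := (List.pairwise_cons.1 hs).1 f (by simp)
    have hfl := (List.pairwise_cons.1 (List.pairwise_cons.1 hs).2).1
    have hnd2 := hnd
    simp only [flat_cons, List.nodup_cons, List.mem_cons, not_or] at hnd2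
    obtain ⟨⟨h12, h13, h14, h1l⟩, ⟨h23, h24, h2l⟩, ⟨h34, h3l⟩, h4l, hndl⟩ := hnd2
    obtain ⟨P, p1, p2, p3, p4⟩ := ih (n - 2) (by omega) l (by omega) hs' hndl
    obtain ⟨P', q1, q2, q3, q4⟩ := couple hG (flat l).toFinset P p1 e f
      (by simp [h12, h13, h14, h23, h24, h34])
      (by
        intro v hv
        simp only [flat_cons, flat_nil, List.mem_cons, List.not_mem_nil, or_false] at hv
        rw [List.mem_toFinset]
        rcases hv with rfl | rfl | rfl | rfl <;> assumption)
    refine ⟨P', ?_, by rw [q2, p2], ?_, ?_⟩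
    · have : (flat (e :: f :: l)).toFinset =
          insert f.1 (insert f.2 (insert e.1 (insert e.2 (flat l).toFinset))) := by
        ext v; simp only [flat_cons, List.toFinset_cons, Finset.mem_insert]; tauto
      rw [this]; exact q1
    · intro γ hγ h
      have h5 := h e (by simp)
      have h6 : |S (dg A) P| ≤ gp (dg A) f := p3 _ (abs_nonneg _) hfl
      rw [abs_of_nonneg (by linarith : (0 : ℤ) ≤ gp (dg A) e - gp (dg A) f)] at q3
      linarith
    · have : (e :: f :: l).length / 2 = l.length / 2 + 1 := by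
        simp only [List.length_cons]; omega
      rw [this, Nat.cast_add, Nat.cast_one]; linarith

private theorem flat_perm {l l' : List (V × V)} (h : l.Perm l') : (flat l).Perm (flat l') :=
  h.flatMap_right _

/-- A list of disjoint pairs can be oriented so that the total degree difference is at most the
largest gap, at a small cost for `Q`.  (Sort by gap; `P = (p₁ - p₂) ± (p₃ - p₄) ± …` with the
signs of the couples chosen greedily for `Q`; the gaps telescope.) -/
theorem hub_block {A : V → V → ℤ} {j : ℤ} (hG : Gr A j) (l : List (V × V))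
    (hnd : (flat l).Nodup) :
    ∃ P : V → ℤ, St (flat l).toFinset P ∧ ∑ v, P v = 0 ∧
      (∀ γ : ℚ, 0 ≤ γ → (∀ e ∈ l, |(dg A e.1 : ℚ) - dg A e.2| ≤ γ) → |(S (dg A) P : ℚ)| ≤ γ) ∧
      Q A P ≤ 4 * ((l.length / 2 : ℕ) : ℤ) := by
  classical
  let r : V × V → V × V → Prop := fun e f => gp (dg A) f ≤ gp (dg A) e
  have : IsTrans _ r := ⟨fun a b c h1 h2 => le_trans h2 h1⟩
  have : Std.Total r := ⟨fun a b => le_total _ _⟩
  have hperm := List.perm_insertionSort r l
  have hsort := List.pairwise_insertionSort r l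
  have hfp := flat_perm hperm
  obtain ⟨P, p1, p2, p3, p4⟩ := hub_sorted hG _ (l.insertionSort r) le_rfl hsort
    (hfp.symm.nodup hnd)
  refine ⟨P, ?_, p2, ?_, ?_⟩
  · rw [List.toFinset_eq_of_perm _ _ hfp] at p1; exact p1
  · intro γ hγ h
    have hf : |S (dg A) P| ≤ ⌊γ⌋ := by
      apply p3 _ (Int.floor_nonneg.2 hγ)
      intro e he
      rw [Int.le_floor]
      have := h e (hperm.mem_iff.1 he)
      unfold gp
      push_cast
      exact this
    have h7 : ((|S (dg A) P| : ℤ) : ℚ) ≤ (⌊γ⌋ : ℚ) := by exact_mod_cast hf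
    rw [Int.cast_abs] at h7
    exact h7.trans (Int.floor_le γ)
  · rw [hperm.length_eq] at p4; exact p4

end Pool.Agent.Helper60.Bis
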