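import Pool.Agent.Helper60.Bis.Window
import Pool.Agent.Helper60.Bis.Case1
import Pool.Agent.Helper60.Bis.Case2

set_option linter.unusedSectionVars false

/-!
# The dense case: `n` odd and all degrees larger than `m / j`
-/

namespace Pool.Agent.Helper60.Bis

open Finset Pool.Agent.Helper29.Bisect

variable {V : Type*} [Fintype V] [DecidableEq V]

private theorem p2_dg_le {A : V → V → ℤ} {j : ℤ} (hG : Gr A j) (a : V) :
    dg A a ≤ Fintype.card V - 1 := by
  unfold dg
  rw [← Finset.sum_erase_add _ _ (Finset.mem_univ a), hG.diag, add_zero]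
  calc ∑ b ∈ Finset.univ.erase a, A a b ≤ ∑ b ∈ Finset.univ.erase a, (1 : ℤ) :=
        Finset.sum_le_sum fun b _ => hG.le_one a b
    _ = Fintype.card V - 1 := by
        rw [Finset.sum_const, Finset.card_erase_of_mem (Finset.mem_univ a), Finset.card_univ]
        have : 1 ≤ Fintype.card V := Fintype.card_pos_iff.2 ⟨a⟩
        simp only [nsmul_eq_mul, mul_one]
        omega

theorem part2 {A : V → V → ℤ} {j : ℤ} (hG : Gr A j) (hj : 5 ≤ j) (hjo : Odd j) {t : ℚ}
    (ht : 2 * j * t = M2 A) (hbad : Bad A t) (hodd : Odd (Fintype.card V))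
    (hD : ∀ v, t < dg A v) : False := by
  classical
  have hV : (Finset.univ : Finset V).Nonempty := by
    rw [← Finset.card_pos, Finset.card_univ]; exact hodd.pos
  obtain ⟨h, -, hmin⟩ := Finset.exists_min_image Finset.univ (dg A) hV
  have hmin' : ∀ v, dg A h ≤ dg A v := fun v => hmin v (Finset.mem_univ v)
  set n : ℤ := (Fintype.card V : ℤ) with hn
  set D : ℤ := dg A h with hDdef
  set B : Finset V := Finset.univ.erase h with hB
  have hmemB : ∀ v, v ∈ B ↔ v ≠ h := by intro v; simp [hB]
  have hBc : (B.card : ℤ) = n - 1 := by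
    rw [hB, Finset.card_erase_of_mem (Finset.mem_univ h), Finset.card_univ]
    have := hodd.pos
    omega
  have hBeven : Even B.card := by
    obtain ⟨k, hk⟩ := hodd
    have : B.card = 2 * k := by omega
    exact ⟨k, by omega⟩
  have hDj : j - 1 ≤ D := hG.deg h
  have hDn : D ≤ n - 1 := p2_dg_le hG h
  have hjq : (5 : ℚ) ≤ j := by exact_mod_cast hj
  have htD : t < D := hD h
  -- n D ≤ M2
  have hM2 : M2 A = n * D + ∑ v ∈ B, (dg A v - D) := by
    have h1 : M2 A = ∑ v ∈ B, dg A v + D := by
      unfold M2
      rw [← Finset.sum_erase_add _ _ (Finset.mem_univ h)]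
    rw [h1, Finset.sum_sub_distrib, Finset.sum_const, nsmul_eq_mul, hBc]; ring
  have hsn : 0 ≤ ∑ v ∈ B, (dg A v - D) := Finset.sum_nonneg fun v _ => by linarith [hmin' v]
  have hM2lt : M2 A < 2 * j * D := by
    have : (M2 A : ℚ) < 2 * j * D := by
      rw [← ht]
      exact mul_lt_mul_of_pos_left htD (by linarith)
    exact_mod_cast this
  have hn2j : n < 2 * j := by
    have h1 : n * D < 2 * j * D := by linarith
    exact lt_of_mul_lt_mul_right h1 (by linarith)
  -- extreme vertices of B
  have hBne : B.Nonempty := Finset.card_pos.1 (by omega)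
  obtain ⟨v1, hv1B, hv1⟩ := Finset.exists_max_image B (dg A) hBne
  have hBne' : (B.erase v1).Nonempty := Finset.card_pos.1 (by
    rw [Finset.card_erase_of_mem hv1B]; omega)
  obtain ⟨w, hwB', hw⟩ := Finset.exists_min_image (B.erase v1) (dg A) hBne'
  have hwv : w ≠ v1 := Finset.ne_of_mem_erase hwB'
  have hwB : w ∈ B := Finset.mem_of_mem_erase hwB'
  have hwmin : ∀ v ∈ B, dg A w ≤ dg A v := by
    intro v hv
    by_cases hvv : v = v1
    · rw [hvv]; exact hv1 w hwB
    · exact hw v (Finset.mem_erase.2 ⟨hvv, hv⟩)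
  set yz : ℤ := dg A v1 - dg A w with hyz
  have hyz0 : 0 ≤ yz := by have := hv1 w hwB; linarith
  have hyzn : yz ≤ n - 1 - D := by
    have h1 := p2_dg_le hG v1
    have h2 := hmin' w
    rw [hyz]; linarith
  have hydiff : ∀ u ∈ B, ∀ v ∈ B, (dg A u : ℚ) - dg A v ≤ (yz : ℚ) := by
    intro u hu v hv
    have h1 := hv1 u hu
    have h2 := hwmin v hv
    have : dg A u - dg A v ≤ yz := by rw [hyz]; linarith
    exact_mod_cast this
  have C : Conf h ∅ ∅ B := by
    refine ⟨by simp, by simp, by simp [hmemB], by simp, by simp, by simp, ?_⟩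
    intro v
    by_cases hv : v = h
    · exact Or.inl hv
    · exact Or.inr (Or.inr (Or.inr ((hmemB v).2 hv)))
  have hSA : SA A h ∅ = D := by simp [SA, hDdef]
  have hQ0 : Q A (0 : V → ℤ) = 0 := by simp [Q]
  have hS0 : S (dg A) (0 : V → ℤ) = 0 := by simp [S]
  rcases window hG B hBeven (D : ℚ) 0 (yz : ℚ) le_rfl (by exact_mod_cast hyz0) hydiff (by
      have : yz ≤ D := by linarith
      have h2 : (yz : ℚ) ≤ D := by exact_mod_cast this
      linarith) with ⟨x, x1, x2, x3, x4⟩ | ⟨z, z1, z2, z3, z4, z', z1', z2', z3'⟩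
  · refine case2 hG hj hjo ht hbad C (by simp) (by simp; linarith) (Or.inl ⟨by simp, by simp⟩)
      (by simp) 0 x (by simpa using St.zero) (by simp) (by rw [hQ0]; simp) x1 x2 ?_ x4
    rw [hS0, hSA]
    simpa using x3
  · rw [sub_zero] at z3'
    -- sum of excesses
    have hex : D + 1 ≤ ∑ v ∈ B, (dg A v - D) := by
      have h1 : S (dg A) z' = ∑ v ∈ B, (dg A v - D) * z' v := by
        have h2 : ∑ v, (dg A v - D) * z' v = ∑ v ∈ B, (dg A v - D) * z' v := by
          symm
          apply Finset.sum_subset (Finset.subset_univ B)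
          intro v _ hv
          rw [z1'.off v hv, mul_zero]
        rw [← h2]
        simp only [sub_mul, Finset.sum_sub_distrib, ← Finset.mul_sum, z2']
        unfold S; ring
      have h3 : |S (dg A) z'| ≤ ∑ v ∈ B, (dg A v - D) := by
        rw [h1]
        refine (Finset.abs_sum_le_sum_abs _ _).trans (Finset.sum_le_sum fun v hv => ?_)
        rw [abs_mul]
        have h4 : |z' v| = 1 := by rcases z1'.on v hv with h | h <;> rw [h] <;> simp
        rw [h4, mul_one, abs_of_nonneg (by linarith [hmin' v])]
      have h5 : D < |S (dg A) z'| := by exact_mod_cast z3'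
      linarith
    have hM2' : (n + 1) * D + 1 ≤ M2 A := by rw [hM2]; linarith
    have hn1 : n + 1 < 2 * j := by
      have h1 : (n + 1) * D < 2 * j * D := by linarith
      exact lt_of_mul_lt_mul_right h1 (by linarith)
    obtain ⟨kn, hkn⟩ := hodd
    obtain ⟨kj, hkj⟩ := hjo
    have hkn' : n = 2 * (kn : ℤ) + 1 := by rw [hn, hkn]; push_cast; ring
    have hn3 : n ≤ 2 * j - 3 := by omega
    have hnj : n ≠ j := by
      intro hnj
      have h1 : ∑ v ∈ B, (dg A v - D) ≤ 0 :=
        Finset.sum_nonpos fun v _ => by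
          have := p2_dg_le hG v
          have h2 : (Fintype.card V : ℤ) = n := hn.symm
          linarith
      linarith
    have hnj2 : j + 2 ≤ n := by
      have h1 : j ≤ n := by linarith
      omega
    -- case1
    have hc1 := (case1 hG hbad C (by simp) 0 z (by simpa using St.zero) (by simp) z1 z2 z3
      (yz : ℚ) (by
        rw [hSA]
        have : max (yz : ℚ) 0 = yz := max_eq_left (by exact_mod_cast hyz0)
        rw [this] at z4
        exact z4) (by rw [hS0]; simpa using hyz0)).1
    rw [hSA, hQ0] at hc1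
    have hBq : (B.card : ℚ) = n - 1 := by exact_mod_cast hBc
    rw [hBq] at hc1
    simp only [Finset.card_empty, Nat.cast_zero, add_zero, Int.cast_zero, zero_div] at hc1
    -- alternative pairing
    have hyt : (yz : ℚ) < D + 1 - t := by
      by_contra hcon
      push Not at hcon
      have hMq : ((n : ℚ) + 1) * D + 1 ≤ 2 * j * t := by
        rw [ht]; exact_mod_cast hM2'
      have hDjq : (j : ℚ) - 1 ≤ D := by exact_mod_cast hDj
      have hnq : (n : ℚ) ≤ 2 * j - 3 := by exact_mod_cast hn3
      have hnjq : (j : ℚ) + 2 ≤ n := by exact_mod_cast hnj2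
      have hynq : (yz : ℚ) ≤ n - 1 - D := by exact_mod_cast hyzn
      have e1 : (D : ℚ) + 2 ≤ 2 * t := by
        have h1 : (j : ℚ) * (D + 2) ≤ j * (2 * t) := by
          nlinarith [mul_nonneg (show (0:ℚ) ≤ n - j - 2 by linarith) (show (0:ℚ) ≤ D by linarith)]
        exact le_of_mul_le_mul_left h1 (by linarith)
      have e2 : (yz : ℚ) + 1 ≤ t := by
        have h1 : (2 * j : ℚ) * (n - D) ≤ 2 * j * t := by
          nlinarith [mul_nonneg (show (0:ℚ) ≤ n + 1 + 2 * j by linarith)
            (show (0:ℚ) ≤ D - (j - 1) by linarith),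
            mul_nonneg (show (0:ℚ) ≤ 2 * j - 3 - n by linarith)
            (show (0:ℚ) ≤ j + 1 by linarith)]
        have h2 := le_of_mul_le_mul_left h1 (by linarith)
        linarith
      have hv1h : v1 ≠ h := (hmemB v1).1 hv1B
      have hwh : w ≠ h := (hmemB w).1 hwB
      set R : Finset V := (B.erase v1).erase w with hR
      have hRc : R.card = 2 * (kn - 1) := by
        rw [hR, Finset.card_erase_of_mem hwB', Finset.card_erase_of_mem hv1B]
        omega
      obtain ⟨l, l1, l2, l3⟩ := pairing' (dg A) (kn - 1) R hRc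
      have hgs : (gaps (dg A) l).sum ≤ yz := by
        have h1 := l3 (dg A w : ℚ) (dg A v1 : ℚ) (by exact_mod_cast hv1 w hwB) (fun v hv => by
          have hvB : v ∈ B := Finset.mem_of_mem_erase (Finset.mem_of_mem_erase hv)
          exact ⟨by exact_mod_cast hwmin v hvB, by exact_mod_cast hv1 v hvB⟩)
        rw [hyz]; push_cast; exact h1
      have hdisj : Disjoint ({h, w} : Finset V) {v1} := by
        simp [hv1h, Ne.symm hwv]
      have hpat : (∑ v ∈ ({h, w} : Finset V), dg A v - ∑ v ∈ ({v1} : Finset V), dg A v : ℤ) =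
          D - yz := by
        rw [Finset.sum_insert (by simp [Ne.symm hwh]), Finset.sum_singleton,
          Finset.sum_singleton, hyz]; ring
      have hDy : |((D - yz : ℤ) : ℚ)| = (D : ℚ) - yz := by
        rw [abs_of_nonneg]
        · push_cast; ring
        · have : yz ≤ D := by linarith
          exact_mod_cast (by linarith : 0 ≤ D - yz)
      have key := alt hG hbad (P := {h, w}) (N := {v1}) hdisj (by
          rw [Finset.card_insert_of_notMem (by simp [Ne.symm hwh]), Finset.card_singleton,
            Finset.card_singleton]; norm_num) l l1 (by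
          intro v hv
          have hvR : v ∈ R := by rw [← l2]; simpa using hv
          simp only [hR, hB, Finset.mem_erase, Finset.mem_univ, and_true] at hvR
          simp [hvR.1, hvR.2.1, hvR.2.2]) (by
          ext v
          rw [l2]
          simp only [Finset.mem_union, Finset.mem_insert, Finset.mem_singleton, hR, hB,
            Finset.mem_erase, Finset.mem_univ, and_true, iff_true]
          tauto) (t - 1) (by
          rw [hpat, hDy]; linarith) (by
          intro e he
          have h1 : |(dg A e.1 : ℚ) - dg A e.2| ∈ gaps (dg A) l := by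
            simp only [gaps, List.mem_map]; exact ⟨e, he, rfl⟩
          have h2 := List.single_le_sum (gaps_nonneg (dg A) l) _ h1
          linarith) (by
          rw [hpat, hDy]; linarith)
      rw [Finset.card_insert_of_notMem (by simp [Ne.symm hwh]), Finset.card_singleton,
        Finset.card_singleton] at key
      norm_num at key
      linarith
    rcases lt_or_ge D j with hlt | hge
    · have hDe : D = j - 1 := by omega
      -- write n = j + s
      obtain ⟨s, hs⟩ : ∃ s : ℤ, n = j + 2 * s := ⟨kn - kj, by omega⟩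
      have hs1 : 1 ≤ s := by omega
      have hs2 : 2 * s ≤ j - 3 := by omega
      have hMq : ((n : ℚ) + 1) * D + 1 ≤ 2 * j * t := by
        rw [ht]; exact_mod_cast hM2'
      have hsq : (n : ℚ) = j + 2 * s := by exact_mod_cast hs
      have hDq : (D : ℚ) = j - 1 := by exact_mod_cast hDe
      rw [hsq, hDq] at hMq
      have hs1q : (1 : ℚ) ≤ s := by exact_mod_cast hs1
      have hs2q : (2 : ℚ) * s ≤ j - 3 := by exact_mod_cast hs2
      -- lower bound for t
      have ht2 : ((j : ℚ) + 2 * s - 1) < 2 * t := by
        have h1 : (j : ℚ) * (j + 2 * s - 1) < j * (2 * t) := by nlinarith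
        exact lt_of_mul_lt_mul_left h1 (by linarith)
      have hy2 : 2 * yz ≤ j - 2 * s - 1 := by
        have h1 : (2 : ℚ) * yz < j - 2 * s + 1 := by
          rw [hDq] at hyt; linarith
        have h2 : 2 * yz < j - 2 * s + 1 := by exact_mod_cast h1
        omega
      have hy2q : (2 : ℚ) * yz ≤ j - 2 * s - 1 := by exact_mod_cast hy2
      rw [hsq, hDq] at hc1
      linarith
    · have hgeq : (j : ℚ) ≤ D := by exact_mod_cast hge
      have hnq : (j : ℚ) + 2 ≤ n := by exact_mod_cast hnj2
      have hMq : ((n : ℚ) + 1) * D + 1 ≤ 2 * j * t := by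
        rw [ht]; exact_mod_cast hM2'
      have h1 : (j : ℚ) * n ≤ j * (2 * t) := by
        nlinarith [mul_nonneg (show (0:ℚ) ≤ n by linarith) (show (0:ℚ) ≤ D - j by linarith)]
      have h2 := le_of_mul_le_mul_left h1 (by linarith)
      linarith

end Pool.Agent.Helper60.Bis
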