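import Pool.Agent.Helper60.Bis.Conf
import Pool.Agent.Helper60.Bis.Hub

set_option linter.unusedSectionVars false

/-!
# Part 3A: choice of the data and the alternatives
-/

namespace Pool.Agent.Helper60.Bis

open Finset Pool.Agent.Helper29.Bisect

variable {V : Type*} [Fintype V] [DecidableEq V]

namespace P3A

theorem exists_max_list (l : List ℚ) (hl : ∀ a ∈ l, 0 ≤ a) :
    ∃ γ : ℚ, 0 ≤ γ ∧ (∀ a ∈ l, a ≤ γ) ∧ (γ = 0 ∨ γ ∈ l) := by
  induction l with
  | nil => exact ⟨0, le_rfl, by simp, Or.inl rfl⟩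
  | cons a l ih =>
    obtain ⟨γ, h1, h2, h3⟩ := ih (fun b hb => hl b (by simp [hb]))
    rcases le_total a γ with h | h
    · refine ⟨γ, h1, ?_, ?_⟩
      · intro b hb
        rcases List.mem_cons.1 hb with rfl | hb
        · exact h
        · exact h2 b hb
      · rcases h3 with h3 | h3
        · exact Or.inl h3
        · exact Or.inr (List.mem_cons_of_mem _ h3)
    · refine ⟨a, hl a (by simp), ?_, Or.inr (by simp)⟩
      intro b hb
      rcases List.mem_cons.1 hb with rfl | hb
      · exact le_rfl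
      · exact (h2 b hb).trans h

theorem gaps_append (d : V → ℤ) (l1 l2 : List (V × V)) :
    gaps d (l1 ++ l2) = gaps d l1 ++ gaps d l2 := by simp [gaps]

theorem flat_append (l1 l2 : List (V × V)) : flat (l1 ++ l2) = flat l1 ++ flat l2 := by
  simp [flat]

/-- the alternative lemma with two lists of pairs -/
theorem alt2 {A : V → V → ℤ} {j : ℤ} (hG : Gr A j) {t : ℚ} (hbad : Bad A t) {P N R1 R2 : Finset V}
    (hPN : Disjoint P N) (hcard : |(P.card : ℤ) - N.card| ≤ 1) (l1 l2 : List (V × V))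
    (hnd1 : (flat l1).Nodup) (hnd2 : (flat l2).Nodup)
    (hl1 : (flat l1).toFinset = R1) (hl2 : (flat l2).toFinset = R2)
    (hdis1 : ∀ v ∈ R1, v ∉ R2 ∧ v ∉ P ∧ v ∉ N) (hdis2 : ∀ v ∈ R2, v ∉ P ∧ v ∉ N)
    (hcov : ∀ v, v ∈ P ∨ v ∈ N ∨ v ∈ R1 ∨ v ∈ R2) (C s1 s2 : ℚ)
    (h1 : |((∑ v ∈ P, dg A v - ∑ v ∈ N, dg A v : ℤ) : ℚ)| ≤ C)
    (h2 : ∀ e ∈ l1, |(dg A e.1 : ℚ) - dg A e.2| ≤ C)
    (h2' : ∀ e ∈ l2, |(dg A e.1 : ℚ) - dg A e.2| ≤ C)
    (hs1 : (gaps (dg A) l1).sum ≤ s1) (hs2 : (gaps (dg A) l2).sum ≤ s2)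
    (h3 : |((∑ v ∈ P, dg A v - ∑ v ∈ N, dg A v : ℤ) : ℚ)| + s1 + s2 ≤ 2 * C) :
    2 * t < (P.card : ℚ) * (P.card - 1) + (N.card : ℚ) * (N.card - 1) + 2 * C := by
  have m1 : ∀ v, v ∈ flat l1 ↔ v ∈ R1 := fun v => by rw [← hl1, List.mem_toFinset]
  have m2 : ∀ v, v ∈ flat l2 ↔ v ∈ R2 := fun v => by rw [← hl2, List.mem_toFinset]
  refine alt hG hbad hPN hcard (l1 ++ l2) ?_ ?_ ?_ C h1 ?_ ?_
  · rw [flat_append, List.nodup_append]
    refine ⟨hnd1, hnd2, ?_⟩
    intro a ha b hb hab
    subst hab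
    exact (hdis1 a ((m1 a).1 ha)).1 ((m2 a).1 hb)
  · intro v hv
    rw [flat_append, List.mem_append, m1, m2] at hv
    rw [mem_union]
    rcases hv with hv | hv
    · have := hdis1 v hv; tauto
    · have := hdis2 v hv; tauto
  · ext v
    simp only [flat_append, List.toFinset_append, mem_union, List.mem_toFinset, m1, m2, mem_univ,
      iff_true]
    have := hcov v
    tauto
  · intro e he
    rcases List.mem_append.1 he with he | he
    · exact h2 e he
    · exact h2' e he
  · rw [gaps_append, List.sum_append]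
    linarith

theorem M2_ge {A : V → V → ℤ} (T : Finset V) (D : ℤ) (hD : ∀ v, D ≤ dg A v) :
    ∑ v ∈ T, dg A v + ((Fintype.card V : ℤ) - T.card) * D ≤ M2 A := by
  have h1 : M2 A = ∑ v ∈ T, dg A v + ∑ v ∈ Tᶜ, dg A v := by
    unfold M2; rw [Finset.sum_add_sum_compl]
  have h2 : ∑ _v ∈ Tᶜ, D ≤ ∑ v ∈ Tᶜ, dg A v := Finset.sum_le_sum fun v _ => hD v
  rw [Finset.sum_const, Finset.card_compl, nsmul_eq_mul,
    Nat.cast_sub (Finset.card_le_univ _)] at h2
  linarith

/-- edges touching a set -/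
theorem hub_edges {A : V → V → ℤ} {j : ℤ} (hG : Gr A j) (T : Finset V) :
    2 * ∑ v ∈ T, dg A v ≤ M2 A + (T.card : ℤ) * (T.card - 1) := by
  have h1 : M2 A = ∑ v ∈ T, dg A v + ∑ v ∈ Tᶜ, dg A v := by
    unfold M2; rw [Finset.sum_add_sum_compl]
  have h2 : ∑ v ∈ Tᶜ, ∑ b ∈ T, A v b ≤ ∑ v ∈ Tᶜ, dg A v := by
    refine Finset.sum_le_sum fun v _ => ?_
    unfold dg
    exact Finset.sum_le_sum_of_subset_of_nonneg (Finset.subset_univ _)
      (fun b _ _ => hG.nonneg v b)
  have h3 : ∑ v ∈ T, dg A v = ∑ v ∈ T, ∑ b ∈ T, A v b + ∑ v ∈ Tᶜ, ∑ b ∈ T, A v b := by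
    have h4 : ∑ v ∈ Tᶜ, ∑ b ∈ T, A v b = ∑ b ∈ T, ∑ v ∈ Tᶜ, A b v := by
      rw [Finset.sum_comm]
      exact Finset.sum_congr rfl fun b _ => Finset.sum_congr rfl fun v _ => hG.symm v b
    rw [h4, ← Finset.sum_add_distrib]
    refine Finset.sum_congr rfl fun b _ => ?_
    unfold dg
    rw [Finset.sum_add_sum_compl]
  have h5 := inside_le hG T
  linarith

theorem dg_le' {A : V → V → ℤ} {j : ℤ} (hG : Gr A j) (v : V) :
    dg A v ≤ (Fintype.card V : ℤ) - 1 := by
  unfold dg
  rw [← Finset.sum_erase_add _ _ (Finset.mem_univ v), hG.diag, add_zero]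
  calc ∑ b ∈ Finset.univ.erase v, A v b ≤ ∑ _b ∈ Finset.univ.erase v, (1 : ℤ) :=
        Finset.sum_le_sum fun b _ => hG.le_one v b
    _ = (Fintype.card V : ℤ) - 1 := by
        rw [Finset.sum_const, Finset.card_erase_of_mem (Finset.mem_univ v), Finset.card_univ]
        have : 1 ≤ Fintype.card V := Fintype.card_pos_iff.2 ⟨v⟩
        simp only [nsmul_eq_mul, mul_one]
        push_cast [this]; ring

/-- numeric facts -/
theorem num1 {j t n M D1 Dn c : ℚ} (hj : 5 ≤ j) (ht : 2 * j * t = M)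
    (hM : D1 + (n - 1) * Dn ≤ M) (hD1 : D1 ≤ n - 1) (hDn : j - 1 ≤ Dn) (hc : 0 ≤ c)
    (hn : 1 ≤ n) : D1 - c * Dn + 4 * c ≤ 2 * t := by
  have h1 : 0 ≤ (n - 1) * (Dn - (j - 1)) := mul_nonneg (by linarith) (by linarith)
  have h2 : 0 ≤ c * j * (Dn - 4) := by
    apply mul_nonneg (by positivity) (by linarith)
  have h3 : 0 ≤ (j - 1) * (n - 1 - D1) := mul_nonneg (by linarith) (by linarith)
  have h4 : j * (D1 - c * Dn + 4 * c) ≤ j * (2 * t) := by nlinarith
  exact le_of_mul_le_mul_left h4 (by linarith)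

theorem num2 {j t n M D1 Dn d1 du y : ℚ} (hj : 5 ≤ j) (ht : 2 * j * t = M)
    (hM : D1 + d1 + du + (n - 3) * Dn ≤ M) (hD1 : D1 ≤ n - 1) (hDn : j - 1 ≤ Dn)
    (hn : 2 * j - 1 ≤ n) (h1 : t + d1 < D1) (hd : y + Dn ≤ du) (hd1 : du ≤ d1) : y + 4 ≤ t := by
  by_contra hcon
  push Not at hcon
  have h2 : 2 * t - 4 + Dn < D1 := by linarith
  have h3 : 4 * t - 12 + n * Dn < M := by nlinarith
  have h4 : 0 ≤ n * (Dn - (j - 1)) := mul_nonneg (by linarith) (by linarith)
  have h5 : 2 * t < n - j + 4 := by linarith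
  have h6 : 0 < (j - 2) * (n - j + 4 - 2 * t) := mul_pos (by linarith) (by linarith)
  nlinarith [mul_nonneg (by linarith : (0:ℚ) ≤ j - 5) (by linarith : (0:ℚ) ≤ j - 5)]

end P3A

open P3A

/-- the common part of both parities -/
theorem part3A_core {A : V → V → ℤ} {j : ℤ} (hG : Gr A j) (hj : 5 ≤ j) {t : ℚ}
    (ht : 2 * j * t = M2 A) (hbad : Bad A t) (H0 : Finset V) (hH0 : Odd H0.card)
    (hsep : ∀ a ∈ H0, ∀ b, b ∉ H0 → t < (dg A a : ℚ) - dg A b) (hi : (H0.card : ℤ) + 2 ≤ j)
    (hn : 2 * j - 1 ≤ (Fintype.card V : ℤ)) (h : V) (hh : h ∈ H0)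
    (hmin : ∀ a ∈ H0, dg A h ≤ dg A a) (N : Finset V) (hNH : ∀ v ∈ N, v ∉ H0) (v1 : V)
    (hv1 : v1 ∈ N) (hv1max : ∀ b, b ∉ H0 → dg A b ≤ dg A v1) (hN : N.card = 1 ∨ N.card = 2)
    (hSA0 : N.card = 2 → 0 ≤ SA A h N) (hB : Even (H0ᶜ \ N).card) (hB2 : 2 ≤ (H0ᶜ \ N).card) :
    ∃ (h : V) (H N B : Finset V) (P : V → ℤ) (y γ : ℚ),
      Conf h H N B ∧ Even H.card ∧ (H.card : ℤ) + 3 ≤ j ∧ Even B.card ∧
      (N.card = 1 ∨ N.card = 2) ∧
      (∀ a ∈ H, dg A h ≤ dg A a) ∧
      (∀ a, (a = h ∨ a ∈ H) → ∀ b, (b ∈ N ∨ b ∈ B) → t < (dg A a : ℚ) - dg A b) ∧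
      St H P ∧ ∑ v, P v = 0 ∧ |(S (dg A) P : ℚ)| ≤ γ ∧
      Q A P ≤ 4 * ((H.card / 4 : ℕ) : ℤ) ∧
      0 ≤ y ∧ 0 ≤ γ ∧ (H.card = 0 → γ = 0) ∧
      (∀ u ∈ B, ∀ v ∈ B, (dg A u : ℚ) - dg A v ≤ y) ∧
      y + N.card * (j - 1) ≤ (∑ v ∈ N, dg A v : ℤ) ∧
      y < (SA A h N : ℚ) - t + 2 * N.card ∧ γ < (SA A h N : ℚ) - t + 2 * N.card ∧
      y + γ ≤ SA A h N ∧ t + 1 < (SA A h N : ℚ) + N.card := by
  classical
  set B := H0ᶜ \ N with hBdef
  set H := H0.erase h with hHdef
  have hjq : (5 : ℚ) ≤ j := by exact_mod_cast hj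
  have hnq : 2 * (j : ℚ) - 1 ≤ (Fintype.card V : ℚ) := by exact_mod_cast hn
  have mB : ∀ v, v ∈ B ↔ v ∉ H0 ∧ v ∉ N := fun v => by
    rw [hBdef, mem_sdiff, mem_compl]
  have hc0 : (0 : ℚ) ≤ N.card := Nat.cast_nonneg _
  -- extreme degrees
  obtain ⟨p1, hp1, hp1max⟩ := Finset.exists_max_image H0 (dg A) ⟨h, hh⟩
  obtain ⟨v0, -, hv0⟩ := Finset.exists_min_image (univ : Finset V) (dg A) ⟨h, mem_univ h⟩
  have hdj : ∀ v, (j : ℚ) - 1 ≤ dg A v := fun v => by exact_mod_cast hG.deg v
  have hDn : ∀ v, (dg A v0 : ℚ) ≤ dg A v := fun v => by exact_mod_cast hv0 v (mem_univ v)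
  have hM2n : (Fintype.card V : ℚ) * (j - 1) ≤ M2 A := by
    have := M2_ge (A := A) ∅ (j - 1) hG.deg
    simp only [Finset.sum_empty, Finset.card_empty, Nat.cast_zero, sub_zero, zero_add] at this
    exact_mod_cast this
  have htpos : 0 < t := by
    have h1 : 0 < 2 * (j : ℚ) * t := by
      rw [ht]
      have : 0 < (Fintype.card V : ℚ) * (j - 1) := mul_pos (by linarith) (by linarith)
      linarith
    exact pos_of_mul_pos_right h1 (by linarith)
  have hD1 : ∀ v, (dg A v : ℚ) ≤ dg A p1 := by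
    intro v
    by_cases hv : v ∈ H0
    · exact_mod_cast hp1max v hv
    · have := hsep p1 hp1 v hv; linarith
  have hD1n : (dg A p1 : ℚ) ≤ (Fintype.card V : ℚ) - 1 := by exact_mod_cast dg_le' hG p1
  have hv1H : v1 ∉ H0 := hNH v1 hv1
  have hv1' : ∀ b, b ∉ H0 → (dg A b : ℚ) ≤ dg A v1 := fun b hb => by
    exact_mod_cast hv1max b hb
  -- fact 1
  have hF1 : (dg A p1 : ℚ) - N.card * dg A v0 + 4 * N.card ≤ 2 * t := by
    refine num1 (M := (M2 A : ℚ)) (n := (Fintype.card V : ℚ)) hjq ht ?_ hD1n (hdj v0) hc0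
      (by linarith only [hnq, hjq])
    have := M2_ge (A := A) {p1} (dg A v0) (fun v => hv0 v (mem_univ v))
    simp only [Finset.sum_singleton, Finset.card_singleton, Nat.cast_one] at this
    exact_mod_cast this
  -- extreme vertices of B
  have hBne : B.Nonempty := Finset.card_pos.1 (by omega)
  obtain ⟨u, hu, humax⟩ := Finset.exists_max_image B (dg A) hBne
  have hBne' : (B.erase u).Nonempty := Finset.card_pos.1 (by
    rw [Finset.card_erase_of_mem hu]; omega)
  obtain ⟨w', hw', hw'min⟩ := Finset.exists_min_image (B.erase u) (dg A) hBne'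
  have hw'B : w' ∈ B := mem_of_mem_erase hw'
  have hw'u : w' ≠ u := ne_of_mem_erase hw'
  have hBu : ∀ v ∈ B, (dg A v : ℚ) ≤ dg A u := fun v hv => by exact_mod_cast humax v hv
  have hBw : ∀ v ∈ B, (dg A w' : ℚ) ≤ dg A v := by
    intro v hv
    by_cases hvu : v = u
    · rw [hvu]; exact hBu w' hw'B
    · exact_mod_cast hw'min v (mem_erase.2 ⟨hvu, hv⟩)
  set y : ℚ := (dg A u : ℚ) - dg A w' with hy
  have hy0 : 0 ≤ y := by have := hBu w' hw'B; rw [hy]; linarith only [this]
  have hyB : ∀ a ∈ B, ∀ b ∈ B, (dg A a : ℚ) - dg A b ≤ y := by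
    intro a ha b hb
    have h1 := hBu a ha
    have h2 := hBw b hb
    rw [hy]; linarith only [h1, h2]
  have huH : u ∉ H0 := ((mB u).1 hu).1
  have huN : u ∉ N := ((mB u).1 hu).2
  have hw'H : w' ∉ H0 := ((mB w').1 hw'B).1
  have hw'N : w' ∉ N := ((mB w').1 hw'B).2
  have hy1 : y + dg A v0 ≤ dg A v1 := by
    have h1 := hv1' u huH
    have h2 := hDn w'
    rw [hy]; linarith only [h1, h2]
  have hNsum : (dg A v1 : ℚ) + (N.card - 1) * dg A v0 ≤ ((∑ v ∈ N, dg A v : ℤ) : ℚ) := by
    rw [← Finset.add_sum_erase N (fun v => dg A v) hv1]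
    have h1 : ∑ _v ∈ N.erase v1, dg A v0 ≤ ∑ v ∈ N.erase v1, dg A v :=
      Finset.sum_le_sum fun v _ => hv0 v (mem_univ v)
    rw [Finset.sum_const, Finset.card_erase_of_mem hv1, nsmul_eq_mul,
      Nat.cast_sub (by omega)] at h1
    have h2 : (((N.card : ℤ) - (1 : ℕ)) * dg A v0 : ℤ) ≤ ∑ v ∈ N.erase v1, dg A v := h1
    have h3 : ((N.card : ℚ) - 1) * dg A v0 ≤ ((∑ v ∈ N.erase v1, dg A v : ℤ) : ℚ) := by
      exact_mod_cast h2
    push_cast at h3 ⊢
    linarith only [h3]
  set sN : ℚ := ((∑ v ∈ N, dg A v : ℤ) : ℚ) with hsN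
  have hSAq : (SA A h N : ℚ) = dg A h - sN := by
    unfold SA; push_cast; rw [hsN]; push_cast; ring
  -- fact 3
  have hyt : y + 2 * N.card ≤ t := by
    rcases hN with hN1 | hN2
    · have h1 := hsep p1 hp1 v1 hv1H
      rw [hN1] at hF1 ⊢
      push_cast at hF1 ⊢
      linarith only [h1, hF1, hy1]
    · rw [hN2]
      push_cast
      have h1 := hsep p1 hp1 v1 hv1H
      have hpv : p1 ≠ v1 := fun e => hv1H (e ▸ hp1)
      have hpu : p1 ≠ u := fun e => huH (e ▸ hp1)
      have hvu : v1 ≠ u := fun e => huN (e ▸ hv1)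
      have hcard3 : ({p1, v1, u} : Finset V).card = 3 := by
        rw [Finset.card_insert_of_notMem, Finset.card_pair hvu]
        simp [hpv, hpu]
      have h2 := M2_ge (A := A) {p1, v1, u} (dg A v0) (fun v => hv0 v (mem_univ v))
      rw [hcard3, Finset.sum_insert (by simp [hpv, hpu]), Finset.sum_pair hvu] at h2
      have h3 : (dg A p1 : ℚ) + dg A v1 + dg A u + ((Fintype.card V : ℚ) - 3) * dg A v0 ≤
          M2 A := by
        have h4 : dg A p1 + dg A v1 + dg A u + ((Fintype.card V : ℤ) - 3) * dg A v0 ≤ M2 A := by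
          push_cast at h2
          linarith only [h2]
        exact_mod_cast h4
      have h5 := num2 (y := y) hjq ht h3 hD1n (hdj v0) hnq (by linarith only [h1])
        (by have := hDn w'; rw [hy]; linarith only [this]) (hv1' u huH)
      linarith only [h5]
  -- pairings
  have hHcard : H.card = H0.card - 1 := Finset.card_erase_of_mem hh
  have hHev : Even H.card := by
    rw [hHcard]; rw [Nat.odd_iff] at hH0; rw [Nat.even_iff]; omega
  obtain ⟨kH, hkH⟩ := hHev
  obtain ⟨lH, lH1, lH2, lH3⟩ := pairing' (dg A) kH H (by omega)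
  obtain ⟨kB, hkB⟩ := hB
  obtain ⟨lB, lB1, lB2, lB3⟩ := pairing' (dg A) kB B (by omega)
  have mlH : ∀ e ∈ lH, e.1 ∈ H ∧ e.2 ∈ H := by
    intro e he
    rw [← lH2, List.mem_toFinset, List.mem_toFinset]
    unfold flat
    rw [List.mem_flatMap, List.mem_flatMap]
    exact ⟨⟨e, he, by simp⟩, ⟨e, he, by simp⟩⟩
  have mlB : ∀ e ∈ lB, e.1 ∈ B ∧ e.2 ∈ B := by
    intro e he
    rw [← lB2, List.mem_toFinset, List.mem_toFinset]
    unfold flat
    rw [List.mem_flatMap, List.mem_flatMap]
    exact ⟨⟨e, he, by simp⟩, ⟨e, he, by simp⟩⟩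
  have hHH0 : ∀ v ∈ H, v ∈ H0 := fun v hv => mem_of_mem_erase hv
  have hHmin : ∀ v ∈ H, (dg A h : ℚ) ≤ dg A v := fun v hv => by
    exact_mod_cast hmin v (hHH0 v hv)
  have hsH : (gaps (dg A) lH).sum ≤ dg A p1 - dg A h :=
    lH3 (dg A h) (dg A p1) (hD1 h) (fun v hv => ⟨hHmin v hv, hD1 v⟩)
  have hsB : (gaps (dg A) lB).sum ≤ y := by
    have := lB3 (dg A w') (dg A u) (hBu w' hw'B) (fun v hv => ⟨hBw v hv, hBu v hv⟩)
    rw [hy]; exact this
  have hgB : ∀ e ∈ lB, |(dg A e.1 : ℚ) - dg A e.2| ≤ y := by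
    intro e he
    obtain ⟨e1, e2⟩ := mlB e he
    rw [abs_le]
    have h1 := hyB _ e1 _ e2
    have h2 := hyB _ e2 _ e1
    constructor <;> linarith only [h1, h2]
  obtain ⟨γ, hγ0, hγmax, hγmem⟩ := exists_max_list (gaps (dg A) lH) (gaps_nonneg _ _)
  have hgH : ∀ e ∈ lH, |(dg A e.1 : ℚ) - dg A e.2| ≤ γ := by
    intro e he
    apply hγmax
    unfold gaps
    exact List.mem_map.2 ⟨e, he, rfl⟩
  have hγle : γ ≤ dg A p1 - dg A h := by
    rcases hγmem with h1 | h1
    · rw [h1]; have := hD1 h; linarith only [this]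
    · exact (List.single_le_sum (gaps_nonneg _ _) _ h1).trans hsH
  have hγH : H.card = 0 → γ = 0 := by
    intro h0
    rcases hγmem with h1 | h1
    · exact h1
    · exfalso
      unfold gaps at h1
      obtain ⟨e, he, -⟩ := List.mem_map.1 h1
      have := (mlH e he).1
      rw [Finset.card_eq_zero.1 h0] at this
      simp at this
  have hγt : γ + 2 * N.card ≤ t := by
    by_cases hH00 : H.card = 0
    · rw [hγH hH00]; linarith only [hyt, hy0]
    · -- `|H0| ≥ 3`
      have h3 : 3 ≤ H0.card := by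
        rw [Nat.odd_iff] at hH0; omega
      have h4 := M2_ge (A := A) H0 (j - 1) hG.deg
      have h5 : (H0.card : ℚ) * (t + (j - 1)) ≤ ((∑ v ∈ H0, dg A v : ℤ) : ℚ) := by
        push_cast
        rw [← nsmul_eq_mul, ← Finset.sum_const]
        refine Finset.sum_le_sum fun v hv => ?_
        have h6 := hsep v hv v1 hv1H
        have h7 := hdj v1
        linarith only [h6, h7]
      have h6 : ((∑ v ∈ H0, dg A v : ℤ) : ℚ) + ((Fintype.card V : ℚ) - H0.card) * (j - 1) ≤
          M2 A := by exact_mod_cast h4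
      have h7 : (3 : ℚ) ≤ H0.card := by exact_mod_cast h3
      have h8 : (Fintype.card V : ℚ) < 2 * t := by
        by_contra hcon
        push Not at hcon
        have h9 : 0 ≤ ((H0.card : ℚ) - 3) * t := mul_nonneg (by linarith only [h7]) htpos.le
        have h10 : 0 ≤ ((Fintype.card V : ℚ) - 2 * t) * (j - 1) :=
          mul_nonneg (by linarith only [hcon]) (by linarith only [hjq])
        have h11 : (H0.card : ℚ) * t + (Fintype.card V : ℚ) * (j - 1) ≤ 2 * j * t := by
          rw [ht]; linarith only [h5, h6]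
        linarith only [h9, h10, h11, htpos]
      have h9 := hsep h hh v1 hv1H
      have h10 := hdj v1
      have h11 : (N.card : ℚ) ≤ 2 := by
        rcases hN with h | h <;> rw [h] <;> norm_num
      linarith only [hγle, hD1n, h9, h10, h8, h11, hjq]
  -- the first strict inequality
  have hSAt : t + 1 < (SA A h N : ℚ) + N.card := by
    rcases hN with hN1 | hN2
    · obtain ⟨a, ha⟩ := Finset.card_eq_one.1 hN1
      have hav : v1 = a := by rw [ha] at hv1; exact mem_singleton.1 hv1
      have h1 := hsep h hh v1 hv1H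
      rw [hSAq, hN1, hsN, ha, Finset.sum_singleton, ← hav]
      push_cast
      linarith only [h1]
    · by_contra hcon
      push Not at hcon
      rw [hN2] at hcon hNsum hF1 hyt hγt
      push_cast at hcon hNsum hF1 hyt hγt
      have hSAn : (0 : ℚ) ≤ SA A h N := by exact_mod_cast hSA0 hN2
      have hS : ((∑ v ∈ ({h} : Finset V), dg A v - ∑ v ∈ N, dg A v : ℤ) : ℚ) = SA A h N := by
        unfold SA; rw [Finset.sum_singleton]
      have h1 := alt2 hG hbad (P := {h}) (N := N) (R1 := H) (R2 := B)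
        (by rw [Finset.disjoint_singleton_left]; exact fun hn => hNH h hn hh)
        (by rw [Finset.card_singleton, hN2]; norm_num) lH lB lH1 lB1 lH2 lB2
        (by
          intro v hv
          have hv0 := hHH0 v hv
          refine ⟨fun h1 => ((mB v).1 h1).1 hv0, ?_, fun h1 => hNH v h1 hv0⟩
          rw [mem_singleton]; exact ne_of_mem_erase hv)
        (by
          intro v hv
          obtain ⟨h1, h2⟩ := (mB v).1 hv
          refine ⟨?_, h2⟩
          rw [mem_singleton]; rintro rfl; exact h1 hh)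
        (by
          intro v
          rw [mem_singleton, mB, hHdef, mem_erase]
          by_cases h1 : v ∈ H0
          · by_cases h2 : v = h
            · exact Or.inl h2
            · exact Or.inr (Or.inr (Or.inl ⟨h2, h1⟩))
          · by_cases h2 : v ∈ N
            · exact Or.inr (Or.inl h2)
            · exact Or.inr (Or.inr (Or.inr ⟨h1, h2⟩)))
        (t - 1) (dg A p1 - dg A h) y
        (by rw [hS, abs_of_nonneg hSAn]; linarith only [hcon])
        (fun e he => (hgH e he).trans (by linarith only [hγt]))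
        (fun e he => (hgB e he).trans (by linarith only [hyt])) hsH hsB
        (by
          rw [hS, abs_of_nonneg hSAn, hSAq]
          have := hDn v0
          linarith only [hF1, hNsum, hy1])
      rw [hN2, Finset.card_singleton] at h1
      push_cast at h1
      linarith only [h1]
  have hSAgt : t - 1 < (SA A h N : ℚ) := by
    have h11 : (N.card : ℚ) ≤ 2 := by
      rcases hN with h | h <;> rw [h] <;> norm_num
    linarith only [hSAt, h11]
  have hc1 : (1 : ℚ) ≤ N.card := by
    rcases hN with h | h <;> rw [h] <;> norm_num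
  -- the inequality for `y`
  have hw'h : w' ≠ h := fun e => hw'H (e ▸ hh)
  have huh : u ≠ h := fun e => huH (e ▸ hh)
  have hySA : y < (SA A h N : ℚ) - t + 2 * N.card := by
    by_contra hcon
    push Not at hcon
    set B' := (B.erase u).erase w' with hB'
    have hB'card : B'.card = 2 * (kB - 1) := by
      rw [hB', Finset.card_erase_of_mem hw', Finset.card_erase_of_mem hu]; omega
    obtain ⟨lB', lB1', lB2', lB3'⟩ := pairing' (dg A) (kB - 1) B' hB'card
    have hB'B : ∀ v ∈ B', v ∈ B ∧ v ≠ u ∧ v ≠ w' := by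
      intro v hv
      rw [hB', mem_erase, mem_erase] at hv
      exact ⟨hv.2.2, hv.2.1, hv.1⟩
    have mlB' : ∀ e ∈ lB', e.1 ∈ B' ∧ e.2 ∈ B' := by
      intro e he
      rw [← lB2', List.mem_toFinset, List.mem_toFinset]
      unfold flat
      rw [List.mem_flatMap, List.mem_flatMap]
      exact ⟨⟨e, he, by simp⟩, ⟨e, he, by simp⟩⟩
    have hgB' : ∀ e ∈ lB', |(dg A e.1 : ℚ) - dg A e.2| ≤ y := by
      intro e he
      obtain ⟨e1, e2⟩ := mlB' e he
      rw [abs_le]
      have h1 := hyB _ (hB'B _ e1).1 _ (hB'B _ e2).1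
      have h2 := hyB _ (hB'B _ e2).1 _ (hB'B _ e1).1
      constructor <;> linarith only [h1, h2]
    have hsB' : (gaps (dg A) lB').sum ≤ y := by
      have := lB3' (dg A w') (dg A u) (hBu w' hw'B)
        (fun v hv => ⟨hBw v (hB'B v hv).1, hBu v (hB'B v hv).1⟩)
      rw [hy]; exact this
    have hS : ((∑ v ∈ ({h, w'} : Finset V), dg A v - ∑ v ∈ insert u N, dg A v : ℤ) : ℚ) =
        SA A h N - y := by
      unfold SA
      rw [Finset.sum_pair hw'h.symm, Finset.sum_insert huN, hy]
      push_cast; ring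
    have hSnn : 0 ≤ (SA A h N : ℚ) - y := by linarith only [hSAgt, hyt, hc1]
    have h1 := alt2 hG hbad (P := {h, w'}) (N := insert u N) (R1 := H) (R2 := B')
      (by
        rw [Finset.disjoint_left]
        intro v hv hv'
        rw [mem_insert, mem_singleton] at hv
        rw [mem_insert] at hv'
        rcases hv with rfl | rfl
        · rcases hv' with h1 | h1
          · exact huh h1.symm
          · exact hNH v h1 hh
        · rcases hv' with h1 | h1
          · exact hw'u h1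
          · exact hw'N h1)
      (by
        rw [Finset.card_pair hw'h.symm, Finset.card_insert_of_notMem huN]
        rcases hN with h | h <;> rw [h] <;> norm_num)
      lH lB' lH1 lB1' lH2 lB2'
      (by
        intro v hv
        have hv0 := hHH0 v hv
        refine ⟨fun h1 => ((mB v).1 (hB'B v h1).1).1 hv0, ?_, ?_⟩
        · rw [mem_insert, mem_singleton]
          rintro (h1 | h1)
          · exact ne_of_mem_erase hv h1
          · exact hw'H (h1 ▸ hv0)
        · rw [mem_insert]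
          rintro (h1 | h1)
          · exact huH (h1 ▸ hv0)
          · exact hNH v h1 hv0)
      (by
        intro v hv
        obtain ⟨h1, h2, h3⟩ := hB'B v hv
        obtain ⟨h4, h5⟩ := (mB v).1 h1
        refine ⟨?_, ?_⟩
        · rw [mem_insert, mem_singleton]
          rintro (h6 | h6)
          · exact h4 (h6 ▸ hh)
          · exact h3 h6
        · rw [mem_insert]
          rintro (h6 | h6)
          · exact h2 h6
          · exact h5 h6)
      (by
        intro v
        rw [mem_insert, mem_singleton, mem_insert, hHdef, mem_erase, hB', mem_erase, mem_erase, mB]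
        by_cases h1 : v ∈ H0
        · by_cases h2 : v = h
          · exact Or.inl (Or.inl h2)
          · exact Or.inr (Or.inr (Or.inl ⟨h2, h1⟩))
        · by_cases h2 : v ∈ N
          · exact Or.inr (Or.inl (Or.inr h2))
          · by_cases h3 : v = u
            · exact Or.inr (Or.inl (Or.inl h3))
            · by_cases h4 : v = w'
              · exact Or.inl (Or.inr h4)
              · exact Or.inr (Or.inr (Or.inr ⟨h4, h3, h1, h2⟩)))
      (t - 2 * N.card) (dg A p1 - dg A h) y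
      (by rw [hS, abs_of_nonneg hSnn]; linarith only [hcon])
      (fun e he => (hgH e he).trans (by linarith only [hγt]))
      (fun e he => (hgB' e he).trans (by linarith only [hyt])) hsH hsB'
      (by
        rw [hS, abs_of_nonneg hSnn, hSAq]
        have h2 : (N.card : ℚ) * dg A v0 ≤ sN := by linarith only [hNsum, hy1, hy0]
        linarith only [hF1, h2])
    rw [Finset.card_pair hw'h.symm, Finset.card_insert_of_notMem huN] at h1
    rcases hN with h2 | h2 <;> rw [h2] at h1 <;> push_cast at h1 <;> linarith only [h1]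
  -- the inequality for `γ`
  have hγSA : γ < (SA A h N : ℚ) - t + 2 * N.card := by
    rcases hγmem with hz | hmem
    · rw [hz]; linarith only [hSAgt, hc1]
    · by_contra hcon
      push Not at hcon
      unfold gaps at hmem
      obtain ⟨e, he, heγ⟩ := List.mem_map.1 hmem
      obtain ⟨l1, l2, hl⟩ := List.append_of_mem he
      -- orientation
      obtain ⟨p, p', hpp, hpd⟩ : ∃ p p', ((e.1 = p ∧ e.2 = p') ∨ (e.1 = p' ∧ e.2 = p)) ∧
          (dg A p : ℚ) - dg A p' = γ := by
        rcases abs_cases ((dg A e.1 : ℚ) - dg A e.2) with h1 | h1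
        · exact ⟨e.1, e.2, Or.inl ⟨rfl, rfl⟩, by rw [← heγ, h1.1]⟩
        · exact ⟨e.2, e.1, Or.inr ⟨rfl, rfl⟩, by rw [← heγ, h1.1]; ring⟩
      have hflat : flat lH = flat l1 ++ (e.1 :: e.2 :: flat l2) := by
        rw [hl, flat_append, flat_cons]
      have hnd := lH1
      rw [hflat, List.nodup_append] at hnd
      obtain ⟨nd1, nd2, nd3⟩ := hnd
      rw [List.nodup_cons, List.nodup_cons, List.mem_cons, not_or] at nd2
      obtain ⟨⟨ne12, ne1⟩, ne2, nd4⟩ := nd2
      have mH : ∀ v, v ∈ H ↔ v ∈ flat l1 ∨ v = e.1 ∨ v = e.2 ∨ v ∈ flat l2 := by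
        intro v
        rw [← lH2, List.mem_toFinset, hflat, List.mem_append, List.mem_cons, List.mem_cons]
      have n11 : e.1 ∉ flat l1 := fun h1 => nd3 _ h1 e.1 (by simp) rfl
      have n21 : e.2 ∉ flat l1 := fun h1 => nd3 _ h1 e.2 (by simp) rfl
      have nd5 : (flat (l1 ++ l2)).Nodup := by
        rw [flat_append, List.nodup_append]
        exact ⟨nd1, nd4, fun a ha b hb => nd3 a ha b (by simp [hb])⟩
      have mH' : ∀ v, v ∈ (flat (l1 ++ l2)).toFinset ↔ v ∈ H ∧ v ≠ p ∧ v ≠ p' := by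
        intro v
        rw [List.mem_toFinset, flat_append, List.mem_append, mH]
        constructor
        · intro hv
          have hv1 : v ≠ e.1 := by
            rintro rfl; rcases hv with hv | hv
            · exact n11 hv
            · exact ne1 hv
          have hv2 : v ≠ e.2 := by
            rintro rfl; rcases hv with hv | hv
            · exact n21 hv
            · exact ne2 hv
          refine ⟨hv.elim Or.inl fun h => Or.inr (Or.inr (Or.inr h)), ?_⟩
          rcases hpp with ⟨h1, h2⟩ | ⟨h1, h2⟩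
          · rw [← h1, ← h2]; exact ⟨hv1, hv2⟩
          · rw [← h1, ← h2]; exact ⟨hv2, hv1⟩
        · rintro ⟨hv, hv1, hv2⟩
          rcases hpp with ⟨h1, h2⟩ | ⟨h1, h2⟩
          · rw [← h1] at hv1; rw [← h2] at hv2; exact hv.elim Or.inl fun h => h.elim (fun h => absurd h hv1) fun h =>
              h.elim (fun h => absurd h hv2) Or.inr
          · rw [← h1] at hv2; rw [← h2] at hv1; exact hv.elim Or.inl fun h => h.elim (fun h => absurd h hv2) fun h =>
              h.elim (fun h => absurd h hv1) Or.inr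
      have hpH : p ∈ H := by
        rw [mH]; rcases hpp with ⟨h1, h2⟩ | ⟨h1, h2⟩
        · rw [← h1]; exact Or.inr (Or.inl rfl)
        · rw [← h2]; exact Or.inr (Or.inr (Or.inl rfl))
      have hp'H : p' ∈ H := by
        rw [mH]; rcases hpp with ⟨h1, h2⟩ | ⟨h1, h2⟩
        · rw [← h2]; exact Or.inr (Or.inr (Or.inl rfl))
        · rw [← h1]; exact Or.inr (Or.inl rfl)
      have hpp' : p ≠ p' := by
        rcases hpp with ⟨h1, h2⟩ | ⟨h1, h2⟩
        · rw [← h1, ← h2]; exact ne12
        · rw [← h1, ← h2]; exact fun hh12 => ne12 hh12.symm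
      have hph : p ≠ h := ne_of_mem_erase hpH
      have hp'h : p' ≠ h := ne_of_mem_erase hp'H
      have hpN : p ∉ N := fun h1 => hNH p h1 (hHH0 p hpH)
      have hp'N : p' ∉ N := fun h1 => hNH p' h1 (hHH0 p' hp'H)
      have hsH' : (gaps (dg A) (l1 ++ l2)).sum ≤ dg A p1 - dg A h - γ := by
        have h1 := hsH
        rw [hl, gaps_append, List.sum_append] at h1
        have h2 : (gaps (dg A) (e :: l2)).sum = |(dg A e.1 : ℚ) - dg A e.2| +
            (gaps (dg A) l2).sum := by
          unfold gaps; rw [List.map_cons, List.sum_cons]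
        rw [h2, heγ] at h1
        rw [gaps_append, List.sum_append]
        linarith only [h1]
      have hS : ((∑ v ∈ ({h, p'} : Finset V), dg A v - ∑ v ∈ insert p N, dg A v : ℤ) : ℚ) =
          SA A h N - γ := by
        unfold SA
        rw [Finset.sum_pair hp'h.symm, Finset.sum_insert hpN, ← hpd]
        push_cast; ring
      have hSnn : 0 ≤ (SA A h N : ℚ) - γ := by linarith only [hSAgt, hγt, hc1]
      have h1 := alt2 hG hbad (P := {h, p'}) (N := insert p N)
        (R1 := (flat (l1 ++ l2)).toFinset) (R2 := B)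
        (by
          rw [Finset.disjoint_left]
          intro v hv hv'
          rw [mem_insert, mem_singleton] at hv
          rw [mem_insert] at hv'
          rcases hv with rfl | rfl
          · rcases hv' with h1 | h1
            · exact hph h1.symm
            · exact hNH v h1 hh
          · rcases hv' with h1 | h1
            · exact hpp' h1.symm
            · exact hp'N h1)
        (by
          rw [Finset.card_pair hp'h.symm, Finset.card_insert_of_notMem hpN]
          rcases hN with h | h <;> rw [h] <;> norm_num)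
        (l1 ++ l2) lB nd5 lB1 rfl lB2
        (by
          intro v hv
          obtain ⟨h1, h2, h3⟩ := (mH' v).1 hv
          have hv0 := hHH0 v h1
          refine ⟨fun h1 => ((mB v).1 h1).1 hv0, ?_, ?_⟩
          · rw [mem_insert, mem_singleton]
            rintro (h4 | h4)
            · exact ne_of_mem_erase h1 h4
            · exact h3 h4
          · rw [mem_insert]
            rintro (h4 | h4)
            · exact h2 h4
            · exact hNH v h4 hv0)
        (by
          intro v hv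
          obtain ⟨h4, h5⟩ := (mB v).1 hv
          refine ⟨?_, ?_⟩
          · rw [mem_insert, mem_singleton]
            rintro (h6 | h6)
            · exact h4 (h6 ▸ hh)
            · exact h4 (h6 ▸ hHH0 p' hp'H)
          · rw [mem_insert]
            rintro (h6 | h6)
            · exact h4 (h6 ▸ hHH0 p hpH)
            · exact h5 h6)
        (by
          intro v
          rw [mem_insert, mem_singleton, mem_insert, mH', mB]
          by_cases h1 : v ∈ H0
          · by_cases h2 : v = h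
            · exact Or.inl (Or.inl h2)
            · by_cases h3 : v = p
              · exact Or.inr (Or.inl (Or.inl h3))
              · by_cases h4 : v = p'
                · exact Or.inl (Or.inr h4)
                · exact Or.inr (Or.inr (Or.inl ⟨mem_erase.2 ⟨h2, h1⟩, h3, h4⟩))
          · by_cases h2 : v ∈ N
            · exact Or.inr (Or.inl (Or.inr h2))
            · exact Or.inr (Or.inr (Or.inr ⟨h1, h2⟩)))
        (t - 2 * N.card) (dg A p1 - dg A h - γ) y
        (by rw [hS, abs_of_nonneg hSnn]; linarith only [hcon])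
        (by
          intro e' he'
          refine (hgH e' ?_).trans (by linarith only [hγt])
          rw [hl]
          rcases List.mem_append.1 he' with h1 | h1
          · exact List.mem_append_left _ h1
          · exact List.mem_append_right _ (List.mem_cons_of_mem _ h1))
        (fun e he => (hgB e he).trans (by linarith only [hyt])) hsH' hsB
        (by
          rw [hS, abs_of_nonneg hSnn, hSAq]
          linarith only [hNsum, hy1, hF1, hγ0])
      rw [Finset.card_pair hp'h.symm, Finset.card_insert_of_notMem hpN] at h1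
      rcases hN with h2 | h2 <;> rw [h2] at h1 <;> push_cast at h1 <;> linarith only [h1]
  -- the hub block
  obtain ⟨P, hP1, hP2, hP3, hP4⟩ := hub_block hG lH lH1
  rw [lH2] at hP1
  have hlen : lH.length / 2 = H.card / 4 := by
    have h1 : (flat lH).toFinset.card = (flat lH).length := List.toFinset_card_of_nodup lH1
    rw [lH2, flat_length] at h1
    omega
  rw [hlen] at hP4
  refine ⟨h, H, N, B, P, y, γ, ?_, ⟨kH, hkH⟩, ?_, ⟨kB, hkB⟩, hN, ?_, ?_, hP1, hP2,
    hP3 γ hγ0 hgH, hP4, hy0, hγ0, hγH, hyB, ?_, hySA, hγSA, ?_, hSAt⟩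
  · refine ⟨by simp [hHdef], fun h1 => hNH h h1 hh, fun h1 => ((mB h).1 h1).1 hh, ?_, ?_, ?_, ?_⟩
    · rw [Finset.disjoint_left]; exact fun v hv hv' => hNH v hv' (hHH0 v hv)
    · rw [Finset.disjoint_left]; exact fun v hv hv' => ((mB v).1 hv').1 (hHH0 v hv)
    · rw [Finset.disjoint_left]; exact fun v hv hv' => ((mB v).1 hv').2 hv
    · intro v
      rw [mB, hHdef, mem_erase]
      by_cases h1 : v ∈ H0
      · by_cases h2 : v = h
        · exact Or.inl h2
        · exact Or.inr (Or.inl ⟨h2, h1⟩)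
      · by_cases h2 : v ∈ N
        · exact Or.inr (Or.inr (Or.inl h2))
        · exact Or.inr (Or.inr (Or.inr ⟨h1, h2⟩))
  · have : 1 ≤ H0.card := hH0.pos
    rw [hHcard]; push_cast [this]; linarith only [hi]
  · exact fun a ha => hmin a (hHH0 a ha)
  · intro a ha b hb
    have h1 : a ∈ H0 := by
      rcases ha with rfl | ha
      · exact hh
      · exact hHH0 a ha
    have h2 : b ∉ H0 := by
      rcases hb with hb | hb
      · exact hNH b hb
      · exact ((mB b).1 hb).1
    exact hsep a h1 b h2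
  · have h1 := hdj v0
    have h2 : ((N.card : ℚ) - 1) * (j - 1) ≤ (N.card - 1) * dg A v0 :=
      mul_le_mul_of_nonneg_left h1 (by linarith only [hc1])
    linarith only [hNsum, hy1, h1, h2]
  · have h2 : (N.card : ℚ) * dg A v0 ≤ sN := by linarith only [hNsum, hy1, hy0]
    have h3 := hD1 h
    rw [hSAq] at hySA hγSA ⊢
    linarith only [hySA, hγSA, h3, hF1, h2]

/-! ## PART3A -/

theorem part3A {A : V → V → ℤ} {j : ℤ} (hG : Gr A j) (hj : 5 ≤ j) (hjo : Odd j) {t : ℚ}
    (ht : 2 * j * t = M2 A) (hbad : Bad A t) (H0 : Finset V) (hH0 : Odd H0.card)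
    (hne : ∃ b, b ∉ H0) (hsep : ∀ a ∈ H0, ∀ b, b ∉ H0 → t < (dg A a : ℚ) - dg A b)
    (hodd : Odd (Fintype.card V) → ∃ v, (dg A v : ℚ) ≤ t) :
    ∃ (h : V) (H N B : Finset V) (P : V → ℤ) (y γ : ℚ),
      Conf h H N B ∧ Even H.card ∧ (H.card : ℤ) + 3 ≤ j ∧ Even B.card ∧
      (N.card = 1 ∨ N.card = 2) ∧
      (∀ a ∈ H, dg A h ≤ dg A a) ∧
      (∀ a, (a = h ∨ a ∈ H) → ∀ b, (b ∈ N ∨ b ∈ B) → t < (dg A a : ℚ) - dg A b) ∧
      St H P ∧ ∑ v, P v = 0 ∧ |(S (dg A) P : ℚ)| ≤ γ ∧
      Q A P ≤ 4 * ((H.card / 4 : ℕ) : ℤ) ∧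
      0 ≤ y ∧ 0 ≤ γ ∧ (H.card = 0 → γ = 0) ∧
      (∀ u ∈ B, ∀ v ∈ B, (dg A u : ℚ) - dg A v ≤ y) ∧
      y + N.card * (j - 1) ≤ (∑ v ∈ N, dg A v : ℤ) ∧
      y < (SA A h N : ℚ) - t + 2 * N.card ∧ γ < (SA A h N : ℚ) - t + 2 * N.card ∧
      y + γ ≤ SA A h N ∧ t + 1 < (SA A h N : ℚ) + N.card := by
  classical
  have hjq : (5 : ℚ) ≤ j := by exact_mod_cast hj
  obtain ⟨a0, ha0⟩ : H0.Nonempty := Finset.card_pos.1 hH0.pos
  obtain ⟨b0, hb0⟩ := hne
  have hdj : ∀ v, (j : ℚ) - 1 ≤ dg A v := fun v => by exact_mod_cast hG.deg v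
  have hnpos : (1 : ℚ) ≤ Fintype.card V := by
    have : 1 ≤ Fintype.card V := Fintype.card_pos_iff.2 ⟨a0⟩
    exact_mod_cast this
  have hM2n : (Fintype.card V : ℚ) * (j - 1) ≤ M2 A := by
    have := M2_ge (A := A) ∅ (j - 1) hG.deg
    simp only [Finset.sum_empty, Finset.card_empty, Nat.cast_zero, sub_zero, zero_add] at this
    exact_mod_cast this
  have htpos : 0 < t := by
    have h1 : 0 < 2 * (j : ℚ) * t := by
      rw [ht]
      have : 0 < (Fintype.card V : ℚ) * (j - 1) := mul_pos (by linarith) (by linarith)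
      linarith
    exact pos_of_mul_pos_right h1 (by linarith)
  -- number of hubs
  have hsum : (H0.card : ℚ) * (t + (j - 1)) < ((∑ v ∈ H0, dg A v : ℤ) : ℚ) := by
    push_cast
    rw [← nsmul_eq_mul, ← Finset.sum_const]
    refine Finset.sum_lt_sum_of_nonempty ⟨a0, ha0⟩ fun v hv => ?_
    have h6 := hsep v hv b0 hb0
    have h7 := hdj b0
    linarith
  have hi1 : (1 : ℚ) ≤ H0.card := by
    have : 1 ≤ H0.card := hH0.pos
    exact_mod_cast this
  have hiV : (H0.card : ℚ) ≤ Fintype.card V := by exact_mod_cast Finset.card_le_univ H0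
  have hi2j : (H0.card : ℤ) < 2 * j := by
    have h4 := M2_ge (A := A) H0 (j - 1) hG.deg
    have h6 : ((∑ v ∈ H0, dg A v : ℤ) : ℚ) + ((Fintype.card V : ℚ) - H0.card) * (j - 1) ≤
        M2 A := by exact_mod_cast h4
    have h7 : 0 ≤ ((Fintype.card V : ℚ) - H0.card) * (j - 1) :=
      mul_nonneg (by linarith) (by linarith)
    have h8 : 0 ≤ (H0.card : ℚ) * (j - 1) := mul_nonneg (by linarith) (by linarith)
    have h9 : (H0.card : ℚ) * t < 2 * j * t := by rw [ht]; linarith
    have h10 : (H0.card : ℚ) < 2 * j := lt_of_mul_lt_mul_right h9 htpos.le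
    exact_mod_cast h10
  have hij : (H0.card : ℤ) < j := by
    by_contra hcon
    push Not at hcon
    have h1 : 2 * ((∑ v ∈ H0, dg A v : ℤ) : ℚ) ≤ M2 A + (H0.card : ℚ) * (H0.card - 1) := by
      exact_mod_cast hub_edges hG H0
    have h2 : (j : ℚ) ≤ H0.card := by exact_mod_cast hcon
    have h3 : 0 ≤ ((H0.card : ℚ) - j) * t := mul_nonneg (by linarith) htpos.le
    have h4 : (H0.card : ℚ) * (2 * (j - 1)) < H0.card * (H0.card - 1) := by
      rw [← ht] at h1; linarith
    have h5 : 2 * ((j : ℚ) - 1) < H0.card - 1 := lt_of_mul_lt_mul_left h4 (by linarith)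
    have h6 : 2 * (j - 1) < (H0.card : ℤ) - 1 := by exact_mod_cast h5
    omega
  have hi : (H0.card : ℤ) + 2 ≤ j := by
    obtain ⟨a, ha⟩ := hjo
    obtain ⟨b, hb⟩ := hH0
    omega
  -- number of vertices
  have hn : 2 * j - 1 ≤ (Fintype.card V : ℤ) := by
    by_contra hcon
    push Not at hcon
    have h1 : (Fintype.card V : ℤ) ≤ 2 * j - 2 := by omega
    have h2 : (Fintype.card V : ℚ) ≤ 2 * j - 2 := by exact_mod_cast h1
    have h3 := hsep a0 ha0 b0 hb0
    have h4 := hdj b0
    have h5 : (dg A a0 : ℚ) ≤ (Fintype.card V : ℚ) - 1 := by exact_mod_cast dg_le' hG a0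
    have h6 : t < Fintype.card V - j := by linarith
    have h7 : 2 * (j : ℚ) * t < 2 * j * (Fintype.card V - j) :=
      mul_lt_mul_of_pos_left h6 (by linarith)
    have h8 : 0 ≤ ((j : ℚ) + 1) * (2 * j - 2 - Fintype.card V) :=
      mul_nonneg (by linarith) (by linarith)
    rw [ht] at h7
    nlinarith
  obtain ⟨h, hh, hmin⟩ := Finset.exists_min_image H0 (dg A) ⟨a0, ha0⟩
  obtain ⟨v1, hv1, hv1max⟩ := Finset.exists_max_image H0ᶜ (dg A) ⟨b0, mem_compl.2 hb0⟩
  have hv1H : v1 ∉ H0 := mem_compl.1 hv1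
  have hv1max' : ∀ b, b ∉ H0 → dg A b ≤ dg A v1 := fun b hb => hv1max b (mem_compl.2 hb)
  have hcc : H0ᶜ.card = Fintype.card V - H0.card := Finset.card_compl _
  have hle : H0.card ≤ Fintype.card V := Finset.card_le_univ _
  rcases Nat.even_or_odd (Fintype.card V) with hev | hod
  · refine part3A_core hG hj ht hbad H0 hH0 hsep hi hn h hh hmin {v1} ?_ v1 (mem_singleton_self _)
      hv1max' (Or.inl (Finset.card_singleton _)) (by simp) ?_ ?_
    · intro v hv; rw [mem_singleton] at hv; rw [hv]; exact hv1H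
    · rw [Finset.sdiff_singleton_eq_erase, Finset.card_erase_of_mem hv1, hcc]
      rw [Nat.even_iff] at hev ⊢
      rw [Nat.odd_iff] at hH0
      omega
    · rw [Finset.sdiff_singleton_eq_erase, Finset.card_erase_of_mem hv1, hcc]
      omega
  · have hne2 : (H0ᶜ.erase v1).Nonempty := Finset.card_pos.1 (by
      rw [Finset.card_erase_of_mem hv1, hcc]; omega)
    obtain ⟨w, hw, hwmin⟩ := Finset.exists_min_image (H0ᶜ.erase v1) (dg A) hne2
    have hwc : w ∈ H0ᶜ := mem_of_mem_erase hw
    have hwv : w ≠ v1 := ne_of_mem_erase hw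
    have hwH : w ∉ H0 := mem_compl.1 hwc
    have hwt : (dg A w : ℚ) ≤ t := by
      obtain ⟨v, hv⟩ := hodd hod
      have hvH : v ∉ H0 := by
        intro hvH
        have h1 := hsep v hvH b0 hb0
        have h2 := hdj b0
        linarith
      by_cases hvv : v = v1
      · have h1 : (dg A w : ℚ) ≤ dg A v1 := by exact_mod_cast hv1max' w hwH
        rw [hvv] at hv; linarith
      · have h1 : (dg A w : ℚ) ≤ dg A v := by
          exact_mod_cast hwmin v (mem_erase.2 ⟨hvv, mem_compl.2 hvH⟩)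
        linarith
    have hsd : H0ᶜ \ {v1, w} = (H0ᶜ.erase v1).erase w := by
      ext x; simp only [mem_sdiff, mem_insert, mem_singleton, mem_erase]; tauto
    refine part3A_core hG hj ht hbad H0 hH0 hsep hi hn h hh hmin {v1, w} ?_ v1 (by simp)
      hv1max' (Or.inr (Finset.card_pair hwv.symm)) ?_ ?_ ?_
    · intro v hv
      rw [mem_insert, mem_singleton] at hv
      rcases hv with rfl | rfl
      · exact hv1H
      · exact hwH
    · intro _
      have h1 := hsep h hh v1 hv1H
      have h2 : (0 : ℚ) ≤ SA A h {v1, w} := by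
        unfold SA
        rw [Finset.sum_pair hwv.symm]
        push_cast
        linarith
      exact_mod_cast h2
    · rw [hsd, Finset.card_erase_of_mem hw, Finset.card_erase_of_mem hv1, hcc]
      rw [Nat.odd_iff] at hod hH0
      rw [Nat.even_iff]
      omega
    · rw [hsd, Finset.card_erase_of_mem hw, Finset.card_erase_of_mem hv1, hcc]
      omega

end Pool.Agent.Helper60.Bis
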