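import Pool.Agent.Helper60.Bis.Window
import Pool.Agent.Helper60.Bis.Case1
import Pool.Agent.Helper60.Bis.Case2

set_option linter.unusedSectionVars false

/-!
# PART3B: the end of the argument with hubs
-/

namespace Pool.Agent.Helper60.Bis

open Finset Pool.Agent.Helper29.Bisect

variable {V : Type*} [Fintype V] [DecidableEq V]

/-- sums over a configuration -/
private theorem conf_sum {h : V} {H N B : Finset V} (C : Conf h H N B) (f : V → ℤ) :
    ∑ v, f v = f h + (∑ v ∈ H, f v + ((∑ v ∈ N, f v) + ∑ v ∈ B, f v)) := by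
  have hu : (Finset.univ : Finset V) = insert h (H ∪ (N ∪ B)) := by
    ext v
    have := C.cov v
    simp only [Finset.mem_univ, Finset.mem_insert, Finset.mem_union, true_iff]
    exact this
  rw [hu, Finset.sum_insert (by simp [C.hH, C.hN, C.hB]),
    Finset.sum_union (Finset.disjoint_union_right.2 ⟨C.HN, C.HB⟩), Finset.sum_union C.NB]

/-- the degree is at most `n - 1` -/
private theorem dg_le {A : V → V → ℤ} {j : ℤ} (hG : Gr A j) (a : V) :
    dg A a ≤ (Fintype.card V : ℤ) - 1 := by
  unfold dg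
  rw [← Finset.sum_erase_add _ _ (Finset.mem_univ a), hG.diag, add_zero]
  calc ∑ b ∈ Finset.univ.erase a, A a b ≤ ∑ _b ∈ Finset.univ.erase a, (1 : ℤ) :=
        Finset.sum_le_sum fun b _ => hG.le_one a b
    _ = (Fintype.card V : ℤ) - 1 := by
        rw [Finset.sum_const, Finset.card_erase_of_mem (Finset.mem_univ a), Finset.card_univ]
        have : 1 ≤ Fintype.card V := Fintype.card_pos_iff.2 ⟨a⟩
        simp only [nsmul_eq_mul, mul_one]
        push_cast [this]; ring

private theorem num1 {t n i j : ℚ} (hi : 3 ≤ i) (hij : i + 2 ≤ j)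
    (ha : n * (j - 1) < t * (2 * j - i)) (hb : t + j < n) : n + i - 2 < 2 * t := by
  have h1 : j - 1 < t := by
    by_contra hcon
    push Not at hcon
    have h2 : (t + j) * (j - 1) ≤ n * (j - 1) := mul_le_mul_of_nonneg_right hb.le (by linarith)
    have h3 : t * (j - i + 1) ≤ (j - 1) * (j - i + 1) :=
      mul_le_mul_of_nonneg_right hcon (by linarith)
    have h4 : (j - 1) * (j - i + 1) ≤ (j - 1) * (j - 2) :=
      mul_le_mul_of_nonneg_left (by linarith) (by linarith)
    nlinarith
  by_contra hcon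
  push Not at hcon
  have h2 : 2 * t * (j - 1) ≤ (n + i - 2) * (j - 1) :=
    mul_le_mul_of_nonneg_right hcon (by linarith)
  have h3 : (j - 1) * (i - 2) < t * (i - 2) := mul_lt_mul_of_pos_right h1 (by linarith)
  nlinarith

private theorem num2 {j g y T : ℚ} (hj : 5 ≤ j) (hy : 0 ≤ y) (hg : -1 < g)
    (h1 : g + 2 * T < y) (h2 : T < 2) (h3 : g + y / 2 ≤ (j - 1) * (T - 2)) : False := by
  have h4 : (j - 1) * (T - 2) < 0 := mul_neg_of_pos_of_neg (by linarith) (by linarith)
  have h5 : y < 2 := by linarith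
  have h6 : (j - 1) * (g + 2 * T) < (j - 1) * y := mul_lt_mul_of_pos_left h1 (by linarith)
  have h7 : (-1) * (j + 1) < g * (j + 1) := mul_lt_mul_of_pos_right hg (by linarith)
  have h8 : y * (j - 2) < 2 * (j - 2) := mul_lt_mul_of_pos_right h5 (by linarith)
  nlinarith

theorem part3B {A : V → V → ℤ} {j : ℤ} (hG : Gr A j) (hj : 5 ≤ j) (hjo : Odd j) {t : ℚ}
    (ht : 2 * j * t = M2 A) (hbad : Bad A t)
    {h : V} {H N B : Finset V} {P : V → ℤ} {y γ : ℚ}
    (C : Conf h H N B) (hH : Even H.card) (hH2 : (H.card : ℤ) + 3 ≤ j) (hB : Even B.card)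
    (hN : N.card = 1 ∨ N.card = 2) (hmin : ∀ a ∈ H, dg A h ≤ dg A a)
    (hsep : ∀ a, (a = h ∨ a ∈ H) → ∀ b, (b ∈ N ∨ b ∈ B) → t < (dg A a : ℚ) - dg A b)
    (hP : St H P) (hP0 : ∑ v, P v = 0) (hPS : |(S (dg A) P : ℚ)| ≤ γ)
    (hPQ : Q A P ≤ 4 * ((H.card / 4 : ℕ) : ℤ))
    (hy0 : 0 ≤ y) (hγ0 : 0 ≤ γ) (hγH : H.card = 0 → γ = 0)
    (hy : ∀ u ∈ B, ∀ v ∈ B, (dg A u : ℚ) - dg A v ≤ y)
    (hyN : y + N.card * (j - 1) ≤ (∑ v ∈ N, dg A v : ℤ))
    (hyg : y < (SA A h N : ℚ) - t + 2 * N.card) (hγg : γ < (SA A h N : ℚ) - t + 2 * N.card)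
    (hw : y + γ ≤ SA A h N) (hg : t + 1 < (SA A h N : ℚ) + N.card) : False := by
  have hjq : (5 : ℚ) ≤ j := by exact_mod_cast hj
  rcases window hG B hB (SA A h N) γ y hγ0 hy0 hy hw with
    ⟨x, hx, hx0, hxS, hopt⟩ | ⟨z, hz, hz0, hQz, hzS, -⟩
  · refine case2 hG hj hjo ht hbad C hH hH2 (Or.inr hN) hmin P x hP hP0 ?_ hx hx0 ?_ hopt
    · refine hPQ.trans ?_
      have : 4 * (H.card / 4) ≤ H.card := by omega
      exact_mod_cast this
    · linarith
  · obtain ⟨c1, c2⟩ := case1 hG hbad C (by omega) P z hP hP0 hz hz0 hQz (max y γ) hzS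
      (hPS.trans (le_max_right _ _))
    have hmu : max y γ < (SA A h N : ℚ) - t + 2 * N.card := max_lt hyg hγg
    have hcardn : (Fintype.card V : ℤ) = 1 + (H.card + (N.card + B.card)) := by
      have := conf_sum C (fun _ => (1 : ℤ))
      simpa using this
    by_cases hH0 : H.card = 0
    · have hγ := hγH hH0
      have hHe : H = ∅ := Finset.card_eq_zero.1 hH0
      rw [hγ, max_eq_left hy0] at c1 c2
      have hQP : (Q A P : ℚ) ≤ 0 := by
        have h0 : Q A P ≤ 0 := by
          rw [hH0] at hPQ; simpa using hPQ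
        exact_mod_cast h0
      rw [hHe] at c1 c2
      simp only [Finset.card_empty, Nat.cast_zero, Finset.sum_empty, Int.cast_zero] at c1 c2
      have hSA : (dg A h : ℚ) = SA A h N + (∑ v ∈ N, dg A v : ℤ) := by
        unfold SA; push_cast; ring
      rw [← ht, hSA] at c2
      set g : ℚ := (SA A h N : ℚ) - t with hgdef
      set T : ℚ := t - (B.card : ℚ) / 2 with hT
      have hBc : (B.card : ℚ) = 2 * t - 2 * T := by rw [hT]; ring
      have hSAg : (SA A h N : ℚ) = g + t := by rw [hgdef]; ring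
      have e1 : g + 2 * T < y := by rw [hT, hgdef]; linarith
      rcases hN with hN | hN
      · rw [hN] at hyN hyg hg
        simp only [Nat.cast_one, one_mul, mul_one] at hyN hyg hg
        have e2 : T < 1 := by linarith
        rw [hBc, hSAg] at c2
        have e3 : g + y / 2 ≤ (j - 1) * (T - 1) := by nlinarith
        have e4 : ((j : ℚ) - 1) * (T - 1) < 0 := mul_neg_of_pos_of_neg (by linarith) (by linarith)
        have e5 : 0 < g := by rw [hgdef]; linarith
        linarith
      · rw [hN] at hyN hyg hg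
        push_cast at hyN hyg hg
        have e2 : T < 2 := by linarith
        rw [hBc, hSAg] at c2
        push_cast at c2
        have e3 : g + y / 2 ≤ (j - 1) * (T - 2) := by nlinarith
        have e5 : -1 < g := by rw [hgdef]; linarith
        exact num2 hjq hy0 e5 e1 e2 e3
    · have hHc : 2 ≤ H.card := by
        obtain ⟨k, hk⟩ := hH
        omega
      obtain ⟨b0, hb0⟩ : N.Nonempty := by
        rw [← Finset.card_pos]; omega
      have hb0j : ((j : ℚ) - 1) ≤ dg A b0 := by
        have := hG.deg b0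
        exact_mod_cast this
      have hdh : t + (j - 1) < dg A h := by
        have := hsep h (Or.inl rfl) b0 (Or.inl hb0)
        linarith
      have hdH : ((H.card : ℚ)) * (t + (j - 1)) ≤ ((∑ v ∈ H, dg A v : ℤ) : ℚ) := by
        push_cast
        rw [← nsmul_eq_mul, ← Finset.sum_const]
        refine Finset.sum_le_sum fun a ha => ?_
        have := hsep a (Or.inr ha) b0 (Or.inl hb0)
        linarith
      have hdX : ∀ X : Finset V, ((X.card : ℚ)) * (j - 1) ≤ ((∑ v ∈ X, dg A v : ℤ) : ℚ) := by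
        intro X
        push_cast
        rw [← nsmul_eq_mul, ← Finset.sum_const]
        refine Finset.sum_le_sum fun a _ => ?_
        have := hG.deg a
        exact_mod_cast this
      have hM := conf_sum C (dg A)
      have hMq : (M2 A : ℚ) = dg A h + (((∑ v ∈ H, dg A v : ℤ) : ℚ) +
          (((∑ v ∈ N, dg A v : ℤ) : ℚ) + ((∑ v ∈ B, dg A v : ℤ) : ℚ))) := by
        have : M2 A = dg A h + (∑ v ∈ H, dg A v + ((∑ v ∈ N, dg A v) + ∑ v ∈ B, dg A v)) := hM
        exact_mod_cast this
      have hNX := hdX N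
      have hBX := hdX B
      set n : ℚ := (Fintype.card V : ℚ) with hn
      have hnq : n = 1 + (H.card + (N.card + B.card)) := by
        rw [hn]; exact_mod_cast hcardn
      set i : ℚ := (H.card : ℚ) + 1 with hi
      have hi3 : 3 ≤ i := by
        have : (2 : ℚ) ≤ H.card := by exact_mod_cast hHc
        rw [hi]; linarith
      have hij : i + 2 ≤ j := by
        have : ((H.card : ℚ)) + 3 ≤ j := by exact_mod_cast hH2
        rw [hi]; linarith
      have hnb : t + j < n := by
        have h1 : (dg A h : ℚ) ≤ n - 1 := by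
          rw [hn]; exact_mod_cast dg_le hG h
        linarith
      have hna : n * (j - 1) < t * (2 * j - i) := by
        have h1 : 2 * j * t = (M2 A : ℚ) := ht
        rw [hMq] at h1
        have h2 : t * (2 * j - i) = 2 * j * t - i * t := by ring
        rw [h2, h1, hnq, hi]
        nlinarith
      have hfin := num1 hi3 hij hna hnb
      have h4 : 2 + 2 * (H.card / 4) ≤ H.card := by
        obtain ⟨k, hk⟩ := hH
        omega
      generalize H.card / 4 = k4 at hPQ h4
      have hQP : (Q A P : ℚ) ≤ 4 * (k4 : ℚ) := by exact_mod_cast hPQ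
      have h4q : (2 : ℚ) + 2 * (k4 : ℚ) ≤ H.card := by exact_mod_cast h4
      have hN2 : (N.card : ℚ) ≤ 2 := by
        have : N.card ≤ 2 := by omega
        exact_mod_cast this
      rw [hnq, hi] at hfin
      linarith

end Pool.Agent.Helper60.Bis
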