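import Pool.Agent.Helper60.Bis.Part1
import Pool.Agent.Helper60.Bis.Part2
import Pool.Agent.Helper60.Bis.Part3A
import Pool.Agent.Helper60.Bis.Part3B

set_option linter.unusedSectionVars false

/-!
# No adjacency matrix is bad
-/

namespace Pool.Agent.Helper60.Bis

open Finset Pool.Agent.Helper29.Bisect

variable {V : Type*} [Fintype V] [DecidableEq V]

theorem not_bad {A : V → V → ℤ} {j : ℤ} (hG : Gr A j) (hj : 5 ≤ j) (hjo : Odd j) {t : ℚ}
    (ht : 2 * j * t = M2 A) : ¬ Bad A t := by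
  intro hbad
  rcases part1 hG hj ht hbad with ⟨H0, h1, h2, h3, h4⟩ | ⟨h1, h2⟩
  · obtain ⟨h, H, N, B, P, y, γ, C, hH, hH2, hB, hN, hmin, hsep, hP, hP0, hPS, hPQ, hy0, hγ0,
      hγH, hy, hyN, hyg, hγg, hw, hg⟩ := part3A hG hj hjo ht hbad H0 h1 h2 h3 h4
    exact part3B hG hj hjo ht hbad C hH hH2 hB hN hmin hsep hP hP0 hPS hPQ hy0 hγ0 hγH hy hyN
      hyg hγg hw hg
  · exact part2 hG hj hjo ht hbad h1 h2

end Pool.Agent.Helper60.Bis
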