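import Pool.Agent.Helper60.Bis.Conf

set_option linter.unusedSectionVars false

/-!
# PART1: pairing of the whole vertex set, or an odd separated set
-/

namespace Pool.Agent.Helper60.Bis

open Finset Pool.Agent.Helper29.Bisect

variable {V : Type*} [Fintype V] [DecidableEq V]

/-- the degree is at most `n - 1` -/
private theorem dg_le {A : V → V → ℤ} {j : ℤ} (hG : Gr A j) (a : V) :
    dg A a ≤ (Fintype.card V : ℤ) - 1 := by
  unfold dg
  rw [← Finset.sum_erase_add _ _ (Finset.mem_univ a), hG.diag, add_zero]
  calc ∑ b ∈ Finset.univ.erase a, A a b ≤ ∑ _b ∈ Finset.univ.erase a, (1 : ℤ) :=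
        Finset.sum_le_sum fun b _ => hG.le_one a b
    _ = (Fintype.card V : ℤ) - 1 := by
        rw [Finset.sum_const, Finset.card_erase_of_mem (Finset.mem_univ a), Finset.card_univ]
        have : 1 ≤ Fintype.card V := Fintype.card_pos_iff.2 ⟨a⟩
        simp only [nsmul_eq_mul, mul_one]
        push_cast [this]; ring

/-- `j D ≤ 2 m` -/
private theorem mul_dg_le {A : V → V → ℤ} {j : ℤ} (hG : Gr A j) (hj : 5 ≤ j) (a : V) :
    j * dg A a ≤ M2 A := by
  have h2 : M2 A = dg A a + ∑ b ∈ Finset.univ.erase a, dg A b := by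
    unfold M2; rw [← Finset.sum_erase_add _ _ (Finset.mem_univ a)]; ring
  have h3 : ((Fintype.card V : ℤ) - 1) * (j - 1) ≤ ∑ b ∈ Finset.univ.erase a, dg A b := by
    calc ((Fintype.card V : ℤ) - 1) * (j - 1) = ∑ _b ∈ Finset.univ.erase a, (j - 1) := by
          rw [Finset.sum_const, Finset.card_erase_of_mem (Finset.mem_univ a), Finset.card_univ]
          have : 1 ≤ Fintype.card V := Fintype.card_pos_iff.2 ⟨a⟩
          simp only [nsmul_eq_mul]
          push_cast [this]; ring
      _ ≤ _ := Finset.sum_le_sum fun b _ => hG.deg b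
  have h4 := dg_le hG a
  have h5 : dg A a * (j - 1) ≤ ((Fintype.card V : ℤ) - 1) * (j - 1) :=
    mul_le_mul_of_nonneg_right h4 (by linarith)
  rw [h2]
  nlinarith

theorem part1 {A : V → V → ℤ} {j : ℤ} (hG : Gr A j) (hj : 5 ≤ j) {t : ℚ}
    (ht : 2 * j * t = M2 A) (hbad : Bad A t) :
    (∃ H0 : Finset V, Odd H0.card ∧ (∃ b, b ∉ H0) ∧
      (∀ a ∈ H0, ∀ b, b ∉ H0 → t < (dg A a : ℚ) - dg A b) ∧
      (Odd (Fintype.card V) → ∃ v, (dg A v : ℚ) ≤ t)) ∨
    (Odd (Fintype.card V) ∧ ∀ v, t < dg A v) := by
  have hjq : (5 : ℚ) ≤ j := by exact_mod_cast hj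
  have hdle : ∀ a, (dg A a : ℚ) ≤ 2 * t := by
    intro a
    have h1 : ((j * dg A a : ℤ) : ℚ) ≤ M2 A := by exact_mod_cast mul_dg_le hG hj a
    rw [← ht] at h1
    push_cast at h1
    have h2 : (j : ℚ) * dg A a ≤ j * (2 * t) := by linarith
    exact le_of_mul_le_mul_left h2 (by linarith)
  have hd0 : ∀ a, (0 : ℚ) ≤ dg A a := by
    intro a
    have := hG.deg a
    have h2 : (0 : ℤ) ≤ dg A a := by linarith
    exact_mod_cast h2
  rcases Nat.even_or_odd (Fintype.card V) with hev | hodd
  · obtain ⟨n, hn⟩ := hev
    have hcard : (Finset.univ : Finset V).card = 2 * n := by rw [Finset.card_univ]; omega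
    have hno : ¬ Odd (Fintype.card V) := by
      rw [Nat.not_odd_iff_even]; exact ⟨n, hn⟩
    rcases (isEmpty_or_nonempty V) with hV | hV
    · exfalso
      have h1 : M2 A = 0 := by unfold M2; simp
      have h2 : t = 0 := by
        rw [h1] at ht
        push_cast at ht
        have : (2 * (j : ℚ)) ≠ 0 := by linarith
        rcases mul_eq_zero.1 ht with h | h
        · exact absurd h this
        · exact h
      have h3 := hbad 0 ⟨fun a _ => (hV.false a).elim, fun a _ => (hV.false a).elim⟩ (by simp)
      have h4 : Q A (0 : V → ℤ) = 0 := by unfold Q; simp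
      have h5 : S (dg A) (0 : V → ℤ) = 0 := by unfold S; simp
      rw [h4, h5, h2] at h3
      simp at h3
    · obtain ⟨u0⟩ := hV
      have ht0 : 0 ≤ t := by linarith [hdle u0, hd0 u0]
      rcases pairing (dg A) t n Finset.univ hcard with ⟨l, h1, h2, h3, h4⟩ | ⟨H, h1, h2, h3⟩
      · exfalso
        have h5 := h4 0 (2 * t) (by linarith) (fun v _ => ⟨hd0 v, hdle v⟩)
        have h6 := alt hG hbad (P := ∅) (N := ∅) (Finset.disjoint_empty_left _) (by simp) l h1
          (by simp) (by rw [h2]; simp) t (by simpa using ht0) h3 (by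
            simp only [Finset.sum_empty, sub_zero, Int.cast_zero, abs_zero, zero_add]
            linarith)
        simp at h6
      · left
        have hne : ∃ b, b ∉ H := by
          by_contra hcon
          push Not at hcon
          have : H = Finset.univ := Finset.eq_univ_iff_forall.2 hcon
          rw [this, Finset.card_univ] at h2
          exact hno h2
        exact ⟨H, h2, hne, fun a ha b hb => h3 a ha b (by simp [hb]), fun h => absurd h hno⟩
  · have hne : (Finset.univ : Finset V).Nonempty := by
      rw [← Finset.card_pos, Finset.card_univ]; exact hodd.pos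
    obtain ⟨z, -, hz⟩ := Finset.exists_min_image Finset.univ (dg A) hne
    by_cases hzt : t < dg A z
    · right
      refine ⟨hodd, fun v => ?_⟩
      have : (dg A z : ℚ) ≤ dg A v := by exact_mod_cast hz v (Finset.mem_univ v)
      linarith
    · left
      push Not at hzt
      obtain ⟨n, hn⟩ := hodd
      have hcard : ((Finset.univ : Finset V).erase z).card = 2 * n := by
        rw [Finset.card_erase_of_mem (Finset.mem_univ z), Finset.card_univ]; omega
      rcases pairing (dg A) t n (Finset.univ.erase z) hcard with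
        ⟨l, h1, h2, h3, h4⟩ | ⟨H, h1, h2, h3⟩
      · exfalso
        have h5 := h4 (dg A z) (2 * t) (hdle z) (fun v _ => ⟨by
          exact_mod_cast hz v (Finset.mem_univ v), hdle v⟩)
        have hfl : ∀ v ∈ flat l, v ∉ ({z} : Finset V) ∪ ∅ := by
          intro v hv
          have : v ∈ (flat l).toFinset := by simpa using hv
          rw [h2] at this
          simp only [Finset.mem_erase, Finset.mem_univ, and_true] at this
          simpa using this
        have h6 := alt hG hbad (P := {z}) (N := ∅) (Finset.disjoint_empty_right _) (by simp) l h1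
          hfl (by rw [h2]; ext v; by_cases h : v = z <;> simp [h]) t
          (by
            simp only [Finset.sum_singleton, Finset.sum_empty, sub_zero]
            rw [abs_of_nonneg (hd0 z)]; exact hzt) h3 (by
            simp only [Finset.sum_singleton, Finset.sum_empty, sub_zero]
            rw [abs_of_nonneg (hd0 z)]; linarith)
        simp at h6
      · obtain ⟨b0, hb0⟩ : ((Finset.univ.erase z) \ H).Nonempty := by
          rw [← Finset.card_pos, Finset.card_sdiff_of_subset h1]
          have := Finset.card_le_card h1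
          obtain ⟨k, hk⟩ := h2
          omega
        refine ⟨H, h2, ⟨b0, (Finset.mem_sdiff.1 hb0).2⟩, ?_, fun _ => ⟨z, hzt⟩⟩
        intro a ha b hb
        by_cases hbz : b = z
        · have h5 := h3 a ha b0 hb0
          have h6 : (dg A z : ℚ) ≤ dg A b0 := by exact_mod_cast hz b0 (Finset.mem_univ b0)
          rw [hbz]
          linarith
        · exact h3 a ha b (by simp [hb, hbz])

end Pool.Agent.Helper60.Bis
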