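import Pool.Agent.Helper60.Bis.Conf

set_option linter.unusedSectionVars false

/-!
# Consequences of badness for a configuration
-/

namespace Pool.Agent.Helper60.Bis

open Finset Pool.Agent.Helper29.Bisect

variable {V : Type*} [Fintype V] [DecidableEq V]

theorem Conf.sum {h : V} {H N B : Finset V} (C : Conf h H N B) {M : Type*} [AddCommMonoid M]
    (f : V → M) :
    ∑ v, f v = f h + ∑ v ∈ H, f v + ∑ v ∈ N, f v + ∑ v ∈ B, f v := by
  have hu : (Finset.univ : Finset V) = insert h (H ∪ N ∪ B) := by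
    ext v
    simp only [Finset.mem_univ, Finset.mem_insert, Finset.mem_union, true_iff]
    have := C.cov v
    tauto
  rw [hu, Finset.sum_insert, Finset.sum_union, Finset.sum_union C.HN]
  · simp only [add_assoc]
  · exact Finset.disjoint_union_left.2 ⟨C.HB, C.NB⟩
  · simp only [Finset.mem_union, not_or]
    exact ⟨⟨C.hH, C.hN⟩, C.hB⟩

theorem St.add' {U W : Finset V} {x y : V → ℤ} (hx : St U x) (hy : St W y) (h : Disjoint U W) :
    St (U ∪ W) (x + y) := by
  constructor
  · intro a ha
    simp only [Pi.add_apply]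
    rcases Finset.mem_union.1 ha with h1 | h1
    · rw [hy.off a (Finset.disjoint_left.1 h h1), add_zero]; exact hx.on a h1
    · rw [hx.off a (Finset.disjoint_right.1 h h1), zero_add]; exact hy.on a h1
  · intro a ha
    simp only [Finset.mem_union, not_or] at ha
    simp only [Pi.add_apply, hx.off a ha.1, hy.off a ha.2, add_zero]

theorem St.neg' {U : Finset V} {x : V → ℤ} (hx : St U x) : St U (-x) := by
  constructor
  · intro a ha
    simp only [Pi.neg_apply]
    rcases hx.on a ha with h | h <;> simp [h]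
  · intro a ha
    simp [hx.off a ha]

theorem abs_add_abs_sub (a b : ℚ) : |a + b| + |a - b| = 2 * max |a| |b| := by
  rcases max_cases |a| |b| with h | h <;> rw [h.1] <;>
    rcases abs_cases a with h1 | h1 <;> rcases abs_cases b with h2 | h2 <;>
    rcases abs_cases (a + b) with h3 | h3 <;> rcases abs_cases (a - b) with h4 | h4 <;>
    linarith [h.2]

theorem star {A : V → V → ℤ} {j : ℤ} (hG : Gr A j) {t : ℚ} (hbad : Bad A t) {h : V}
    {H N B : Finset V} (C : Conf h H N B) (hN : N.card ≤ 2) (P z : V → ℤ)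
    (hP : St H P) (hP0 : ∑ v, P v = 0) (hz : St B z) (hz0 : ∑ v, z v = 0) :
    2 * t < ((Q A (pat {h} N) + Q A z + Q A P + 2 * ∑ v, z v * L A (pat {h} N) v : ℤ) : ℚ) +
      2 * max |(SA A h N : ℚ) + S (dg A) z| |(S (dg A) P : ℚ)| := by
  have hd : Disjoint ({h} : Finset V) N := by
    rw [Finset.disjoint_singleton_left]; exact C.hN
  set y := pat {h} N + z with hy
  have hcov : (({h} ∪ N) ∪ B) ∪ H = Finset.univ := by
    ext v
    simp only [Finset.mem_univ, Finset.mem_singleton, Finset.mem_union, iff_true]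
    have := C.cov v
    tauto
  have hSy : St (({h} ∪ N) ∪ B) y := by
    refine St.add' (St_pat hd) hz ?_
    rw [Finset.disjoint_union_left, Finset.disjoint_singleton_left]
    exact ⟨C.hB, C.NB⟩
  have hdis : Disjoint (({h} ∪ N) ∪ B) H := by
    rw [Finset.disjoint_union_left, Finset.disjoint_union_left, Finset.disjoint_singleton_left]
    exact ⟨⟨C.hH, C.HN.symm⟩, C.HB.symm⟩
  have h1 : St Finset.univ (y + P) := by
    rw [← hcov]; exact St.add' hSy hP hdis
  have h2 : St Finset.univ (y + -P) := by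
    rw [← hcov]; exact St.add' hSy (St.neg' hP) hdis
  have hsy : ∑ v, y v = 1 - (N.card : ℤ) := by
    rw [hy]
    simp only [Pi.add_apply, Finset.sum_add_distrib, hz0, sum_pat hd]
    simp
  have hN' : (N.card : ℤ) ≤ 2 := by exact_mod_cast hN
  have hN0 : (0 : ℤ) ≤ N.card := by positivity
  have h3 := hbad (y + P) h1 (by
    simp only [Pi.add_apply, Finset.sum_add_distrib, hP0, hsy, add_zero]
    rw [abs_le]; constructor <;> linarith)
  have h4 := hbad (y + -P) h2 (by
    simp only [Pi.add_apply, Pi.neg_apply, Finset.sum_add_distrib, Finset.sum_neg_distrib, hP0,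
      hsy, neg_zero, add_zero]
    rw [abs_le]; constructor <;> linarith)
  rw [Q_add A hG.symm, S_add] at h3
  rw [Q_add A hG.symm, S_add, Q_neg, S_neg] at h4
  have h5 : ∑ a, (-P) a * L A y a = -∑ a, P a * L A y a := by
    rw [← Finset.sum_neg_distrib]
    exact Finset.sum_congr rfl fun a _ => by simp
  rw [h5] at h4
  have h6 : Q A y = Q A (pat {h} N) + 2 * ∑ v, z v * L A (pat {h} N) v + Q A z := by
    rw [hy, Q_add A hG.symm]
  have h7 : S (dg A) y = SA A h N + S (dg A) z := by
    rw [hy, S_add, S_pat hd]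
    simp [SA]
  rw [h6, h7] at h3 h4
  have h8 := abs_add_abs_sub ((SA A h N : ℚ) + S (dg A) z) (S (dg A) P : ℚ)
  push_cast at h3 h4 ⊢
  have h9 : (SA A h N : ℚ) + S (dg A) z + -(S (dg A) P : ℚ) =
      (SA A h N : ℚ) + S (dg A) z - S (dg A) P := by ring
  rw [h9] at h4
  linarith

/-- sum of `A` over a rectangle -/
def eS (A : V → V → ℤ) (P R : Finset V) : ℤ := ∑ a ∈ P, ∑ b ∈ R, A a b

theorem eS_symm {A : V → V → ℤ} {j : ℤ} (hG : Gr A j) (P R : Finset V) : eS A P R = eS A R P := by
  unfold eS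
  rw [Finset.sum_comm]
  exact Finset.sum_congr rfl fun a _ => Finset.sum_congr rfl fun b _ => hG.symm b a

theorem eS_nonneg {A : V → V → ℤ} {j : ℤ} (hG : Gr A j) (P R : Finset V) : 0 ≤ eS A P R :=
  cross_nonneg hG P R

theorem eS_le {A : V → V → ℤ} {j : ℤ} (hG : Gr A j) (P R : Finset V) :
    eS A P R ≤ (P.card : ℤ) * R.card := by
  unfold eS
  calc ∑ a ∈ P, ∑ b ∈ R, A a b ≤ ∑ _a ∈ P, ∑ _b ∈ R, (1 : ℤ) :=
        Finset.sum_le_sum fun a _ => Finset.sum_le_sum fun b _ => hG.le_one a b
    _ = (P.card : ℤ) * R.card := by simp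

theorem eS_self_le {A : V → V → ℤ} {j : ℤ} (hG : Gr A j) (P : Finset V) :
    eS A P P ≤ (P.card : ℤ) * (P.card - 1) := inside_le hG P

theorem eS_union {A : V → V → ℤ} (P R T : Finset V) (h : Disjoint R T) :
    eS A P (R ∪ T) = eS A P R + eS A P T := by
  unfold eS
  rw [← Finset.sum_add_distrib]
  exact Finset.sum_congr rfl fun a _ => Finset.sum_union h

/-- degree sums over a set -/
theorem Conf.dgsum {A : V → V → ℤ} {h : V} {H N B : Finset V} (C : Conf h H N B)
    (P : Finset V) :
    ∑ v ∈ P, dg A v = eS A P {h} + eS A P H + eS A P N + eS A P B := by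
  unfold eS dg
  rw [← Finset.sum_add_distrib, ← Finset.sum_add_distrib, ← Finset.sum_add_distrib]
  refine Finset.sum_congr rfl fun v _ => ?_
  rw [C.sum (A v)]
  simp

theorem Conf.dgh {A : V → V → ℤ} {j : ℤ} (hG : Gr A j) {h : V} {H N B : Finset V}
    (C : Conf h H N B) : dg A h = eS A {h} H + eS A {h} N + eS A {h} B := by
  have := C.dgsum (A := A) {h}
  rw [Finset.sum_singleton] at this
  rw [this]
  have h0 : eS A {h} {h} = 0 := by simp [eS, hG.diag]
  rw [h0]; ring

theorem Conf.M2 {A : V → V → ℤ} {h : V} {H N B : Finset V} (C : Conf h H N B) :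
    M2 A = dg A h + ∑ v ∈ H, dg A v + ∑ v ∈ N, dg A v + ∑ v ∈ B, dg A v := C.sum _

theorem Q_patA {A : V → V → ℤ} {j : ℤ} (hG : Gr A j) {h : V} {N : Finset V} (hN : h ∉ N) :
    Q A (pat {h} N) = -2 * eS A {h} N + eS A N N := by
  have hd : Disjoint ({h} : Finset V) N := by
    rw [Finset.disjoint_singleton_left]; exact hN
  rw [Q_pat hd]
  have h1 := eS_symm hG N {h}
  unfold eS at h1 ⊢
  rw [h1]
  simp only [Finset.sum_singleton, hG.diag]
  ring

theorem L_patA {A : V → V → ℤ} {h : V} {N : Finset V} (hN : h ∉ N) (v : V) :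
    L A (pat {h} N) v = A v h - ∑ w ∈ N, A v w := by
  have hd : Disjoint ({h} : Finset V) N := by
    rw [Finset.disjoint_singleton_left]; exact hN
  rw [L_pat hd]
  simp

end Pool.Agent.Helper60.Bis
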