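import Pool.Agent.Helper29.Bisect.Main
import Pool.Agent.Bis.Adm

set_option linter.unusedSectionVars false

/-!
# Minimum degree two: every graph has a bisection with at most a third of the edges in each
class (copied from the module MinDegreeTwo of helper29)
-/

namespace Pool.Agent.Helper60.Bis.Three

open Finset Pool.Agent.Helper29.Bisect
open Pool.Agent.Bis (edgesIn IsBisection Admissible)

section Link

variable {V : Type} [Fintype V] [DecidableEq V] (G : SimpleGraph V) [DecidableRel G.Adj]

/-- adjacency matrix with integer entries -/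
def adj (a b : V) : ℤ := if G.Adj a b then 1 else 0

/-- the graph of the edges inside a set -/
def inside (T : Finset V) : SimpleGraph V where
  Adj a b := G.Adj a b ∧ a ∈ T ∧ b ∈ T
  symm := ⟨fun _ _ h => ⟨h.1.symm, h.2.2, h.2.1⟩⟩
  loopless := ⟨fun a h => G.loopless.irrefl a h.1⟩

instance (T : Finset V) : DecidableRel (inside G T).Adj := fun a b =>
  inferInstanceAs (Decidable (G.Adj a b ∧ a ∈ T ∧ b ∈ T))

theorem inside_edgeSet (T : Finset V) :
    (inside G T).edgeSet = {e ∈ G.edgeSet | ∀ v ∈ e, v ∈ (T : Set V)} := by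
  ext e
  induction e with
  | h a b =>
    simp only [SimpleGraph.mem_edgeSet, inside, Set.mem_ofPred_eq, Sym2.mem_iff, Finset.mem_coe]
    constructor
    · rintro ⟨h1, h2, h3⟩
      exact ⟨h1, by rintro v (rfl | rfl) <;> assumption⟩
    · rintro ⟨h1, h2⟩
      exact ⟨h1, h2 a (Or.inl rfl), h2 b (Or.inr rfl)⟩

theorem degree_eq (a : V) : ((G.neighborSet a).ncard : ℤ) = dg (adj G) a := by
  have h1 : (G.neighborSet a).ncard = G.degree a := by
    rw [Set.ncard_eq_toFinset_card', SimpleGraph.degree, SimpleGraph.neighborFinset]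
  rw [h1, dg]
  simp only [adj]
  rw [Finset.sum_boole, ← SimpleGraph.card_neighborFinset_eq_degree]
  congr 2
  ext b; simp

theorem two_edgesIn (T : Finset V) : 2 * (edgesIn G (T : Set V) : ℤ) = e2 (adj G) T := by
  have h1 : edgesIn G (T : Set V) = (inside G T).edgeFinset.card := by
    rw [edgesIn, ← inside_edgeSet, Set.ncard_eq_toFinset_card']
    rfl
  have h2 := (inside G T).sum_degrees_eq_twice_card_edges
  rw [h1]
  have h3 : (2 * ((inside G T).edgeFinset.card : ℤ)) = ∑ v, ((inside G T).degree v : ℤ) := by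
    exact_mod_cast h2.symm
  rw [h3, e2_eq]
  refine Finset.sum_congr rfl fun a _ => ?_
  have h4 := degree_eq (inside G T) a
  rw [Set.ncard_eq_toFinset_card'] at h4
  have h5 : (((inside G T).neighborSet a).toFinset.card : ℤ) = (inside G T).degree a := rfl
  rw [← h5, h4, dg]
  refine Finset.sum_congr rfl fun b _ => ?_
  simp only [adj, inside]
  by_cases h1 : G.Adj a b <;> by_cases h2 : a ∈ T <;> by_cases h3 : b ∈ T <;> simp [h1, h2, h3]

theorem two_edges : 2 * (G.edgeSet.ncard : ℤ) = M2 (adj G) := by
  have h := two_edgesIn G Finset.univ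
  have h1 : edgesIn G ((Finset.univ : Finset V) : Set V) = G.edgeSet.ncard := by
    unfold edgesIn; simp
  rw [h1] at h
  rw [h]; rfl

end Link

theorem upper : Admissible 2 (1 / 3) := by
  intro V _ G hdeg
  classical
  have : Fintype V := Fintype.ofFinite V
  obtain ⟨T, h1, h2, h3⟩ := good (adj G) (fun a b => by simp only [adj, G.adj_comm])
    (fun a => by simp [adj]) (fun a b => by
      unfold adj; split_ifs
      · exact Or.inr rfl
      · exact Or.inl rfl)
    (fun a => by rw [← degree_eq]; exact_mod_cast hdeg a)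
  rw [← two_edgesIn, ← two_edges] at h2 h3
  have hc : (T : Set V)ᶜ = ((Tᶜ : Finset V) : Set V) := by simp
  have hcard : T.card + (Tᶜ).card = Fintype.card V := Finset.card_add_card_compl T
  refine ⟨T, ?_, ?_⟩
  · rw [IsBisection, hc, Set.ncard_coe_finset, Set.ncard_coe_finset]
    rw [abs_le] at h1
    constructor <;> omega
  · rw [hc]
    have h4 : 3 * (edgesIn G (T : Set V)) ≤ G.edgeSet.ncard := by
      have : 3 * (edgesIn G (T : Set V) : ℤ) ≤ G.edgeSet.ncard := by linarith
      exact_mod_cast this
    have h5 : 3 * (edgesIn G ((Tᶜ : Finset V) : Set V)) ≤ G.edgeSet.ncard := by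
      have : 3 * (edgesIn G ((Tᶜ : Finset V) : Set V) : ℤ) ≤ G.edgeSet.ncard := by linarith
      exact_mod_cast this
    have h4' : 3 * (edgesIn G (T : Set V) : ℝ) ≤ G.edgeSet.ncard := by exact_mod_cast h4
    have h5' : 3 * (edgesIn G ((Tᶜ : Finset V) : Set V) : ℝ) ≤ G.edgeSet.ncard := by
      exact_mod_cast h5
    rw [max_le_iff]; constructor <;> linarith


end Pool.Agent.Helper60.Bis.Three
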