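import Pool.Agent.Helper60.Bis.Base
import Pool.Agent.Bis.Link
import Pool.Agent.Bis.Low

set_option linter.unusedSectionVars false

/-!
# From the integer matrix to graphs
-/

namespace Pool.Agent.Helper60.Bis

open Finset

variable {V : Type} [Fintype V] [DecidableEq V] (G : SimpleGraph V) [DecidableRel G.Adj]

/-- adjacency matrix with integer entries -/
def adj (a b : V) : ℤ := if G.Adj a b then 1 else 0

theorem adj_dg (v : V) : Helper29.Bisect.dg (adj G) v = (G.degree v : ℤ) := by
  unfold Helper29.Bisect.dg adj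
  rw [Finset.sum_boole, ← SimpleGraph.card_neighborFinset_eq_degree]
  congr 2
  ext w; simp

theorem adj_Gr (K : ℕ) (hdeg : ∀ v, K ≤ G.degree v + 1) : Gr (adj G) (K : ℤ) := by
  refine ⟨fun a b => by simp only [adj, G.adj_comm], fun a => by simp [adj], fun a b => ?_,
    fun a => ?_⟩
  · unfold adj; split_ifs
    · exact Or.inr rfl
    · exact Or.inl rfl
  · rw [adj_dg]
    have := hdeg a
    have h2 : (K : ℤ) ≤ G.degree a + 1 := by exact_mod_cast this
    linarith

/-- if the adjacency matrix is not bad then there is a good bisection -/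
theorem goodB_of_not_bad (K : ℕ) (hK : 1 ≤ K)
    (h : ¬ Bad (adj G) ((Helper29.Bisect.M2 (adj G) : ℚ) / (2 * K))) : Pool.Agent.Bis.GoodB G K := by
  unfold Bad at h
  push Not at h
  obtain ⟨x, hx, hx1, hx2⟩ := h
  have hK0 : (0 : ℚ) < K := by exact_mod_cast hK
  have hx3 : ((K : ℤ) : ℚ) * ((Helper29.Bisect.Q (adj G) x : ℚ) +
      2 * |(Helper29.Bisect.S (Helper29.Bisect.dg (adj G)) x : ℚ)|) ≤
      Helper29.Bisect.M2 (adj G) := by
    have h1 : 2 * ((Helper29.Bisect.M2 (adj G) : ℚ) / (2 * K)) =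
        (Helper29.Bisect.M2 (adj G) : ℚ) / K := by
      field_simp
    rw [h1, le_div_iff₀ hK0] at hx2
    push_cast
    linarith
  have hx4 : (K : ℤ) * (Helper29.Bisect.Q (adj G) x +
      2 * |Helper29.Bisect.S (Helper29.Bisect.dg (adj G)) x|) ≤ Helper29.Bisect.M2 (adj G) := by
    exact_mod_cast hx3
  have hx5 : (K : ℝ) * ((Helper29.Bisect.Q (adj G) x : ℝ) +
      2 * |(Helper29.Bisect.S (Helper29.Bisect.dg (adj G)) x : ℝ)|) ≤
      Helper29.Bisect.M2 (adj G) := by
    exact_mod_cast hx4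
  refine ⟨fun v => (x v : ℝ), fun v => ?_, ?_, ?_⟩
  · rcases hx.on v (Finset.mem_univ v) with h | h <;> simp [h]
  · have : |((∑ v, x v : ℤ) : ℝ)| ≤ 1 := by exact_mod_cast hx1
    push_cast at this
    exact this
  · have e1 : Pool.Agent.Bis.BF G (fun v => (x v : ℝ)) (fun v => (x v : ℝ)) =
        (Helper29.Bisect.Q (adj G) x : ℝ) := by
      unfold Pool.Agent.Bis.BF Helper29.Bisect.Q adj
      push_cast
      refine Finset.sum_congr rfl fun u _ => Finset.sum_congr rfl fun v _ => ?_
      split_ifs <;> simp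
    have e2 : Pool.Agent.Bis.SF G (fun v => (x v : ℝ)) =
        (Helper29.Bisect.S (Helper29.Bisect.dg (adj G)) x : ℝ) := by
      unfold Pool.Agent.Bis.SF Helper29.Bisect.S
      push_cast
      refine Finset.sum_congr rfl fun u _ => ?_
      rw [adj_dg]
      simp [Pool.Agent.Bis.dg]
    have e3 : ∑ v, Pool.Agent.Bis.dg G v = (Helper29.Bisect.M2 (adj G) : ℝ) := by
      unfold Helper29.Bisect.M2
      push_cast
      refine Finset.sum_congr rfl fun u _ => ?_
      rw [adj_dg]
      simp [Pool.Agent.Bis.dg]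
    rw [e1, e2, e3]
    exact hx5

end Pool.Agent.Helper60.Bis
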