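import Pool.Agent.Helper60.Bis.Conf

set_option linter.unusedSectionVars false

/-!
# The window lemma: minimise `Q` among vectors with small `S`
-/

namespace Pool.Agent.Helper60.Bis

open Finset Pool.Agent.Helper29.Bisect

variable {V : Type*} [Fintype V] [DecidableEq V]

theorem Q_neg (A : V → V → ℤ) (x : V → ℤ) : Q A (-x) = Q A x := by
  unfold Q
  refine Finset.sum_congr rfl fun a _ => Finset.sum_congr rfl fun b _ => ?_
  simp only [Pi.neg_apply]; ring

theorem S_neg (d x : V → ℤ) : S d (-x) = -S d x := by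
  unfold S
  rw [← Finset.sum_neg_distrib]
  exact Finset.sum_congr rfl fun a _ => by simp only [Pi.neg_apply]; ring

theorem St_neg {B : Finset V} {x : V → ℤ} (h : St B x) : St B (-x) := by
  constructor
  · intro a ha
    rcases h.on a ha with h1 | h1 <;> simp [h1]
  · intro a ha
    simp [h.off a ha]

theorem sum_neg' {x : V → ℤ} (h : ∑ v, x v = 0) : ∑ v, (-x) v = 0 := by
  simp only [Pi.neg_apply, Finset.sum_neg_distrib, h, neg_zero]

/-- a starting vector -/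
theorem window_start {A : V → V → ℤ} {j : ℤ} (hG : Gr A j) (B : Finset V) (hB : Even B.card)
    (y : ℚ) (hy0 : 0 ≤ y) (hy : ∀ u ∈ B, ∀ v ∈ B, (dg A u : ℚ) - dg A v ≤ y) :
    ∃ x : V → ℤ, St B x ∧ ∑ v, x v = 0 ∧ Q A x ≤ 0 ∧ |(S (dg A) x : ℚ)| ≤ y := by
  obtain ⟨n, hn⟩ := hB
  obtain ⟨l, h1, h2, h3⟩ := pairing' (dg A) n B (by omega)
  obtain ⟨x, hx1, hx2, hx3, hx4⟩ := greedy_Q A hG.symm hG.diag hG.nonneg (dg A) l ∅ 0 St.zero h1
    (by simp)
  have hQ0 : Q A (0 : V → ℤ) = 0 := by simp [Q]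
  have hS0 : S (dg A) (0 : V → ℤ) = 0 := by simp [S]
  rw [hQ0] at hx3
  rw [hS0, abs_zero, zero_add] at hx4
  have hg : (gaps (dg A) l).sum ≤ y := by
    rcases B.eq_empty_or_nonempty with rfl | hne
    · exact (h3 0 0 le_rfl (by simp)).trans (by simpa using hy0)
    · obtain ⟨u, hu, hu'⟩ := Finset.exists_max_image B (dg A) hne
      obtain ⟨w, hw, hw'⟩ := Finset.exists_min_image B (dg A) hne
      have := h3 (dg A w) (dg A u) (by exact_mod_cast hu' w hw) (fun v hv =>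
        ⟨by exact_mod_cast hw' v hv, by exact_mod_cast hu' v hv⟩)
      exact this.trans (hy u hu w hw)
  have hcast : (((l.map fun e => |dg A e.1 - dg A e.2|).sum : ℤ) : ℚ) = (gaps (dg A) l).sum := by
    unfold gaps
    clear h1 h2 h3 hx1 hx4 hg
    induction l with
    | nil => simp
    | cons e l ih =>
      simp only [List.map_cons, List.sum_cons]
      rw [Int.cast_add, ih]
      push_cast
      rfl
  refine ⟨x, by simpa [h2] using hx1, by rw [hx2]; simp, hx3, ?_⟩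
  have h5 : ((|S (dg A) x| : ℤ) : ℚ) ≤ (((l.map fun e => |dg A e.1 - dg A e.2|).sum : ℤ) : ℚ) := by
    exact_mod_cast hx4
  rw [hcast] at h5
  push_cast at h5
  linarith

theorem window_step {A : V → V → ℤ} {B : Finset V} {sa γ y : ℚ} (hγ : 0 ≤ γ)
    {x x' : V → ℤ} (h1 : St B x) (h2 : ∑ v, x v = 0) (h3 : Q A x ≤ 0)
    (h4 : |(S (dg A) x : ℚ)| ≤ sa - γ)
    (h1' : St B x') (h2' : ∑ v, x' v = 0) (h3' : Q A x' ≤ 0)
    (h4' : (S (dg A) x' : ℚ) < -(sa - γ))
    (h5 : |(S (dg A) x' : ℚ) - S (dg A) x| ≤ 2 * y) :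
    ∃ z : V → ℤ, St B z ∧ ∑ v, z v = 0 ∧ Q A z ≤ 0 ∧
      |sa + (S (dg A) z : ℚ)| ≤ max y γ := by
  have h6 := abs_le.1 h4
  have h7 := abs_le.1 h5
  by_cases hc : sa + (S (dg A) x : ℚ) ≤ max y γ
  · refine ⟨x, h1, h2, h3, ?_⟩
    rw [abs_of_nonneg (by linarith [h6.1])]
    exact hc
  · push Not at hc
    refine ⟨x', h1', h2', h3', ?_⟩
    have h8 : y ≤ max y γ := le_max_left _ _
    have h9 : γ ≤ max y γ := le_max_right _ _
    rw [abs_le]
    constructor
    · linarith [h7.1]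
    · linarith

theorem window {A : V → V → ℤ} {j : ℤ} (hG : Gr A j) (B : Finset V) (hB : Even B.card)
    (sa γ y : ℚ) (hγ : 0 ≤ γ) (hy0 : 0 ≤ y)
    (hy : ∀ u ∈ B, ∀ v ∈ B, (dg A u : ℚ) - dg A v ≤ y) (hw : y + γ ≤ sa) :
    (∃ x : V → ℤ, St B x ∧ ∑ v, x v = 0 ∧ |(S (dg A) x : ℚ)| ≤ sa - γ ∧
      ∀ u ∈ B, ∀ v ∈ B, x u = 1 → x v = -1 →
        x u * L A x u + x v * L A x v + 2 * A u v ≤ 0) ∨
    (∃ z : V → ℤ, St B z ∧ ∑ v, z v = 0 ∧ Q A z ≤ 0 ∧
      |sa + (S (dg A) z : ℚ)| ≤ max y γ ∧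
      ∃ z' : V → ℤ, St B z' ∧ ∑ v, z' v = 0 ∧ sa - γ < |(S (dg A) z' : ℚ)|) := by
  classical
  obtain ⟨x0, a1, a2, a3, a4⟩ := window_start hG B hB y hy0 hy
  -- the finite set of candidates
  set F : Finset (V → ℤ) := (Fintype.piFinset fun _ : V => ({-1, 0, 1} : Finset ℤ)).filter
    (fun x => St B x ∧ ∑ v, x v = 0 ∧ |(S (dg A) x : ℚ)| ≤ sa - γ) with hF
  have memF : ∀ x : V → ℤ, x ∈ F ↔ St B x ∧ ∑ v, x v = 0 ∧ |(S (dg A) x : ℚ)| ≤ sa - γ := by
    intro x
    rw [hF, Finset.mem_filter, Fintype.mem_piFinset]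
    refine ⟨fun h => h.2, fun h => ⟨fun v => ?_, h⟩⟩
    by_cases hv : v ∈ B
    · rcases h.1.on v hv with h1 | h1 <;> simp [h1]
    · simp [h.1.off v hv]
  have hne : F.Nonempty := ⟨x0, (memF x0).2 ⟨a1, a2, by linarith⟩⟩
  obtain ⟨x, hxF, hmin⟩ := Finset.exists_min_image F (fun x => Q A x) hne
  obtain ⟨b1, b2, b3⟩ := (memF x).1 hxF
  have b4 : Q A x ≤ 0 := (hmin x0 ((memF x0).2 ⟨a1, a2, by linarith⟩)).trans a3
  by_cases hopt : ∀ u ∈ B, ∀ v ∈ B, x u = 1 → x v = -1 →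
      x u * L A x u + x v * L A x v + 2 * A u v ≤ 0
  · exact Or.inl ⟨x, b1, b2, b3, hopt⟩
  right
  push Not at hopt
  obtain ⟨u, hu, v, hv, hxu, hxv, hlt⟩ := hopt
  rw [hxu, hxv] at hlt
  have huv : v ≠ u := by
    rintro rfl
    rw [hxu] at hxv
    norm_num at hxv
  set x' : V → ℤ := x + pr v u 2 with hx'
  have c1 : St B x' := by
    constructor
    · intro a ha
      by_cases hav : a = v
      · subst hav
        left
        simp [hx', pr, hxv, huv]
      · by_cases hau : a = u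
        · subst hau
          right
          simp [hx', pr, hxu, hav]
        · simpa [hx', pr, Pi.single_apply, hav, hau] using b1.on a ha
    · intro a ha
      have hav : a ≠ v := fun h => ha (h ▸ hv)
      have hau : a ≠ u := fun h => ha (h ▸ hu)
      simpa [hx', pr, Pi.single_apply, hav, hau] using b1.off a ha
  have c2 : ∑ a, x' a = 0 := by
    simp only [hx', Pi.add_apply, Finset.sum_add_distrib, sum_pr, b2, add_zero]
  have c3 : Q A x' < Q A x := by
    rw [hx', Q_add A hG.symm, sum_pr_mul, Q_pr A hG.symm, hG.diag, hG.diag, hG.symm v u]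
    linarith
  have c4 : S (dg A) x' = S (dg A) x + 2 * (dg A v - dg A u) := by
    rw [hx', S_add, S_pr]
  have c5 : |(S (dg A) x' : ℚ) - S (dg A) x| ≤ 2 * y := by
    rw [c4]
    push_cast
    have e1 := hy u hu v hv
    have e2 := hy v hv u hu
    rw [abs_le]
    constructor <;> linarith
  have c6 : sa - γ < |(S (dg A) x' : ℚ)| := by
    by_contra hcon
    push Not at hcon
    have := hmin x' ((memF x').2 ⟨c1, c2, hcon⟩)
    linarith
  have hQx' : Q A x' ≤ 0 := by linarith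
  obtain ⟨z, d1, d2, d3, d4⟩ : ∃ z : V → ℤ, St B z ∧ ∑ v, z v = 0 ∧ Q A z ≤ 0 ∧
      |sa + (S (dg A) z : ℚ)| ≤ max y γ := by
    rcases lt_or_ge (S (dg A) x' : ℚ) 0 with hneg | hpos
    · rw [abs_of_neg hneg] at c6
      exact window_step hγ b1 b2 b4 b3 c1 c2 hQx' (by linarith) c5
    · rw [abs_of_nonneg hpos] at c6
      refine window_step hγ (St_neg b1) (sum_neg' b2) (by rw [Q_neg]; exact b4)
        (by rw [S_neg]; push_cast; rw [abs_neg]; exact b3) (St_neg c1) (sum_neg' c2)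
        (by rw [Q_neg]; exact hQx') (by rw [S_neg]; push_cast; linarith) ?_
      rw [S_neg, S_neg]
      push_cast
      rw [show -(S (dg A) x' : ℚ) - -(S (dg A) x : ℚ) = -((S (dg A) x' : ℚ) - S (dg A) x) by ring,
        abs_neg]
      exact c5
  exact ⟨z, d1, d2, d3, d4, x', c1, c2, c6⟩

end Pool.Agent.Helper60.Bis
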